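import Pool.Agent.V8H32.NV.Sec

/-! The off-diagonal part of the twisted second moment. -/

set_option autoImplicit false

namespace Pool.Agent.V8H32.NW
open Finset Pool.Agent.R311.RES Pool.Agent.V8H32.NV
open Pool.Agent.V8H32.Cos (pr cls)
open scoped Classical

variable {q : ℕ} [Fact q.Prime]

theorem group_off {ι : Type*} (H : Subgroup (DirichletCharacter ℂ q)) (χ₀ : DirichletCharacter ℂ q)
    (I : Finset ι) (F : ι → ℝ) (a b : ι → ℕ) (M : ℕ) (ha : ∀ i ∈ I, 0 < a i ∧ a i ≤ M)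
    (hb : ∀ i ∈ I, 0 < b i ∧ b i ≤ M) (hq : ∀ i ∈ I, ¬ (q ∣ a i ∧ q ∣ b i)) :
    ‖∑ i ∈ I, (F i : ℂ) * ∑ ψ : H, bb (χ₀ * (ψ : DirichletCharacter ℂ q)) (a i) (b i) -
      (Fintype.card H : ℂ) * ((∑ i ∈ I.filter (fun i => a i = b i), F i : ℝ) : ℂ)‖ ≤
      (Fintype.card H : ℝ) * ∑ w ∈ (KR q (ann H) M).erase (1, 1),
        |∑ i ∈ I.filter (fun i => w.2 * a i = w.1 * b i), F i| := by
  have hqp : q.Prime := Fact.out
  have hdiag : ∑ i ∈ I.filter (fun i => a i = b i), (F i : ℂ) *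
      ∑ ψ : H, bb (χ₀ * (ψ : DirichletCharacter ℂ q)) (a i) (b i) =
      (Fintype.card H : ℂ) * ((∑ i ∈ I.filter (fun i => a i = b i), F i : ℝ) : ℂ) := by
    rw [Complex.ofReal_sum, Finset.mul_sum]
    apply Finset.sum_congr rfl
    intro i hi
    rw [mem_filter] at hi
    have hc : (a i).Coprime q := by
      rw [Nat.coprime_comm, Nat.Prime.coprime_iff_not_dvd hqp]
      intro h
      exact hq i hi.1 ⟨h, hi.2 ▸ h⟩
    rw [sum_bb, ← hi.2]
    have h1 : cls q (a i) (a i) = 1 := by unfold cls; rw [mul_inv_cancel]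
    rw [h1, if_pos ⟨⟨hc, hc⟩, one_mem _⟩]
    simp [mul_comm]
  rw [← Finset.sum_filter_add_sum_filter_not I (fun i => a i = b i), hdiag, add_sub_cancel_left]
  refine (group_le H χ₀ (I.filter (fun i => ¬ a i = b i)) F a b M
    (fun i hi => ha i (mem_filter.1 hi).1) (fun i hi => hb i (mem_filter.1 hi).1)
    (fun i hi => hq i (mem_filter.1 hi).1)).trans ?_
  apply mul_le_mul_of_nonneg_left _ (Nat.cast_nonneg _)
  have hz : ∑ w ∈ KR q (ann H) M,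
      |∑ i ∈ (I.filter (fun i => ¬ a i = b i)).filter (fun i => w.2 * a i = w.1 * b i), F i| =
      ∑ w ∈ (KR q (ann H) M).erase (1, 1),
      |∑ i ∈ (I.filter (fun i => ¬ a i = b i)).filter (fun i => w.2 * a i = w.1 * b i), F i| := by
    symm
    apply Finset.sum_erase
    have : (I.filter (fun i => ¬ a i = b i)).filter (fun i => (1, 1).2 * a i = (1, 1).1 * b i) = ∅ := by
      rw [Finset.eq_empty_iff_forall_notMem]
      intro i hi
      rw [mem_filter, mem_filter] at hi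
      simp only [one_mul] at hi
      exact hi.1.2 hi.2
    rw [this, Finset.sum_empty, abs_zero]
  rw [hz]
  apply le_of_eq
  apply Finset.sum_congr rfl
  intro w hw
  rw [mem_erase, mem_KR] at hw
  obtain ⟨w0, ⟨w1, _⟩, ⟨w2, _⟩, w3, _⟩ := hw
  congr 2
  ext i
  rw [mem_filter, mem_filter, mem_filter]
  constructor
  · rintro ⟨⟨h1, _⟩, h3⟩
    exact ⟨h1, h3⟩
  · rintro ⟨h1, h3⟩
    refine ⟨⟨h1, fun h2 => w0 ?_⟩, h3⟩
    rw [h2] at h3
    have h4 : w.2 = w.1 := Nat.eq_of_mul_eq_mul_right (hb i h1).1 h3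
    rw [h4, Nat.coprime_self] at w3
    exact Prod.ext w3 (h4.trans w3)

/-- the twisted second moment over a coset without the diagonal -/
theorem S2_off {ι : Type*} (H : Subgroup (DirichletCharacter ℂ q)) (χ₀ : DirichletCharacter ℂ q)
    (I : Finset ι) (A : ι → ℕ) (c : ι → ℝ) (L N : ℕ) (hA : ∀ i ∈ I, 0 < A i ∧ A i ≤ L) (hL : L < q)
    (hN : N < q * q) :
    ‖∑ ψ : H, DK (χ₀ * (ψ : DirichletCharacter ℂ q)) N *
      ((‖Mof I A c (χ₀ * (ψ : DirichletCharacter ℂ q))‖ ^ 2 : ℝ) : ℂ) -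
      (Fintype.card H : ℂ) * ((TN I A c N 1 1 : ℝ) : ℂ)‖ ≤
      (Fintype.card H : ℝ) * ∑ w ∈ (KR q (ann H) (L * N)).erase (1, 1), |TN I A c N w.1 w.2| := by
  have hqp : q.Prime := Fact.out
  have h1 : ∑ ψ : H, DK (χ₀ * (ψ : DirichletCharacter ℂ q)) N *
      ((‖Mof I A c (χ₀ * (ψ : DirichletCharacter ℂ q))‖ ^ 2 : ℝ) : ℂ) =
      ∑ τ ∈ (I ×ˢ I) ×ˢ NV.prs N, ((c τ.1.1 * c τ.1.2 * (1 / Real.sqrt (A τ.1.1) *
        (1 / Real.sqrt (A τ.1.2))) * rs τ.2 : ℝ) : ℂ) *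
        ∑ ψ : H, bb (χ₀ * (ψ : DirichletCharacter ℂ q)) (A τ.1.1 * τ.2.1) (A τ.1.2 * τ.2.2) := by
    rw [Finset.sum_congr rfl (fun (ψ : H) _ => Mof_sq I A c (χ₀ * (ψ : DirichletCharacter ℂ q)) N),
      Finset.sum_comm]
    apply Finset.sum_congr rfl
    intro τ _
    rw [Finset.mul_sum]
  rw [h1]
  have hz : ∀ z ∈ NV.prs N, (0 < z.1 ∧ z.1 ≤ N) ∧ (0 < z.2 ∧ z.2 ≤ N) := by
    intro z hz
    rw [mem_prs] at hz
    have h2 : z.1 ≤ z.1 * z.2 := Nat.le_mul_of_pos_right _ hz.2.1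
    have h3 : z.2 ≤ z.1 * z.2 := Nat.le_mul_of_pos_left _ hz.1
    omega
  have h2 := group_off H χ₀ ((I ×ˢ I) ×ˢ NV.prs N) (fun τ => c τ.1.1 * c τ.1.2 * (1 / Real.sqrt (A τ.1.1) *
        (1 / Real.sqrt (A τ.1.2))) * rs τ.2) (fun τ => A τ.1.1 * τ.2.1) (fun τ => A τ.1.2 * τ.2.2)
        (L * N) (by
          intro τ hτ
          rw [mem_product, mem_product] at hτ
          obtain ⟨⟨a1, a2⟩, a3⟩ := hτ
          exact ⟨Nat.mul_pos (hA _ a1).1 (hz _ a3).1.1, Nat.mul_le_mul (hA _ a1).2 (hz _ a3).1.2⟩) (by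
          intro τ hτ
          rw [mem_product, mem_product] at hτ
          obtain ⟨⟨a1, a2⟩, a3⟩ := hτ
          exact ⟨Nat.mul_pos (hA _ a2).1 (hz _ a3).2.1, Nat.mul_le_mul (hA _ a2).2 (hz _ a3).2.2⟩) (by
          intro τ hτ
          rw [mem_product, mem_product] at hτ
          obtain ⟨⟨a1, a2⟩, a3⟩ := hτ
          rintro ⟨b1, b2⟩
          have hnd : ∀ i ∈ I, ¬ q ∣ A i := by
            intro i hi hd
            have := Nat.le_of_dvd (hA i hi).1 hd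
            have := (hA i hi).2
            omega
          refine prs_ndvd hN a3 ⟨?_, ?_⟩
          · exact (hqp.dvd_mul.1 b1).resolve_left (hnd _ a1)
          · exact (hqp.dvd_mul.1 b2).resolve_left (hnd _ a2))
  have e1 : ∑ τ ∈ ((I ×ˢ I) ×ˢ NV.prs N).filter (fun τ => A τ.1.1 * τ.2.1 = A τ.1.2 * τ.2.2),
      c τ.1.1 * c τ.1.2 * (1 / Real.sqrt (A τ.1.1) * (1 / Real.sqrt (A τ.1.2))) * rs τ.2 =
      TN I A c N 1 1 := by
    rw [← TN_filter]
    simp only [one_mul]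
  have e2 : ∑ w ∈ (KR q (ann H) (L * N)).erase (1, 1), |∑ τ ∈ ((I ×ˢ I) ×ˢ NV.prs N).filter
      (fun τ => w.2 * (A τ.1.1 * τ.2.1) = w.1 * (A τ.1.2 * τ.2.2)),
      c τ.1.1 * c τ.1.2 * (1 / Real.sqrt (A τ.1.1) * (1 / Real.sqrt (A τ.1.2))) * rs τ.2| =
      ∑ w ∈ (KR q (ann H) (L * N)).erase (1, 1), |TN I A c N w.1 w.2| := by
    apply Finset.sum_congr rfl
    intro w _
    rw [TN_filter]
  rw [← e1, ← e2]
  exact h2

end Pool.Agent.V8H32.NW
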