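import Pool.Agent.V8H32.NV.Pps

/-! Prime powers in a subgroup, with a saving. -/

set_option autoImplicit false

namespace Pool.Agent.V8H32.NW
open Finset Pool.Agent.R311.RES Pool.Agent.V8H32.NV
open Pool.Agent.V8H32.Cos (cls un_mul' un_one')
open scoped Classical

/-- the saving -/
noncomputable def tht (q : ℕ) : ℝ := Real.exp (-(Real.log (Real.log q) / 20))

lemma tht_pos (q : ℕ) : 0 < tht q := Real.exp_pos _

lemma sqrt_le_tht {q : ℕ} (h : 1 ≤ Real.log q) : Real.sqrt (Real.log q) ≤ Real.log q * tht q := by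
  set Λ := Real.log q with hΛ
  have hl : 0 ≤ Real.log Λ := Real.log_nonneg h
  have h1 : Real.sqrt Λ = Real.exp (Real.log Λ / 2) := by
    rw [Real.sqrt_eq_iff_mul_self_eq (by linarith) (Real.exp_pos _).le, ← Real.exp_add]
    rw [add_halves, Real.exp_log (by linarith)]
  have h2 : Λ * tht q = Real.exp (19 / 20 * Real.log Λ) := by
    unfold tht
    rw [← hΛ]
    nth_rw 1 [← Real.exp_log (by linarith : 0 < Λ)]
    rw [← Real.exp_add]
    congr 1; ring
  rw [h1, h2]
  apply Real.exp_le_exp.2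
  linarith

variable {q : ℕ} [Fact q.Prime]

theorem prime_sum' (K : Subgroup (ZMod q)ˣ) (W : ℕ) (hW1 : 1 ≤ W)
    (hK : (Fintype.card K : ℝ) ≤ (q : ℝ) ^ (1 / 3 : ℝ))
    (hW : 6 * (Real.log W + Real.log 2) ≤ Real.log q) (hΛ1 : 1 ≤ Real.log q) :
    ∑ p ∈ PK K W, Real.log p / Real.sqrt p ≤ 130 * (Real.log q * tht q) := by
  set Λ := Real.log q with hΛ
  set r := Real.exp (-(Real.log 2 / 10)) with hr
  have hr0 : 0 < r := Real.exp_pos _
  have hl2 := Real.log_two_gt_d9
  have hs1 : 1 ≤ Real.sqrt Λ := by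
    rw [show (1 : ℝ) = Real.sqrt 1 by simp]; exact Real.sqrt_le_sqrt hΛ1
  set f := ⌊Real.sqrt Λ⌋₊ with hf
  have hf1 : 1 ≤ f := Nat.le_floor (by exact_mod_cast hs1)
  set i0 := Nat.log 2 f with hi0
  have h2i : (2 : ℝ) ^ i0 ≤ Real.sqrt Λ := by
    have h1 : 2 ^ i0 ≤ f := Nat.pow_log_le_self 2 (by omega)
    calc (2 : ℝ) ^ i0 ≤ f := by exact_mod_cast h1
      _ ≤ _ := Nat.floor_le (by linarith)
  have h2i' : Real.sqrt Λ ≤ (2 : ℝ) ^ (i0 + 1) := by
    have h1 : f + 1 ≤ 2 ^ (i0 + 1) := Nat.lt_pow_succ_log_self (by norm_num) _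
    calc Real.sqrt Λ ≤ (f : ℝ) + 1 := (Nat.lt_floor_add_one _).le
      _ ≤ _ := by exact_mod_cast h1
  have hri : r ^ (i0 + 1) ≤ tht q := by
    rw [hr, ← Real.exp_nat_mul]
    unfold tht
    apply Real.exp_le_exp.2
    have h1 : Real.log (Real.sqrt Λ) ≤ Real.log ((2 : ℝ) ^ (i0 + 1)) :=
      Real.log_le_log (by linarith) h2i'
    rw [Real.log_sqrt (by linarith), Real.log_pow] at h1
    rw [← hΛ]
    linarith
  have hsqt := sqrt_le_tht hΛ1
  rw [← hΛ] at hsqt
  rw [← Finset.sum_filter_add_sum_filter_not (PK K W) (fun p => p < 2 ^ i0)]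
  have hpos : ∀ p ∈ PK K W, p.Prime := by
    intro p hp
    unfold PK at hp
    exact (mem_filter.1 hp).2.1
  have hA : ∑ p ∈ (PK K W).filter (fun p => p < 2 ^ i0), Real.log p / Real.sqrt p ≤
      2 * (Λ * tht q) := by
    have h1 : ∀ p ∈ (PK K W).filter (fun p => p < 2 ^ i0), Real.log p / Real.sqrt p ≤ 2 := by
      intro p hp
      have hpp := hpos p (mem_filter.1 hp).1
      have hp0 : (0 : ℝ) < p := by exact_mod_cast hpp.pos
      have hsp : 0 < Real.sqrt (p : ℝ) := Real.sqrt_pos.2 hp0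
      rw [div_le_iff₀ hsp]
      have h2 : Real.log p = 2 * Real.log (Real.sqrt p) := by
        rw [Real.log_sqrt hp0.le]; ring
      have h3 := Real.log_le_sub_one_of_pos hsp
      linarith
    refine (Finset.sum_le_card_nsmul _ _ 2 h1).trans ?_
    rw [nsmul_eq_mul]
    have h2 : ((PK K W).filter (fun p => p < 2 ^ i0)).card ≤ 2 ^ i0 := by
      calc ((PK K W).filter (fun p => p < 2 ^ i0)).card ≤ (range (2 ^ i0)).card := by
            apply card_le_card
            intro p hp
            exact mem_range.2 (mem_filter.1 hp).2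
        _ = _ := card_range _
    have h3 : (((PK K W).filter (fun p => p < 2 ^ i0)).card : ℝ) ≤ Λ * tht q := by
      calc (((PK K W).filter (fun p => p < 2 ^ i0)).card : ℝ) ≤ (2 : ℝ) ^ i0 := by exact_mod_cast h2
        _ ≤ _ := h2i.trans hsqt
    linarith
  have hB : ∑ p ∈ (PK K W).filter (fun p => ¬ p < 2 ^ i0), Real.log p / Real.sqrt p ≤
      128 * (Λ * tht q) := by
    have hmap : ∀ p ∈ (PK K W).filter (fun p => ¬ p < 2 ^ i0), Nat.log 2 p ∈ Ico i0 (Nat.log 2 W + 1) := by
      intro p hp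
      rw [mem_filter] at hp
      have hpp := hpos p hp.1
      have hp1 := hp.1
      unfold PK at hp1
      rw [mem_filter, mem_Icc] at hp1
      rw [mem_Ico]
      refine ⟨Nat.le_log_of_pow_le (by norm_num) (by omega), ?_⟩
      exact Nat.lt_succ_of_le (Nat.log_mono_right hp1.1.2)
    rw [← Finset.sum_fiberwise_of_maps_to hmap]
    have hbox : ∀ i ∈ Ico i0 (Nat.log 2 W + 1),
        ∑ p ∈ ((PK K W).filter (fun p => ¬ p < 2 ^ i0)).filter (fun p => Nat.log 2 p = i),
        Real.log p / Real.sqrt p ≤ 8 * (Λ * tht q) * r ^ (i - i0) := by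
      intro i hi
      rw [mem_Ico] at hi
      have hPm : ∀ p ∈ ((PK K W).filter (fun p => ¬ p < 2 ^ i0)).filter (fun p => Nat.log 2 p = i),
          p.Prime ∧ 2 ^ i ≤ p ∧ p < 2 ^ (i + 1) ∧ p.Coprime q ∧ un q p ∈ K := by
        intro p hp
        unfold PK at hp
        rw [mem_filter, mem_filter, mem_filter, mem_Icc] at hp
        obtain ⟨⟨⟨⟨a1, a2⟩, a3, a4, a5⟩, _⟩, a6⟩ := hp
        refine ⟨a3, ?_, ?_, a4, a5⟩
        · rw [← a6]; exact Nat.pow_log_le_self 2 a3.ne_zero
        · rw [← a6]; exact Nat.lt_pow_succ_log_self (by norm_num) _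
      have hT : 0 ≤ Λ * tht q := mul_nonneg (by linarith) (tht_pos q).le
      rcases Nat.eq_zero_or_pos i with h0 | h0
      · have he : ((PK K W).filter (fun p => ¬ p < 2 ^ i0)).filter (fun p => Nat.log 2 p = i) = ∅ := by
          rw [Finset.eq_empty_iff_forall_notMem]
          intro p hp
          have h1 := hPm p hp
          rw [h0] at h1
          have := h1.1.two_le
          have := h1.2.2.1
          omega
        rw [he, Finset.sum_empty]
        positivity
      · have h1 := prime_box K _ i h0 hK hPm (by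
          refine le_trans ?_ hW
          apply mul_le_mul_of_nonneg_left _ (by norm_num)
          push_cast
          rw [add_mul, one_mul]
          apply add_le_add_left
          have h2 := log2_le (n := W) (by omega)
          have h3 : (i : ℝ) ≤ (Nat.log 2 W : ℝ) := by exact_mod_cast (by omega : i ≤ Nat.log 2 W)
          nlinarith)
        refine h1.trans ?_
        have h4 : r ^ (i + 1) = r ^ (i0 + 1) * r ^ (i - i0) := by
          rw [← pow_add]; congr 1; omega
        rw [← hΛ, ← hr, h4]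
        calc 8 * Λ * (r ^ (i0 + 1) * r ^ (i - i0)) ≤ 8 * Λ * (tht q * r ^ (i - i0)) := by
              apply mul_le_mul_of_nonneg_left _ (by linarith)
              exact mul_le_mul_of_nonneg_right hri (by positivity)
          _ = _ := by ring
    refine (Finset.sum_le_sum hbox).trans ?_
    rw [← Finset.mul_sum, Finset.sum_Ico_eq_sum_range]
    have e1 : ∑ k ∈ range (Nat.log 2 W + 1 - i0), r ^ (i0 + k - i0) =
        ∑ k ∈ range (Nat.log 2 W + 1 - i0), r ^ k := by
      apply Finset.sum_congr rfl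
      intro k _
      rw [Nat.add_sub_cancel_left]
    rw [e1]
    have hgeo := mul_neg_geom_sum r (Nat.log 2 W + 1 - i0)
    have hr1 : r ≤ 15 / 16 := by
      have h1 := Real.add_one_le_exp (Real.log 2 / 10)
      have h2 : r * Real.exp (Real.log 2 / 10) = 1 := by rw [hr, ← Real.exp_add]; simp
      have h3 : 16 / 15 ≤ Real.exp (Real.log 2 / 10) := by linarith
      nlinarith
    have hS0 : 0 ≤ ∑ i ∈ range (Nat.log 2 W + 1 - i0), r ^ i :=
      Finset.sum_nonneg (fun i _ => by positivity)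
    have hS : ∑ i ∈ range (Nat.log 2 W + 1 - i0), r ^ i ≤ 16 := by
      have h1 : 0 ≤ r ^ (Nat.log 2 W + 1 - i0) := by positivity
      nlinarith
    have hT : 0 ≤ Λ * tht q := mul_nonneg (by linarith) (tht_pos q).le
    calc 8 * (Λ * tht q) * ∑ i ∈ range (Nat.log 2 W + 1 - i0), r ^ i ≤ 8 * (Λ * tht q) * 16 :=
          mul_le_mul_of_nonneg_left hS (by positivity)
      _ = _ := by ring
  linarith

theorem pw_sum' (K : Subgroup (ZMod q)ˣ) (W Hc : ℕ) (hW1 : 1 ≤ W)
    (hK : (Fintype.card K : ℝ) ≤ (q : ℝ) ^ (1 / 3 : ℝ))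
    (hW : 6 * (Real.log W + Real.log 2) ≤ Real.log q) (hΛ1 : 1 ≤ Real.log q) :
    ∑ n ∈ PW K W Hc, Real.log n.minFac / Real.sqrt n ≤
      130 * (Real.log q * tht q) + 4 * (Real.log W * (1 + Real.log W)) := by
  have hlW : 0 ≤ Real.log W := Real.log_nonneg (by exact_mod_cast hW1)
  rw [← Finset.sum_filter_add_sum_filter_not (PW K W Hc) (fun n => n.Prime)]
  apply add_le_add
  · refine le_trans ?_ (prime_sum' K W hW1 hK hW hΛ1)
    have h1 : ∀ n ∈ (PW K W Hc).filter (fun n => n.Prime), Real.log n.minFac / Real.sqrt n =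
        Real.log n / Real.sqrt n := by
      intro n hn
      rw [(mem_filter.1 hn).2.minFac_eq]
    rw [Finset.sum_congr rfl h1]
    apply Finset.sum_le_sum_of_subset_of_nonneg
    · intro n hn
      unfold PW at hn
      rw [mem_filter, mem_filter] at hn
      obtain ⟨⟨a1, a2, a3, a4, a5⟩, a6⟩ := hn
      unfold PK
      rw [mem_filter, mem_Icc]
      rw [a6.minFac_eq] at a3
      exact ⟨⟨a6.pos, a3⟩, a6, a4, a5⟩
    · intro n hn _
      unfold PK at hn
      rw [mem_filter, mem_Icc] at hn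
      exact div_nonneg (Real.log_nonneg (by exact_mod_cast hn.1.1)) (Real.sqrt_nonneg _)
  · set S := (PW K W Hc).filter (fun n => ¬ n.Prime) with hS
    set T := (Icc 1 W).filter Nat.Prime ×ˢ Icc 2 (Nat.log 2 Hc) with hT
    have hSm : ∀ n ∈ S, (n.minFac.Prime ∧ n.minFac ≤ W) ∧ (2 ≤ n.factorization n.minFac ∧
        n.factorization n.minFac ≤ Nat.log 2 Hc) ∧ n.minFac ^ n.factorization n.minFac = n := by
      intro n hn
      rw [hS] at hn
      unfold PW at hn
      rw [mem_filter, mem_filter, mem_Icc] at hn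
      obtain ⟨⟨⟨a0, a1⟩, a2, a3, a4, a5⟩, a6⟩ := hn
      obtain ⟨b1, b2, b3⟩ := pp_form a2
      refine ⟨⟨b1, a3⟩, ⟨?_, ?_⟩, b3⟩
      · by_contra hcon
        have h1 : n.factorization n.minFac = 1 := by omega
        rw [h1, pow_one] at b3
        rw [b3] at b1
        exact a6 b1
      · apply Nat.le_log_of_pow_le (by norm_num)
        calc 2 ^ n.factorization n.minFac ≤ n.minFac ^ n.factorization n.minFac :=
              Nat.pow_le_pow_left b1.two_le _
          _ = n := b3
          _ ≤ Hc := a1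
    have h1 : ∑ n ∈ S, Real.log n.minFac / Real.sqrt n ≤
        ∑ x ∈ T, Real.log x.1 / Real.sqrt ((x.1 : ℝ) ^ x.2) := by
      have hinj : Set.InjOn (fun n : ℕ => (n.minFac, n.factorization n.minFac)) (S : Set ℕ) := by
        intro a ha b hb h
        rw [Prod.mk.injEq] at h
        rw [← (hSm a ha).2.2, ← (hSm b hb).2.2, h.2, h.1]
      have h2 : ∑ n ∈ S, Real.log n.minFac / Real.sqrt n =
          ∑ x ∈ S.image (fun n : ℕ => (n.minFac, n.factorization n.minFac)),
            Real.log x.1 / Real.sqrt ((x.1 : ℝ) ^ x.2) := by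
        rw [Finset.sum_image hinj]
        apply Finset.sum_congr rfl
        intro n hn
        simp only
        congr 2
        exact_mod_cast (hSm n hn).2.2.symm
      rw [h2]
      apply Finset.sum_le_sum_of_subset_of_nonneg
      · intro x hx
        rw [mem_image] at hx
        obtain ⟨n, hn, rfl⟩ := hx
        obtain ⟨⟨b1, b2⟩, ⟨b3, b4⟩, _⟩ := hSm n hn
        rw [hT, mem_product, mem_filter, mem_Icc, mem_Icc]
        exact ⟨⟨⟨b1.pos, b2⟩, b1⟩, b3, b4⟩
      · intro x hx _
        rw [hT, mem_product, mem_filter, mem_Icc] at hx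
        exact div_nonneg (Real.log_nonneg (by exact_mod_cast hx.1.1.1)) (Real.sqrt_nonneg _)
    refine h1.trans ?_
    rw [hT, Finset.sum_product]
    have h3 : ∀ p ∈ (Icc 1 W).filter Nat.Prime, ∑ k ∈ Icc 2 (Nat.log 2 Hc),
        Real.log (p, k).1 / Real.sqrt (((p, k).1 : ℝ) ^ (p, k).2) ≤ 4 * Real.log W * (1 / (p : ℝ)) := by
      intro p hp
      rw [mem_filter, mem_Icc] at hp
      have hp0 : (0 : ℝ) < p := by exact_mod_cast hp.2.pos
      have hlp : 0 ≤ Real.log p := Real.log_nonneg (by exact_mod_cast hp.2.one_lt.le)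
      have hlpW : Real.log p ≤ Real.log W := Real.log_le_log hp0 (by exact_mod_cast hp.1.2)
      have e : ∑ k ∈ Icc 2 (Nat.log 2 Hc), Real.log (p, k).1 / Real.sqrt (((p, k).1 : ℝ) ^ (p, k).2) =
          Real.log p * ∑ k ∈ Icc 2 (Nat.log 2 Hc), 1 / Real.sqrt ((p : ℝ) ^ k) := by
        rw [Finset.mul_sum]
        apply Finset.sum_congr rfl
        intro k _
        simp only
        ring
      rw [e]
      calc Real.log p * ∑ k ∈ Icc 2 (Nat.log 2 Hc), 1 / Real.sqrt ((p : ℝ) ^ k) ≤
          Real.log W * (4 / p) :=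
            mul_le_mul hlpW (pow_sum_le hp.2.two_le _) (Finset.sum_nonneg fun k _ => by positivity) hlW
        _ = _ := by ring
    refine (Finset.sum_le_sum h3).trans ?_
    rw [← Finset.mul_sum]
    have h4 : ∑ p ∈ (Icc 1 W).filter Nat.Prime, 1 / (p : ℝ) ≤ 1 + Real.log W := by
      have h6 : ∑ i ∈ Icc 1 W, 1 / (i : ℝ) = (harmonic W : ℝ) := by
        rw [harmonic_eq_sum_Icc]
        push_cast
        exact Finset.sum_congr rfl fun i _ => by rw [one_div]
      refine le_trans ?_ (harmonic_le_one_add_log W)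
      rw [← h6]
      exact Finset.sum_le_sum_of_subset_of_nonneg (filter_subset _ _) (fun i _ _ => by positivity)
    calc 4 * Real.log W * ∑ p ∈ (Icc 1 W).filter Nat.Prime, 1 / (p : ℝ) ≤
        4 * Real.log W * (1 + Real.log W) := mul_le_mul_of_nonneg_left h4 (by positivity)
      _ = _ := by ring

/-- the sum over the fractions which are prime powers -/
theorem pp_sum' (K : Subgroup (ZMod q)ˣ) (M W Hc : ℕ) (hW1 : 1 ≤ W)
    (hK : (Fintype.card K : ℝ) ≤ (q : ℝ) ^ (1 / 3 : ℝ))
    (hW : 6 * (Real.log W + Real.log 2) ≤ Real.log q) (hΛ1 : 1 ≤ Real.log q) :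
    ∑ w ∈ (KR q K M).filter (fun w => w.1 * w.2 ≤ Hc ∧ ro W w = 0 ∧ sm W w = 1),
      Real.log (w.1 * w.2).minFac * (1 / Real.sqrt ((w.1 : ℝ) * w.2)) ≤
      2 * (130 * (Real.log q * tht q) + 4 * (Real.log W * (1 + Real.log W))) := by
  have hpw := pw_sum' K W Hc hW1 hK hW hΛ1
  set S := (KR q K M).filter (fun w => w.1 * w.2 ≤ Hc ∧ ro W w = 0 ∧ sm W w = 1) with hS
  have hsub : S ⊆ (PW K W Hc).image (fun n => (n, 1)) ∪ (PW K W Hc).image (fun n => (1, n)) := by
    intro w hw
    rw [hS, mem_filter, mem_KR] at hw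
    obtain ⟨⟨⟨a1, _⟩, ⟨a2, _⟩, a3, a4, a5, a6⟩, a7, a8, a9⟩ := hw
    have h1 : PF w = (w.1 * w.2).primeFactors := by
      unfold PF; rw [Nat.primeFactors_mul (by omega) (by omega)]
    have h2 := PF_card W a3
    have h3 : (PF w).card = 1 := by
      unfold PF
      rw [card_union_of_disjoint a3.disjoint_primeFactors]
      omega
    have hsmall : ∀ p ∈ PF w, p ≤ W := by
      intro p hp
      by_contra hcon
      have : p ∈ (PF w).filter (fun p => W < p) := mem_filter.2 ⟨hp, by omega⟩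
      have h4 : 0 < ro W w := card_pos.2 ⟨p, this⟩
      omega
    have hmin : (w.1 * w.2).minFac ≤ W := by
      obtain ⟨b1, _, _⟩ := pp_form (n := w.1 * w.2) (by rw [← h1]; exact h3)
      apply hsmall
      rw [h1]
      exact Nat.mem_primeFactors.2 ⟨b1, Nat.minFac_dvd _, (Nat.mul_pos a1 a2).ne'⟩
    rcases Nat.eq_zero_or_pos w.2.primeFactors.card with h0 | h0
    · rw [card_eq_zero, Nat.primeFactors_eq_empty] at h0
      have h5 : w.2 = 1 := by
        rcases h0 with h | h
        · omega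
        · exact h
      rw [mem_union]
      left
      rw [mem_image]
      refine ⟨w.1, ?_, ?_⟩
      · unfold PW
        rw [mem_filter, mem_Icc]
        rw [h5, mul_one] at a7 hmin h1
        rw [h5, cls_one_right] at a6
        exact ⟨⟨a1, a7⟩, by rw [← h1]; exact h3, hmin, a4, a6⟩
      · exact Prod.ext rfl h5.symm
    · have h6 : w.1.primeFactors.card = 0 := by omega
      rw [card_eq_zero, Nat.primeFactors_eq_empty] at h6
      have h5 : w.1 = 1 := by
        rcases h6 with h | h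
        · omega
        · exact h
      rw [mem_union]
      right
      rw [mem_image]
      refine ⟨w.2, ?_, ?_⟩
      · unfold PW
        rw [mem_filter, mem_Icc]
        rw [h5, one_mul] at a7 hmin h1
        rw [h5, cls_one_left] at a6
        exact ⟨⟨a2, a7⟩, by rw [← h1]; exact h3, hmin, a5, by simpa using inv_mem a6⟩
      · exact Prod.ext h5.symm rfl
  have hnn : ∀ w : ℕ × ℕ, 0 ≤ Real.log (w.1 * w.2).minFac * (1 / Real.sqrt ((w.1 : ℝ) * w.2)) := by
    intro w
    apply mul_nonneg _ (by positivity)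
    exact Real.log_nonneg (by exact_mod_cast Nat.minFac_pos _)
  refine (Finset.sum_le_sum_of_subset_of_nonneg hsub (fun w _ _ => hnn w)).trans ?_
  refine (Finset.sum_union_inter (s₁ := (PW K W Hc).image (fun n => (n, 1)))
    (s₂ := (PW K W Hc).image (fun n => (1, n))) (f := fun w : ℕ × ℕ =>
      Real.log (w.1 * w.2).minFac * (1 / Real.sqrt ((w.1 : ℝ) * w.2)))).le.trans' ?_ |>.trans ?_
  · exact le_add_of_nonneg_right (Finset.sum_nonneg fun w _ => hnn w)
  · rw [Finset.sum_image (fun a _ b _ h => (Prod.mk.inj h).1),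
      Finset.sum_image (fun a _ b _ h => (Prod.mk.inj h).2)]
    simp only [mul_one, one_mul, Nat.cast_one]
    have e : ∑ n ∈ PW K W Hc, Real.log n.minFac * (1 / Real.sqrt n) =
        ∑ n ∈ PW K W Hc, Real.log n.minFac / Real.sqrt n :=
      Finset.sum_congr rfl (fun n _ => by ring)
    rw [e]
    linarith

end Pool.Agent.V8H32.NW
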