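import Pool.Agent.V8H32.NV.Ltot
import Pool.Agent.V8H32.NW.O2

/-! The contribution of the fractions of small height different from one. -/

set_option autoImplicit false

namespace Pool.Agent.V8H32.NW
open Finset Pool.Agent.R311.RES Pool.Agent.V8H32.NV
open Pool.Agent.V8H32.Cos (pr cls)
open scoped Classical

structure Sz3 (q z W₀ R0 Hc : ℕ) (ϱ C : ℝ) : Prop extends Sz2 q z W₀ R0 Hc ϱ C where
  hCH3 : 8 * C * Real.log q ^ 4 * Real.log q ≤ (z : ℝ) ^ 30
  hWs : 4 * (Real.log W₀ * (1 + Real.log W₀)) ≤ Real.log q * tht q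
  hHs : 1 + Real.log Hc ≤ tht q * Hc

lemma inv_le_tht {q : ℕ} (h : 1 ≤ Real.log q) : 1 / Real.log q ≤ tht q := by
  have hl : 0 ≤ Real.log (Real.log q) := Real.log_nonneg h
  have h1 : 1 / Real.log q = Real.exp (-Real.log (Real.log q)) := by
    rw [Real.exp_neg, Real.exp_log (by linarith), one_div]
  rw [h1]
  unfold tht
  apply Real.exp_le_exp.2
  linarith

section
variable {q z W R0 Hc : ℕ} [Fact q.Prime] {ϱ C : ℝ}

lemma low_card' (K : Subgroup (ZMod q)ˣ) (M Hc : ℕ) :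
    (((KR q K M).filter (fun w => w.1 * w.2 ≤ Hc)).card : ℝ) ≤ Hc * (1 + Real.log Hc) := by
  set T := (Icc 1 Hc ×ˢ Icc 1 Hc).filter (fun w : ℕ × ℕ => w.1 * w.2 ≤ Hc) with hT
  have h1 : ((KR q K M).filter (fun w => w.1 * w.2 ≤ Hc)).card ≤ T.card := by
    apply card_le_card
    intro w hw
    rw [mem_filter, mem_KR] at hw
    obtain ⟨⟨⟨a1, _⟩, ⟨a2, _⟩, _⟩, a7⟩ := hw
    rw [hT, mem_filter, mem_product, mem_Icc, mem_Icc]
    exact ⟨⟨⟨a1, (Nat.le_mul_of_pos_right _ a2).trans a7⟩, a2, (Nat.le_mul_of_pos_left _ a1).trans a7⟩, a7⟩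
  have h2 : (T.card : ℝ) ≤ ∑ u ∈ Icc 1 Hc, (Hc : ℝ) * (1 / (u : ℝ)) := by
    rw [Finset.card_eq_sum_ones, Nat.cast_sum, hT, Finset.sum_filter, Finset.sum_product]
    apply Finset.sum_le_sum
    intro u hu
    rw [mem_Icc] at hu
    rw [← Finset.sum_filter]
    have h3 : ((Icc 1 Hc).filter (fun v => (u, v).1 * (u, v).2 ≤ Hc)).card ≤ Hc / u := by
      calc ((Icc 1 Hc).filter (fun v => (u, v).1 * (u, v).2 ≤ Hc)).card ≤ (Icc 1 (Hc / u)).card := by
            apply card_le_card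
            intro v hv
            rw [mem_filter, mem_Icc] at hv
            rw [mem_Icc]
            refine ⟨hv.1.1, ?_⟩
            rw [Nat.le_div_iff_mul_le hu.1, mul_comm]
            exact hv.2
        _ = _ := by rw [Nat.card_Icc, Nat.add_sub_cancel]
    rw [Finset.sum_const, nsmul_eq_mul, Nat.cast_one, mul_one]
    calc _ ≤ ((Hc / u : ℕ) : ℝ) := by exact_mod_cast h3
      _ ≤ (Hc : ℝ) / u := Nat.cast_div_le
      _ = _ := by ring
  have h6 : ∑ i ∈ Icc 1 Hc, 1 / (i : ℝ) = (harmonic Hc : ℝ) := by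
    rw [harmonic_eq_sum_Icc]
    push_cast
    exact Finset.sum_congr rfl fun i _ => by rw [one_div]
  calc _ ≤ (T.card : ℝ) := by exact_mod_cast h1
    _ ≤ _ := h2
    _ = (Hc : ℝ) * ∑ u ∈ Icc 1 Hc, 1 / (u : ℝ) := by rw [Finset.mul_sum]
    _ ≤ _ := by
        apply mul_le_mul_of_nonneg_left _ (Nat.cast_nonneg _)
        rw [h6]
        exact harmonic_le_one_add_log Hc

theorem low_off (h : Sz3 q z W R0 Hc ϱ C) (hF : Fm W Hc C) (K : Subgroup (ZMod q)ˣ)
    (hK : (Fintype.card K : ℝ) ≤ (q : ℝ) ^ (1 / 3 : ℝ)) (M N : ℕ) (hN : 1 ≤ N)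
    (hN2 : Real.log N ≤ 2 * Real.log q) :
    ∑ w ∈ ((KR q K M).erase (1, 1)).filter (fun w => w.1 * w.2 ≤ Hc),
      |TN (IM W z (10 * R0) Hc) AM (cM' Hc) N w.1 w.2| ≤
      (262 * ϱ * C + 2) * tht q + (Hc : ℝ) ^ 2 * (4 / Real.sqrt (Real.sqrt N) *
        ((IM W z (10 * R0) Hc).card : ℝ) ^ 2) := by
  obtain ⟨g1, _, g3, g4, g5, g6, g7⟩ := h.toSz2.HcR
  obtain ⟨s1, s2⟩ := h.toSz2.small
  have hΛ1 := h.toSz.L1
  have hC := h.hC
  have hϱ0 := h.hϱ0
  have hthp := tht_pos q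
  set S := ((KR q K M).erase (1, 1)).filter (fun w => w.1 * w.2 ≤ Hc) with hS
  have hSm : ∀ w ∈ S, (0 < w.1 ∧ 0 < w.2) ∧ Nat.Coprime w.1 w.2 ∧ w.1 * w.2 ≤ Hc ∧ w ≠ (1, 1) := by
    intro w hw
    rw [hS, mem_filter, mem_erase, mem_KR] at hw
    obtain ⟨⟨a0, ⟨a1, _⟩, ⟨a2, _⟩, a3, _⟩, a7⟩ := hw
    exact ⟨⟨a1, a2⟩, a3, a7, a0⟩
  have hSsub : S ⊆ (KR q K M).filter (fun w => w.1 * w.2 ≤ Hc) := by
    intro w hw
    rw [hS, mem_filter, mem_erase] at hw
    exact mem_filter.2 ⟨hw.1.2, hw.2⟩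
  have hcardS : (S.card : ℝ) ≤ (Hc : ℝ) ^ 2 := by
    refine le_trans ?_ (low_card_sq K M Hc)
    exact_mod_cast card_le_card hSsub
  have hcardS' : (S.card : ℝ) ≤ Hc * (1 + Real.log Hc) := by
    refine le_trans ?_ (low_card' K M Hc)
    exact_mod_cast card_le_card hSsub
  set E := 4 / Real.sqrt (Real.sqrt N) * ((IM W z (10 * R0) Hc).card : ℝ) ^ 2 with hE
  have hE0 : 0 ≤ E := by rw [hE]; positivity
  set D := 8 * C * Real.log q ^ 4 with hD
  have hD0 : 0 ≤ D := by rw [hD]; positivity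
  have hterm : ∀ w ∈ S, |TN (IM W z (10 * R0) Hc) AM (cM' Hc) N w.1 w.2| ≤
      E + ((if ro W w = 0 ∧ sm W w = 1 then C / Real.log Hc *
          (Real.log (w.1 * w.2).minFac * (1 / Real.sqrt ((w.1 : ℝ) * w.2))) else 0) +
        1 / (Hc : ℝ) ^ 2 +
        (if 1 ≤ ro W w ∧ sm W w ≤ 1 then D * (4 ^ ro W w * (1 / Real.sqrt ((w.1 : ℝ) * w.2))) else 0)) := by
    intro w hw
    obtain ⟨⟨h1, h2⟩, h4, h3, hne⟩ := hSm w hw
    have u1 : (1 : ℝ) ≤ w.1 := by exact_mod_cast h1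
    have u2 : (1 : ℝ) ≤ w.2 := by exact_mod_cast h2
    have u3 : (1 : ℝ) ≤ (w.1 : ℝ) * w.2 := by nlinarith
    have u4 : 1 / Real.sqrt ((w.1 : ℝ) * w.2) ≤ 1 := by
      rw [div_le_one (Real.sqrt_pos.2 (by linarith))]
      rw [show (1 : ℝ) = Real.sqrt 1 by simp]; exact Real.sqrt_le_sqrt u3
    have u5 : 0 ≤ 1 / Real.sqrt ((w.1 : ℝ) * w.2) := by positivity
    have hc := TN_close (IM W z (10 * R0) Hc) AM (cM' Hc) (fun i hi => AM_pos hi)
      (fun i hi => cM_abs' hi) hN h1 h2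
    rw [TM_eq W z (10 * R0) Hc N h1 h2 h4] at hc
    set a₀ := Real.log N / 2 + ga - Real.log ((w.1 : ℝ) * w.2) / 2 with ha₀
    have ha : |a₀| ≤ 2 * Real.log q := by
      have l1 : 0 ≤ Real.log N := Real.log_nonneg (by exact_mod_cast hN)
      have l2 : 0 ≤ Real.log ((w.1 : ℝ) * w.2) := Real.log_nonneg u3
      have l3 : Real.log ((w.1 : ℝ) * w.2) ≤ Real.log Hc := by
        apply Real.log_le_log (by linarith)
        exact_mod_cast h3
      have l4 := ga_pos
      have l5 := ga_lt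
      rw [ha₀, abs_le]
      constructor <;> linarith
    have hc' : |TN (IM W z (10 * R0) Hc) AM (cM' Hc) N w.1 w.2 -
        1 / Real.sqrt ((w.1 : ℝ) * w.2) * TMf W z (10 * R0) Hc a₀ w| ≤ E := hc
    have hmain : |TN (IM W z (10 * R0) Hc) AM (cM' Hc) N w.1 w.2| ≤
        E + 1 / Real.sqrt ((w.1 : ℝ) * w.2) * |TMf W z (10 * R0) Hc a₀ w| := by
      have := abs_shift (a := TN (IM W z (10 * R0) Hc) AM (cM' Hc) N w.1 w.2) hc' le_rfl
      rw [abs_mul, abs_of_nonneg u5] at this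
      linarith
    refine hmain.trans (add_le_add_right ?_ _)
    have hp2 : 0 ≤ 1 / (Hc : ℝ) ^ 2 := by positivity
    rcases Nat.lt_or_ge 1 (sm W w) with c1 | c1
    · have hb := TMf_c h.toSz2 hF h1 h2 h3 h4 ha c1
      have : 1 / Real.sqrt ((w.1 : ℝ) * w.2) * |TMf W z (10 * R0) Hc a₀ w| ≤ 1 * (1 / (Hc : ℝ) ^ 2) :=
        mul_le_mul u4 hb (abs_nonneg _) zero_le_one
      rw [if_neg (by omega), if_neg (by omega)]
      linarith
    · rcases Nat.eq_zero_or_pos (ro W w) with c2 | c2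
      · rw [if_neg (show ¬ (1 ≤ ro W w ∧ sm W w ≤ 1) by omega)]
        rcases Nat.eq_zero_or_pos (sm W w) with c3 | c3
        · exfalso
          have h5 := PF_card W h4
          have h6 : w.1.primeFactors.card = 0 := by omega
          have h7 : w.2.primeFactors.card = 0 := by omega
          rw [card_eq_zero, Nat.primeFactors_eq_empty] at h6 h7
          apply hne
          apply Prod.ext
          · simp only; omega
          · simp only; omega
        · have c4 : sm W w = 1 := by omega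
          have hb := TMf_b h.toSz2 hF h1 h2 h3 h4 ha c2 c4
          rw [if_pos ⟨c2, c4⟩]
          calc 1 / Real.sqrt ((w.1 : ℝ) * w.2) * |TMf W z (10 * R0) Hc a₀ w| ≤
              1 / Real.sqrt ((w.1 : ℝ) * w.2) * (C / Real.log Hc * Real.log (w.1 * w.2).minFac +
                1 / (Hc : ℝ) ^ 2) := mul_le_mul_of_nonneg_left hb u5
            _ = C / Real.log Hc * (Real.log (w.1 * w.2).minFac * (1 / Real.sqrt ((w.1 : ℝ) * w.2))) +
                1 / Real.sqrt ((w.1 : ℝ) * w.2) * (1 / (Hc : ℝ) ^ 2) := by ring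
            _ ≤ C / Real.log Hc * (Real.log (w.1 * w.2).minFac * (1 / Real.sqrt ((w.1 : ℝ) * w.2))) +
                1 * (1 / (Hc : ℝ) ^ 2) := by
                apply add_le_add_right
                exact mul_le_mul_of_nonneg_right u4 hp2
            _ = _ := by ring
      · have hb := TMf_d h.toSz2 hF h1 h2 h3 h4 ha c1
        rw [if_neg (by omega), if_pos ⟨c2, c1⟩]
        calc 1 / Real.sqrt ((w.1 : ℝ) * w.2) * |TMf W z (10 * R0) Hc a₀ w| ≤
            1 / Real.sqrt ((w.1 : ℝ) * w.2) * (D * 4 ^ ro W w) := mul_le_mul_of_nonneg_left hb u5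
          _ = D * (4 ^ ro W w * (1 / Real.sqrt ((w.1 : ℝ) * w.2))) := by ring
          _ ≤ _ := by linarith
  refine (Finset.sum_le_sum hterm).trans ?_
  rw [Finset.sum_add_distrib, Finset.sum_add_distrib, Finset.sum_add_distrib]
  have t1 : ∑ _w ∈ S, E ≤ (Hc : ℝ) ^ 2 * E := by
    rw [Finset.sum_const, nsmul_eq_mul]
    exact mul_le_mul_of_nonneg_right hcardS hE0
  have t3 : ∑ w ∈ S, (if ro W w = 0 ∧ sm W w = 1 then C / Real.log Hc *
      (Real.log (w.1 * w.2).minFac * (1 / Real.sqrt ((w.1 : ℝ) * w.2))) else 0) ≤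
      262 * ϱ * C * tht q := by
    rw [← Finset.sum_filter, ← Finset.mul_sum]
    have e1 : S.filter (fun w => ro W w = 0 ∧ sm W w = 1) ⊆
        (KR q K M).filter (fun w => w.1 * w.2 ≤ Hc ∧ ro W w = 0 ∧ sm W w = 1) := by
      intro w hw
      rw [hS, mem_filter, mem_filter, mem_erase] at hw
      rw [mem_filter]
      exact ⟨hw.1.1.2, hw.1.2, hw.2⟩
    have e2 := pp_sum' K M W Hc (by omega) hK (by
      have f1 := h.hup
      have f2 : Real.log W + Real.log 2 ≤ Real.log (4 * Hc) := by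
        have hW0 : (0 : ℝ) < W := by exact_mod_cast (by omega : 0 < W)
        rw [← Real.log_mul hW0.ne' (by norm_num)]
        apply Real.log_le_log (by positivity)
        linarith
      linarith) (by linarith)
    have e3 := h.hWs
    have e4 : ∑ w ∈ S.filter (fun w => ro W w = 0 ∧ sm W w = 1),
      Real.log (w.1 * w.2).minFac * (1 / Real.sqrt ((w.1 : ℝ) * w.2)) ≤ 262 * (Real.log q * tht q) := by
      refine (Finset.sum_le_sum_of_subset_of_nonneg e1 (fun w _ _ => ?_)).trans ?_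
      · apply mul_nonneg _ (by positivity)
        exact Real.log_nonneg (by exact_mod_cast Nat.minFac_pos _)
      · linarith
    have e5 : 0 ≤ C / Real.log Hc := by apply div_nonneg <;> linarith
    calc C / Real.log Hc * _ ≤ C / Real.log Hc * (262 * (Real.log q * tht q)) :=
          mul_le_mul_of_nonneg_left e4 e5
      _ = 262 * (C * (Real.log q / Real.log Hc)) * tht q := by ring
      _ ≤ 262 * (C * ϱ) * tht q := by
          apply mul_le_mul_of_nonneg_right _ hthp.le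
          apply mul_le_mul_of_nonneg_left _ (by norm_num)
          apply mul_le_mul_of_nonneg_left _ (by linarith)
          rw [div_le_iff₀ (by linarith)]
          exact h.hϱ
      _ = _ := by ring
  have hHc0 : (0 : ℝ) < Hc := by linarith
  have t4 : ∑ _w ∈ S, 1 / (Hc : ℝ) ^ 2 ≤ tht q := by
    rw [Finset.sum_const, nsmul_eq_mul]
    calc (S.card : ℝ) * (1 / (Hc : ℝ) ^ 2) ≤ (Hc * (1 + Real.log Hc)) * (1 / (Hc : ℝ) ^ 2) :=
          mul_le_mul_of_nonneg_right hcardS' (by positivity)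
      _ = (1 + Real.log Hc) / Hc := by field_simp
      _ ≤ tht q := by
          rw [div_le_iff₀ hHc0]
          exact h.hHs
  have t5 : ∑ w ∈ S, (if 1 ≤ ro W w ∧ sm W w ≤ 1 then
      D * (4 ^ ro W w * (1 / Real.sqrt ((w.1 : ℝ) * w.2))) else 0) ≤ tht q := by
    rw [← Finset.sum_filter, ← Finset.mul_sum]
    have e1 : S.filter (fun w => 1 ≤ ro W w ∧ sm W w ≤ 1) ⊆
        (KR q K M).filter (fun w => w.1 * w.2 ≤ Hc ∧ 1 ≤ ro W w ∧ sm W w ≤ 1) := by
      intro w hw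
      rw [hS, mem_filter, mem_filter, mem_erase] at hw
      rw [mem_filter]
      exact ⟨hw.1.1.2, hw.1.2, hw.2⟩
    have e2 := (Finset.sum_le_sum_of_subset_of_nonneg e1 (fun w _ _ => by positivity)).trans
      (low_sum K M Hc z W h.toSz hK h.hup)
    have hz := h.toSz2.zR
    have hz30 : (0 : ℝ) < (z : ℝ) ^ 30 := by positivity
    calc D * _ ≤ D * (1 / (z : ℝ) ^ 30) := mul_le_mul_of_nonneg_left e2 hD0
      _ ≤ 1 / Real.log q := by
          rw [mul_one_div, div_le_div_iff₀ hz30 (by linarith), one_mul]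
          exact h.hCH3
      _ ≤ _ := inv_le_tht (by linarith)
  linarith

end

end Pool.Agent.V8H32.NW
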