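import Pool.Agent.V8H32.NV.Int
import Pool.Agent.V8H32.NW.O1
import Pool.Agent.V8H32.NW.O3

/-! The twisted second moment for a fixed length, with an error term which is small. -/

set_option autoImplicit false

namespace Pool.Agent.V8H32.NW
open Finset Pool.Agent.R311.RES Pool.Agent.V8H32.NV
open Pool.Agent.V8H32.Cos (pr cls)
open scoped Classical

/-- all hypotheses -/
structure AllS (q z W₀ R0 Hc L : ℕ) [Fact q.Prime] (ϱ C D κ η : ℝ)
    (H : Subgroup (DirichletCharacter ℂ q)) : Prop extends AllH q z W₀ R0 Hc L ϱ C D κ η H where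
  sz3 : Sz3 q z W₀ R0 Hc ϱ C
  hDκ2 : D ^ 2 * (1 + 2 * Real.log q) * Real.log q ≤ (q : ℝ) ^ κ
  hbig2 : 100 * (1 + 2 * Real.log q) * Real.log q ^ 2 ≤ (q : ℝ) ^ (1 / 100 : ℝ)

lemma sum_rs4 (N : ℕ) : ∑ z ∈ NV.prs N, rs z ≤ 4 * N := by
  refine (sum_rs N).trans ?_
  rcases Nat.eq_zero_or_pos N with h | h
  · rw [h]; simp
  · have hN : (1 : ℝ) ≤ N := by exact_mod_cast h
    have hs1 : 1 ≤ Real.sqrt (N : ℝ) := by
      rw [show (1 : ℝ) = Real.sqrt 1 by simp]; exact Real.sqrt_le_sqrt hN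
    have hs0 : 0 < Real.sqrt (N : ℝ) := by linarith
    have h1 : Real.log N = 2 * Real.log (Real.sqrt N) := by
      rw [Real.log_sqrt (by linarith)]; ring
    have h2 := Real.log_le_sub_one_of_pos hs0
    have h3 : Real.sqrt (N : ℝ) * Real.sqrt N = N := Real.mul_self_sqrt (by linarith)
    nlinarith

lemma TN11_bound {ι : Type*} (I : Finset ι) (A : ι → ℕ) (c : ι → ℝ) (hc : ∀ i ∈ I, |c i| ≤ 1) (N : ℕ) :
    |TN I A c N 1 1| ≤ (I.card : ℝ) ^ 2 * (4 * N) := by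
  rw [← TN_filter]
  refine (Finset.abs_sum_le_sum_abs _ _).trans ?_
  have h1 : ∀ τ ∈ (I ×ˢ I) ×ˢ NV.prs N, |c τ.1.1 * c τ.1.2 * (1 / Real.sqrt (A τ.1.1) *
      (1 / Real.sqrt (A τ.1.2))) * rs τ.2| ≤ rs τ.2 := by
    intro τ hτ
    rw [mem_product, mem_product] at hτ
    obtain ⟨⟨i1, i2⟩, _⟩ := hτ
    rw [abs_mul, abs_of_nonneg (rs_nonneg _)]
    apply mul_le_of_le_one_left (rs_nonneg _)
    rw [abs_mul, abs_mul, abs_of_nonneg (a := 1 / Real.sqrt (A τ.1.1) * (1 / Real.sqrt (A τ.1.2)))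
      (by positivity)]
    have g1 := inv_sqrt_le_one (A τ.1.1)
    have g2 := inv_sqrt_le_one (A τ.1.2)
    calc |c τ.1.1| * |c τ.1.2| * (1 / Real.sqrt (A τ.1.1) * (1 / Real.sqrt (A τ.1.2))) ≤
        (1 * 1) * (1 * 1) := by
          apply mul_le_mul
          · exact mul_le_mul (hc _ i1) (hc _ i2) (abs_nonneg _) zero_le_one
          · exact mul_le_mul g1 g2 (by positivity) zero_le_one
          · positivity
          · norm_num
      _ = 1 := by norm_num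
  calc _ ≤ ∑ τ ∈ (I ×ˢ I) ×ˢ NV.prs N, |c τ.1.1 * c τ.1.2 * (1 / Real.sqrt (A τ.1.1) *
      (1 / Real.sqrt (A τ.1.2))) * rs τ.2| :=
        Finset.sum_le_sum_of_subset_of_nonneg (filter_subset _ _) (fun _ _ _ => abs_nonneg _)
    _ ≤ ∑ τ ∈ (I ×ˢ I) ×ˢ NV.prs N, rs τ.2 := Finset.sum_le_sum h1
    _ = (I.card : ℝ) ^ 2 * ∑ z ∈ NV.prs N, rs z := by
        simp only [Finset.sum_product, Finset.sum_const, nsmul_eq_mul, card_product]
        push_cast
        ring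
    _ ≤ _ := mul_le_mul_of_nonneg_left (sum_rs4 N) (by positivity)

section
variable {q z W R0 Hc L : ℕ} [Fact q.Prime] {ϱ C D κ η : ℝ} {H : Subgroup (DirichletCharacter ℂ q)}

/-- the diagonal term -/
noncomputable def T1 (W z R0 Hc N : ℕ) : ℝ := TN (IM W z (10 * R0) Hc) AM (cM' Hc) N 1 1

lemma AllS.bigs (A : AllS q z W R0 Hc L ϱ C D κ η H) : 1000 ≤ Real.log q ∧
    100 * Real.log q ≤ (q : ℝ) ^ (1 / 100 : ℝ) ∧ 1 / tht q ≤ Real.log q ∧ 0 < tht q ∧
    1 / Real.log q ≤ tht q ∧ tht q ≤ 1 := by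
  have hzR := A.sz.zR
  have hΛ : 1000 ≤ Real.log q := by
    have h3 := A.sz.toSz.z3
    have e1 : (z : ℝ) ≤ (z : ℝ) ^ 3 := le_self_pow₀ (by linarith) (by norm_num)
    linarith
  have h1 := inv_le_tht (q := q) (by linarith)
  have h0 := tht_pos q
  refine ⟨hΛ, ?_, ?_, h0, h1, ?_⟩
  · refine le_trans ?_ A.hbig2
    nlinarith [sq_nonneg (Real.log q)]
  · rw [div_le_iff₀ h0]
    rw [div_le_iff₀ (by linarith)] at h1
    linarith
  · unfold tht
    apply Real.exp_le_one_iff.2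
    have : 0 ≤ Real.log (Real.log q) := Real.log_nonneg (by linarith)
    linarith

theorem S2_mod_off (A : AllS q z W R0 Hc L ϱ C D κ η H)
    (χ₀ : DirichletCharacter ℂ q)
    (N : ℕ) (hN1 : 1 ≤ N) (hN2 : (N : ℝ) ≤ (q : ℝ) ^ (11 / 10 : ℝ)) :
    ‖∑ ψ : H, DK (χ₀ * (ψ : DirichletCharacter ℂ q)) N *
      ((‖Mfn z W R0 Hc (χ₀ * (ψ : DirichletCharacter ℂ q))‖ ^ 2 : ℝ) : ℂ) -
      (Fintype.card H : ℂ) * ((T1 W z R0 Hc N : ℝ) : ℂ)‖ ≤
      (Fintype.card H : ℝ) * ((262 * ϱ * C + 3) * tht q +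
        tht q * ((q : ℝ) ^ (1 / 4 : ℝ) / Real.sqrt (Real.sqrt N))) := by
  have h := A.sz
  obtain ⟨b1, b2, b3, b4, b5, b6⟩ := A.bigs
  have hqone : 1 < q := Nat.Prime.one_lt Fact.out
  have hqR1 : (1 : ℝ) < q := by exact_mod_cast hqone
  have hq0 : (0 : ℝ) < q := by linarith
  obtain ⟨s1, _⟩ := h.small
  have hHc1 : 1 ≤ Hc := by exact_mod_cast s1
  have hL1 : 1 ≤ L := hHc1.trans A.hHL
  have hLR : (1 : ℝ) ≤ L := by exact_mod_cast hL1
  have hN0 : (0 : ℝ) < N := by exact_mod_cast hN1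
  have hL4 := A.hL4
  have hL2 : (L : ℝ) * L ≤ (q : ℝ) ^ (1 / 10 : ℝ) := by
    have e1 : (L : ℝ) * L ≤ (L : ℝ) ^ 4 := by nlinarith [mul_nonneg (by linarith : (0:ℝ) ≤ L) (by linarith : (0:ℝ) ≤ (L:ℝ)), one_le_pow₀ (n := 2) hLR]
    nlinarith [pow_nonneg (by linarith : (0:ℝ) ≤ L) 4]
  have hLq : L < q := by
    have e1 : (L : ℝ) ≤ (L : ℝ) * L := by nlinarith
    have e2 : (L : ℝ) < q := by
      calc (L : ℝ) ≤ (q : ℝ) ^ (1 / 10 : ℝ) := e1.trans hL2
        _ < (q : ℝ) ^ (1 : ℝ) := Real.rpow_lt_rpow_of_exponent_lt hqR1 (by norm_num)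
        _ = q := Real.rpow_one _
    exact_mod_cast e2
  have hNq : N < q * q := by
    have e2 : (N : ℝ) < (q : ℝ) * q := by
      calc (N : ℝ) ≤ (q : ℝ) ^ (11 / 10 : ℝ) := hN2
        _ < (q : ℝ) ^ (2 : ℝ) := Real.rpow_lt_rpow_of_exponent_lt hqR1 (by norm_num)
        _ = q * q := by rw [Real.rpow_two, sq]
    exact_mod_cast e2
  have hX : ((N * (L * L) : ℕ) : ℝ) ≤ (q : ℝ) ^ (13 / 10 : ℝ) := by
    push_cast
    calc (N : ℝ) * (L * L) ≤ (q : ℝ) ^ (11 / 10 : ℝ) * (q : ℝ) ^ (1 / 10 : ℝ) :=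
          mul_le_mul hN2 hL2 (by positivity) (by positivity)
      _ = (q : ℝ) ^ (12 / 10 : ℝ) := by rw [← Real.rpow_add hq0]; norm_num
      _ ≤ _ := Real.rpow_le_rpow_of_exponent_le hqR1.le (by norm_num)
  have hX1 : (1 : ℝ) ≤ ((N * (L * L) : ℕ) : ℝ) := by
    exact_mod_cast Nat.mul_pos hN1 (Nat.mul_pos hL1 hL1)
  have hlX : Real.log ((N * (L * L) : ℕ) : ℝ) ≤ 2 * Real.log q := by
    calc Real.log ((N * (L * L) : ℕ) : ℝ) ≤ Real.log ((q : ℝ) ^ (13 / 10 : ℝ)) :=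
          Real.log_le_log (by linarith) hX
      _ = 13 / 10 * Real.log q := Real.log_rpow hq0 _
      _ ≤ _ := by linarith
  have hNlog : Real.log N ≤ 2 * Real.log q := by
    calc Real.log (N : ℝ) ≤ Real.log ((q : ℝ) ^ (11 / 10 : ℝ)) := Real.log_le_log hN0 hN2
      _ = 11 / 10 * Real.log q := Real.log_rpow hq0 _
      _ ≤ _ := by linarith
  refine (S2_off H χ₀ (IM W z (10 * R0) Hc) AM (cM' Hc) L N (fun i hi => ⟨AM_pos hi, A.hLA i hi⟩)
    hLq hNq).trans ?_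
  apply mul_le_mul_of_nonneg_left _ (Nat.cast_nonneg _)
  rw [← Finset.sum_filter_add_sum_filter_not ((KR q (ann H) (L * N)).erase (1, 1)) (fun w => w.1 * w.2 ≤ Hc)]
  have hlow := low_off A.sz3 A.hF (ann H) A.hK (L * N) N hN1 hNlog
  have hcardL : ((IM W z (10 * R0) Hc).card : ℝ) ≤ L := by exact_mod_cast A.hLc
  have hHLR : (Hc : ℝ) ≤ L := by exact_mod_cast A.hHL
  have hE : (Hc : ℝ) ^ 2 * (4 / Real.sqrt (Real.sqrt N) * ((IM W z (10 * R0) Hc).card : ℝ) ^ 2) ≤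
      tht q * ((q : ℝ) ^ (1 / 4 : ℝ) / Real.sqrt (Real.sqrt N)) := by
    have e0 : 0 < Real.sqrt (Real.sqrt (N : ℝ)) := Real.sqrt_pos.2 (Real.sqrt_pos.2 hN0)
    calc (Hc : ℝ) ^ 2 * (4 / Real.sqrt (Real.sqrt N) * ((IM W z (10 * R0) Hc).card : ℝ) ^ 2) ≤
        (L : ℝ) ^ 2 * (4 / Real.sqrt (Real.sqrt N) * (L : ℝ) ^ 2) := by
          apply mul_le_mul (pow_le_pow_left₀ (by positivity) hHLR 2) _ (by positivity) (by positivity)
          apply mul_le_mul_of_nonneg_left _ (by positivity)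
          exact pow_le_pow_left₀ (by positivity) hcardL 2
      _ = (4 * (L : ℝ) ^ 4) / Real.sqrt (Real.sqrt N) := by ring
      _ ≤ (tht q * (q : ℝ) ^ (1 / 4 : ℝ)) / Real.sqrt (Real.sqrt N) := by
          apply div_le_div_of_nonneg_right _ e0.le
          refine hL4.trans ?_
          calc (q : ℝ) ^ (1 / 10 : ℝ) ≤ (tht q * Real.log q) * (q : ℝ) ^ (1 / 10 : ℝ) := by
                apply le_mul_of_one_le_left (by positivity)
                rw [div_le_iff₀ b4] at b3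
                linarith
            _ = tht q * (Real.log q * (q : ℝ) ^ (1 / 10 : ℝ)) := by ring
            _ ≤ tht q * ((q : ℝ) ^ (1 / 100 : ℝ) * (q : ℝ) ^ (1 / 10 : ℝ)) := by
                apply mul_le_mul_of_nonneg_left _ b4.le
                apply mul_le_mul_of_nonneg_right _ (by positivity)
                linarith
            _ = tht q * (q : ℝ) ^ (11 / 100 : ℝ) := by rw [← Real.rpow_add hq0]; norm_num
            _ ≤ _ := by
                apply mul_le_mul_of_nonneg_left _ b4.le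
                exact Real.rpow_le_rpow_of_exponent_le hqR1.le (by norm_num)
      _ = _ := by ring
  have hhigh : ∑ w ∈ ((KR q (ann H) (L * N)).erase (1, 1)).filter (fun w => ¬ w.1 * w.2 ≤ Hc),
      |TN (IM W z (10 * R0) Hc) AM (cM' Hc) N w.1 w.2| ≤ tht q := by
    have hb : ∀ w ∈ ((KR q (ann H) (L * N)).erase (1, 1)).filter (fun w => ¬ w.1 * w.2 ≤ Hc),
        |TN (IM W z (10 * R0) Hc) AM (cM' Hc) N w.1 w.2| ≤
        (if (q : ℝ) ^ η ≤ (w.1 : ℝ) * w.2 ∧ (w.1 : ℝ) * w.2 ≤ (q : ℝ) ^ (13 / 10 : ℝ) then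
          ((q : ℝ) ^ κ / Real.log q) * (1 / Real.sqrt ((w.1 : ℝ) * w.2)) else 0) := by
      intro w hw
      rw [mem_filter, mem_erase, mem_KR] at hw
      obtain ⟨⟨_, ⟨a1, _⟩, ⟨a2, _⟩, a3, _⟩, a7⟩ := hw
      have h1 := TN_divisor (IM W z (10 * R0) Hc) AM (cM' Hc) L N (fun i hi => ⟨AM_pos hi, A.hLA i hi⟩)
        (fun i hi => cM_abs' hi) (AM_inj W z (10 * R0) Hc) D (fun n hn hn' =>
          A.hD n hn ((Nat.cast_le.2 hn').trans hX)) a1 a2 a3
      refine h1.trans ?_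
      split_ifs with c1 c2 c2
      · apply mul_le_mul_of_nonneg_right _ (by positivity)
        rw [le_div_iff₀ (by linarith)]
        refine le_trans ?_ A.hDκ2
        apply mul_le_mul_of_nonneg_right _ (by linarith)
        apply mul_le_mul_of_nonneg_left _ (by positivity)
        linarith
      · exfalso
        apply c2
        constructor
        · refine A.hη.trans ?_
          have : Hc ≤ w.1 * w.2 := by omega
          exact_mod_cast this
        · refine le_trans ?_ hX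
          exact_mod_cast c1
      · have : 0 ≤ Real.log q := by linarith
        positivity
      · exact le_rfl
    refine (Finset.sum_le_sum hb).trans ?_
    rw [← Finset.sum_filter, ← Finset.mul_sum]
    have hpos : 0 ≤ (q : ℝ) ^ κ / Real.log q := div_nonneg (by positivity) (by linarith)
    calc (q : ℝ) ^ κ / Real.log q *
          ∑ w ∈ (((KR q (ann H) (L * N)).erase (1, 1)).filter (fun w => ¬ w.1 * w.2 ≤ Hc)).filter
          (fun w => (q : ℝ) ^ η ≤ (w.1 : ℝ) * w.2 ∧ (w.1 : ℝ) * w.2 ≤ (q : ℝ) ^ (13 / 10 : ℝ)),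
            1 / Real.sqrt ((w.1 : ℝ) * w.2) ≤
        (q : ℝ) ^ κ / Real.log q * ∑ w ∈ (KR q (ann H) (L * N)).filter
          (fun w => (q : ℝ) ^ η ≤ (w.1 : ℝ) * w.2 ∧ (w.1 : ℝ) * w.2 ≤ (q : ℝ) ^ (13 / 10 : ℝ)),
            1 / Real.sqrt ((w.1 : ℝ) * w.2) := by
          apply mul_le_mul_of_nonneg_left _ hpos
          apply Finset.sum_le_sum_of_subset_of_nonneg
          · exact filter_subset_filter _ ((filter_subset _ _).trans (erase_subset _ _))
          · intro w _ _; positivity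
      _ ≤ (q : ℝ) ^ κ / Real.log q * (q : ℝ) ^ (-κ) := mul_le_mul_of_nonneg_left (A.hHigh _) hpos
      _ = ((q : ℝ) ^ κ * (q : ℝ) ^ (-κ)) / Real.log q := by ring
      _ = 1 / Real.log q := by rw [← Real.rpow_add hq0]; simp
      _ ≤ _ := b5
  linarith

theorem S2_all_off (A : AllS q z W R0 Hc L ϱ C D κ η H)
    (χ₀ : DirichletCharacter ℂ q) (N : ℕ) (hN1 : 1 ≤ N) :
    ‖∑ ψ : H, DK (χ₀ * (ψ : DirichletCharacter ℂ q)) N *
      ((‖Mfn z W R0 Hc (χ₀ * (ψ : DirichletCharacter ℂ q))‖ ^ 2 : ℝ) : ℂ) -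
      (Fintype.card H : ℂ) * ((T1 W z R0 Hc N : ℝ) : ℂ)‖ +
      ‖DK (1 : DirichletCharacter ℂ q) N‖ * ‖Mfn z W R0 Hc (1 : DirichletCharacter ℂ q)‖ ^ 2 ≤
      (Fintype.card H : ℝ) * (((262 * ϱ * C + 4) * tht q) * (1 + ((N : ℝ) / q) ^ 13 +
        (q : ℝ) ^ (1 / 4 : ℝ) / Real.sqrt (Real.sqrt N))) := by
  have h := A.sz
  obtain ⟨b1, b2, b3, b4, b5, b6⟩ := A.bigs
  have hqone : 1 < q := Nat.Prime.one_lt Fact.out
  have hqR1 : (1 : ℝ) < q := by exact_mod_cast hqone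
  have hq0 : (0 : ℝ) < q := by linarith
  obtain ⟨s1, _⟩ := h.small
  have hHc1 : 1 ≤ Hc := by exact_mod_cast s1
  have hL1 : 1 ≤ L := hHc1.trans A.hHL
  have hLR : (1 : ℝ) ≤ L := by exact_mod_cast hL1
  have hN0 : (0 : ℝ) < N := by exact_mod_cast hN1
  have hC := h.hC
  have hϱ0 := h.hϱ0
  have hϱC : 1 ≤ ϱ * C := by nlinarith
  have hH := A.hH
  have hHpos : (0 : ℝ) < (Fintype.card H : ℝ) := lt_of_lt_of_le (by positivity) hH
  have hH1 : (1 : ℝ) ≤ (Fintype.card H : ℝ) := le_trans (Real.one_le_rpow hqR1.le (by norm_num)) hH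
  have hcardL : ((IM W z (10 * R0) Hc).card : ℝ) ≤ L := by exact_mod_cast A.hLc
  have hMn : ∀ χ : DirichletCharacter ℂ q, ‖Mfn z W R0 Hc χ‖ ^ 2 ≤ (L : ℝ) ^ 2 := by
    intro χ
    apply pow_le_pow_left₀ (norm_nonneg _)
    exact (Mof_norm _ _ _ (fun i hi => cM_abs' hi) χ).trans hcardL
  have e0 : 0 < Real.sqrt (Real.sqrt (N : ℝ)) := Real.sqrt_pos.2 (Real.sqrt_pos.2 hN0)
  have hq4 : 0 ≤ (q : ℝ) ^ (1 / 4 : ℝ) / Real.sqrt (Real.sqrt N) := by positivity
  have ht13 : 0 ≤ ((N : ℝ) / q) ^ 13 := by positivity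
  have hL4 := A.hL4
  have hL2sq : (L : ℝ) ^ 2 ≤ (q : ℝ) ^ (1 / 20 : ℝ) := by
    have e1 : ((L : ℝ) ^ 2) ^ 2 ≤ ((q : ℝ) ^ (1 / 20 : ℝ)) ^ 2 := by
      have e2 : ((q : ℝ) ^ (1 / 20 : ℝ)) ^ 2 = (q : ℝ) ^ (1 / 10 : ℝ) := by
        rw [← Real.rpow_natCast, ← Real.rpow_mul hq0.le]; norm_num
      rw [e2]
      refine le_trans ?_ hL4
      nlinarith [pow_nonneg (by linarith : (0:ℝ) ≤ L) 4]
    exact le_of_pow_le_pow_left₀ (by norm_num) (by positivity) e1
  have hthΛ : 1 ≤ tht q * Real.log q := by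
    rw [div_le_iff₀ b4] at b3
    linarith
  rcases le_or_gt (N : ℝ) ((q : ℝ) ^ (11 / 10 : ℝ)) with hN2 | hN2
  · have h1 := S2_mod_off A χ₀ N hN1 hN2
    have h2 : ‖DK (1 : DirichletCharacter ℂ q) N‖ *
        ‖Mfn z W R0 Hc (1 : DirichletCharacter ℂ q)‖ ^ 2 ≤ (Fintype.card H : ℝ) * tht q := by
      have e1 := DK_norm (1 : DirichletCharacter ℂ q) N
      have e2 : Real.sqrt N ≤ (q : ℝ) ^ (55 / 100 : ℝ) := by
        rw [Real.sqrt_le_left (by positivity)]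
        have : ((q : ℝ) ^ (55 / 100 : ℝ)) ^ 2 = (q : ℝ) ^ (11 / 10 : ℝ) := by
          rw [← Real.rpow_natCast, ← Real.rpow_mul hq0.le]; norm_num
        rw [this]; exact hN2
      have e3 : Real.log N ≤ 2 * Real.log q := by
        calc Real.log (N : ℝ) ≤ Real.log ((q : ℝ) ^ (11 / 10 : ℝ)) := Real.log_le_log hN0 hN2
          _ = 11 / 10 * Real.log q := Real.log_rpow hq0 _
          _ ≤ _ := by linarith
      have hlN : 0 ≤ Real.log N := Real.log_nonneg (by exact_mod_cast hN1)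
      have e4 : 2 * Real.sqrt N * (1 + Real.log N) ≤ (q : ℝ) ^ (55 / 100 : ℝ) * (q : ℝ) ^ (1 / 100 : ℝ) := by
        calc 2 * Real.sqrt N * (1 + Real.log N) = Real.sqrt N * (2 * (1 + Real.log N)) := by ring
          _ ≤ _ := by
              apply mul_le_mul e2 _ (by linarith) (by positivity)
              have := A.hbig
              linarith
      calc _ ≤ ((q : ℝ) ^ (55 / 100 : ℝ) * (q : ℝ) ^ (1 / 100 : ℝ)) * (q : ℝ) ^ (1 / 20 : ℝ) :=
            mul_le_mul (e1.trans e4) ((hMn 1).trans hL2sq) (by positivity) (by positivity)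
        _ = (q : ℝ) ^ (61 / 100 : ℝ) := by rw [← Real.rpow_add hq0, ← Real.rpow_add hq0]; norm_num
        _ ≤ (q : ℝ) ^ (61 / 100 : ℝ) * (tht q * Real.log q) := le_mul_of_one_le_right (by positivity) hthΛ
        _ = ((q : ℝ) ^ (61 / 100 : ℝ) * Real.log q) * tht q := by ring
        _ ≤ ((q : ℝ) ^ (61 / 100 : ℝ) * (q : ℝ) ^ (1 / 100 : ℝ)) * tht q := by
            apply mul_le_mul_of_nonneg_right _ b4.le
            apply mul_le_mul_of_nonneg_left _ (by positivity)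
            linarith
        _ = (q : ℝ) ^ (62 / 100 : ℝ) * tht q := by rw [← Real.rpow_add hq0]; norm_num
        _ ≤ _ := by
            apply mul_le_mul_of_nonneg_right _ b4.le
            exact (Real.rpow_le_rpow_of_exponent_le hqR1.le (by norm_num)).trans hH
    calc _ ≤ (Fintype.card H : ℝ) * ((262 * ϱ * C + 3) * tht q +
        tht q * ((q : ℝ) ^ (1 / 4 : ℝ) / Real.sqrt (Real.sqrt N))) +
          (Fintype.card H : ℝ) * tht q := add_le_add h1 h2
      _ = (Fintype.card H : ℝ) * (tht q * (262 * ϱ * C + 4 +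
          (q : ℝ) ^ (1 / 4 : ℝ) / Real.sqrt (Real.sqrt N))) := by ring
      _ ≤ (Fintype.card H : ℝ) * (tht q * ((262 * ϱ * C + 4) * (1 + ((N : ℝ) / q) ^ 13 +
        (q : ℝ) ^ (1 / 4 : ℝ) / Real.sqrt (Real.sqrt N)))) := by
          apply mul_le_mul_of_nonneg_left _ hHpos.le
          apply mul_le_mul_of_nonneg_left _ b4.le
          have h5 : 1 ≤ 262 * ϱ * C + 4 := by linarith
          have h6 : 0 ≤ (262 * ϱ * C + 4) * ((N : ℝ) / q) ^ 13 := mul_nonneg (by linarith) ht13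
          have h7 : (q : ℝ) ^ (1 / 4 : ℝ) / Real.sqrt (Real.sqrt N) ≤
            (262 * ϱ * C + 4) * ((q : ℝ) ^ (1 / 4 : ℝ) / Real.sqrt (Real.sqrt N)) :=
            le_mul_of_one_le_left hq4 h5
          rw [mul_add, mul_add, mul_one]
          linarith
      _ = _ := by ring
  · have hb : ∀ χ : DirichletCharacter ℂ q, ‖DK χ N‖ *
        ‖Mfn z W R0 Hc χ‖ ^ 2 ≤ 4 * N * (q : ℝ) ^ (1 / 20 : ℝ) := fun χ =>
      mul_le_mul (DK_norm' χ N) ((hMn χ).trans hL2sq) (by positivity) (by positivity)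
    have hX0 : 0 ≤ 4 * (N : ℝ) * (q : ℝ) ^ (1 / 20 : ℝ) := by positivity
    have h1 : ‖∑ ψ : H, DK (χ₀ * (ψ : DirichletCharacter ℂ q)) N *
      ((‖Mfn z W R0 Hc (χ₀ * (ψ : DirichletCharacter ℂ q))‖ ^ 2 : ℝ) : ℂ)‖ ≤
        (Fintype.card H : ℝ) * (4 * N * (q : ℝ) ^ (1 / 20 : ℝ)) := by
      refine (norm_sum_le _ _).trans ?_
      refine (Finset.sum_le_card_nsmul univ _ (4 * N * (q : ℝ) ^ (1 / 20 : ℝ)) (fun ψ _ => ?_)).trans
        (by rw [nsmul_eq_mul, card_univ])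
      rw [norm_mul, Complex.norm_real, Real.norm_of_nonneg (by positivity)]
      exact hb _
    have h1' : ‖(Fintype.card H : ℂ) * ((T1 W z R0 Hc N : ℝ) : ℂ)‖ ≤
        (Fintype.card H : ℝ) * (4 * N * (q : ℝ) ^ (1 / 20 : ℝ)) := by
      rw [norm_mul, Complex.norm_natCast, Complex.norm_real, Real.norm_eq_abs]
      apply mul_le_mul_of_nonneg_left _ hHpos.le
      refine (TN11_bound (IM W z (10 * R0) Hc) AM (cM' Hc) (fun i hi => cM_abs' hi) N).trans ?_
      calc ((IM W z (10 * R0) Hc).card : ℝ) ^ 2 * (4 * N) ≤ (L : ℝ) ^ 2 * (4 * N) := by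
            apply mul_le_mul_of_nonneg_right _ (by positivity)
            exact pow_le_pow_left₀ (by positivity) hcardL 2
        _ ≤ (q : ℝ) ^ (1 / 20 : ℝ) * (4 * N) := mul_le_mul_of_nonneg_right hL2sq (by positivity)
        _ = _ := by ring
    have h2 := hb 1
    have h3 : 12 * (N : ℝ) * (q : ℝ) ^ (1 / 20 : ℝ) ≤ tht q * ((N : ℝ) / q) ^ 13 := by
      have t1 : (q : ℝ) ^ (1 / 10 : ℝ) ≤ (N : ℝ) / q := by
        rw [le_div_iff₀ hq0]
        nth_rw 2 [← Real.rpow_one (q : ℝ)]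
        rw [← Real.rpow_add hq0]
        norm_num
        exact hN2.le
      have t2 : (q : ℝ) ^ (12 / 10 : ℝ) ≤ ((N : ℝ) / q) ^ 12 := by
        calc (q : ℝ) ^ (12 / 10 : ℝ) = ((q : ℝ) ^ (1 / 10 : ℝ)) ^ 12 := by
              rw [← Real.rpow_natCast, ← Real.rpow_mul hq0.le]; norm_num
          _ ≤ _ := pow_le_pow_left₀ (by positivity) t1 12
      have t3 : 12 * Real.log q ≤ (q : ℝ) ^ (15 / 100 : ℝ) := by
        calc 12 * Real.log q ≤ (q : ℝ) ^ (1 / 100 : ℝ) := by linarith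
          _ ≤ _ := Real.rpow_le_rpow_of_exponent_le hqR1.le (by norm_num)
      calc 12 * (N : ℝ) * (q : ℝ) ^ (1 / 20 : ℝ) ≤
            12 * (N : ℝ) * (q : ℝ) ^ (1 / 20 : ℝ) * (tht q * Real.log q) :=
              le_mul_of_one_le_right (by positivity) hthΛ
        _ = tht q * ((12 * Real.log q * q * (q : ℝ) ^ (1 / 20 : ℝ)) * ((N : ℝ) / q)) := by
            field_simp
        _ ≤ tht q * (((q : ℝ) ^ (15 / 100 : ℝ) * q * (q : ℝ) ^ (1 / 20 : ℝ)) * ((N : ℝ) / q)) := by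
            apply mul_le_mul_of_nonneg_left _ b4.le
            apply mul_le_mul_of_nonneg_right _ (by positivity)
            apply mul_le_mul_of_nonneg_right _ (by positivity)
            exact mul_le_mul_of_nonneg_right t3 hq0.le
        _ = tht q * ((q : ℝ) ^ (12 / 10 : ℝ) * ((N : ℝ) / q)) := by
            congr 2
            nth_rw 2 [← Real.rpow_one (q : ℝ)]
            rw [← Real.rpow_add hq0, ← Real.rpow_add hq0]
            norm_num
        _ ≤ tht q * (((N : ℝ) / q) ^ 12 * ((N : ℝ) / q)) := by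
            apply mul_le_mul_of_nonneg_left _ b4.le
            exact mul_le_mul_of_nonneg_right t2 (by positivity)
        _ = _ := by ring
    calc _ ≤ ((Fintype.card H : ℝ) * (4 * N * (q : ℝ) ^ (1 / 20 : ℝ)) +
          (Fintype.card H : ℝ) * (4 * N * (q : ℝ) ^ (1 / 20 : ℝ))) + 4 * N * (q : ℝ) ^ (1 / 20 : ℝ) :=
          add_le_add ((norm_sub_le _ _).trans (add_le_add h1 h1')) h2
      _ ≤ (Fintype.card H : ℝ) * (12 * N * (q : ℝ) ^ (1 / 20 : ℝ)) := by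
          have hx := le_mul_of_one_le_left hX0 hH1
          have hy : (Fintype.card H : ℝ) * (12 * N * (q : ℝ) ^ (1 / 20 : ℝ)) =
            (Fintype.card H : ℝ) * (4 * N * (q : ℝ) ^ (1 / 20 : ℝ)) +
            (Fintype.card H : ℝ) * (4 * N * (q : ℝ) ^ (1 / 20 : ℝ)) +
            (Fintype.card H : ℝ) * (4 * N * (q : ℝ) ^ (1 / 20 : ℝ)) := by ring
          rw [hy]
          exact add_le_add_right hx _
      _ ≤ (Fintype.card H : ℝ) * (tht q * ((N : ℝ) / q) ^ 13) := mul_le_mul_of_nonneg_left h3 hHpos.le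
      _ ≤ _ := by
          apply mul_le_mul_of_nonneg_left _ hHpos.le
          have h5 : 1 ≤ 262 * ϱ * C + 4 := by linarith
          calc tht q * ((N : ℝ) / q) ^ 13 ≤ tht q * (1 + ((N : ℝ) / q) ^ 13 +
                (q : ℝ) ^ (1 / 4 : ℝ) / Real.sqrt (Real.sqrt N)) := by
                apply mul_le_mul_of_nonneg_left _ b4.le
                linarith
            _ ≤ ((262 * ϱ * C + 4) * tht q) * (1 + ((N : ℝ) / q) ^ 13 +
                (q : ℝ) ^ (1 / 4 : ℝ) / Real.sqrt (Real.sqrt N)) := by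
                apply mul_le_mul_of_nonneg_right _ (by linarith)
                exact le_mul_of_one_le_left b4.le h5

end

end Pool.Agent.V8H32.NW
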