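import Pool.Agent.V8H32.NW.O4

/-! The asymptotic formula for the mollified second moment over a coset. -/

set_option autoImplicit false

namespace Pool.Agent.V8H32.NW
open Finset Pool.Agent.R311.RES MeasureTheory Pool.Agent.V8H32.NV
open Pool.Agent.V8H32.Cos (pr cls)
open scoped Classical

lemma T1_zero (W z R0 Hc : ℕ) : T1 W z R0 Hc 0 = 0 := by
  have h := TN11_bound (IM W z (10 * R0) Hc) AM (cM' Hc) (fun i hi => cM_abs' hi) 0
  rw [Nat.cast_zero, mul_zero, mul_zero] at h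
  exact abs_eq_zero.1 (le_antisymm h (abs_nonneg _))

section
variable {q z W R0 Hc L : ℕ} [Fact q.Prime] {ϱ C D κ η : ℝ} {H : Subgroup (DirichletCharacter ℂ q)}

/-- the density of the main term -/
noncomputable def GM (q W z R0 Hc a : ℕ) [Fact q.Prime] (p : ℝ × ℝ) : ℝ := wt a p.1 * wt a p.2 *
  (T1 W z R0 Hc (K1 q (p.1 + p.2)) + T1 W z R0 Hc (K2 q (p.1 + p.2)))

/-- the main term -/
noncomputable def Bq (q W z R0 Hc a : ℕ) [Fact q.Prime] : ℝ := ∫ p, GM q W z R0 Hc a p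

lemma GM_int (q W z R0 Hc a : ℕ) [Fact q.Prime] : Integrable (GM q W z R0 Hc a) := by
  have hq : 0 < q := Nat.Prime.pos Fact.out
  have hq' : (0 : ℝ) < q := by exact_mod_cast hq
  have hk : 1 / 4 ≤ kap a := by
    unfold kap
    have : (0 : ℝ) ≤ a := Nat.cast_nonneg a
    linarith
  set X := ((IM W z (10 * R0) Hc).card : ℝ) ^ 2 with hX
  have hX0 : 0 ≤ X := by positivity
  have h1 := (int_wt2 a (β := 1 / 2) (by linarith)).const_mul (X * (8 * q))
  have hmeas : Measurable (GM q W z R0 Hc a) := by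
    have hwt : Measurable (wt a) := by unfold wt; fun_prop
    have hNN : Measurable (fun z : ℝ => NN q z) := by unfold NN; fun_prop
    have hsum : Measurable (fun p : ℝ × ℝ => p.1 + p.2) := measurable_fst.add measurable_snd
    have hK1 : Measurable (fun z : ℝ => K1 q z) := by
      unfold K1
      exact (measurable_from_nat (f := fun n : ℕ => n - 1)).comp (Nat.measurable_ceil.comp hNN)
    have hK2 : Measurable (fun z : ℝ => K2 q z) := by
      unfold K2
      exact Nat.measurable_floor.comp hNN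
    unfold GM
    apply Measurable.mul
    · exact (hwt.comp measurable_fst).mul (hwt.comp measurable_snd)
    · apply Measurable.add
      · exact (measurable_from_nat (f := fun n : ℕ => T1 W z R0 Hc n)).comp (hK1.comp hsum)
      · exact (measurable_from_nat (f := fun n : ℕ => T1 W z R0 Hc n)).comp (hK2.comp hsum)
  refine h1.mono' hmeas.aestronglyMeasurable (Filter.Eventually.of_forall fun p => ?_)
  unfold GM
  rw [norm_mul, Real.norm_of_nonneg (mul_nonneg (wt_nonneg a _) (wt_nonneg a _)), Real.norm_eq_abs]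
  obtain ⟨k1, k2⟩ := K_le_NN (q := q) (p.1 + p.2)
  have h2 : |T1 W z R0 Hc (K1 q (p.1 + p.2)) + T1 W z R0 Hc (K2 q (p.1 + p.2))| ≤
      X * (8 * NN q (p.1 + p.2)) := by
    refine (abs_add_le _ _).trans ?_
    have e1 := TN11_bound (IM W z (10 * R0) Hc) AM (cM' Hc) (fun i hi => cM_abs' hi) (K1 q (p.1 + p.2))
    have e2 := TN11_bound (IM W z (10 * R0) Hc) AM (cM' Hc) (fun i hi => cM_abs' hi) (K2 q (p.1 + p.2))
    have e3 : X * (4 * (K1 q (p.1 + p.2) : ℝ)) ≤ X * (4 * NN q (p.1 + p.2)) := by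
      apply mul_le_mul_of_nonneg_left _ hX0; linarith
    have e4 : X * (4 * (K2 q (p.1 + p.2) : ℝ)) ≤ X * (4 * NN q (p.1 + p.2)) := by
      apply mul_le_mul_of_nonneg_left _ hX0; linarith
    calc _ ≤ X * (4 * (K1 q (p.1 + p.2) : ℝ)) + X * (4 * (K2 q (p.1 + p.2) : ℝ)) := add_le_add e1 e2
      _ ≤ X * (4 * NN q (p.1 + p.2)) + X * (4 * NN q (p.1 + p.2)) := add_le_add e3 e4
      _ = _ := by ring
  have h3 : NN q (p.1 + p.2) ≤ q * Real.exp (1 / 2 * (p.1 + p.2)) := by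
    unfold NN
    have : (q : ℝ) / Real.pi ≤ q := div_le_self hq'.le (by have := Real.pi_gt_three; linarith)
    calc (q : ℝ) / Real.pi * Real.exp ((p.1 + p.2) / 2) ≤ q * Real.exp ((p.1 + p.2) / 2) :=
          mul_le_mul_of_nonneg_right this (Real.exp_pos _).le
      _ = _ := by congr 2; ring
  calc wt a p.1 * wt a p.2 * |T1 W z R0 Hc (K1 q (p.1 + p.2)) + T1 W z R0 Hc (K2 q (p.1 + p.2))| ≤
      wt a p.1 * wt a p.2 * (X * (8 * (q * Real.exp (1 / 2 * (p.1 + p.2))))) := by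
        apply mul_le_mul_of_nonneg_left _ (mul_nonneg (wt_nonneg a _) (wt_nonneg a _))
        refine h2.trans ?_
        apply mul_le_mul_of_nonneg_left _ hX0
        linarith
    _ = _ := by ring

/-- the second moment -/
theorem S2_eq (A : AllS q z W R0 Hc L ϱ C D κ η H) (χ₀ : DirichletCharacter ℂ q) {a : ℕ} (ha : a ≤ 1)
    (hpar : ∀ ψ : H, (χ₀ * (ψ : DirichletCharacter ℂ q)) (-1) = (-1) ^ a) :
    |Real.Gamma (kap a) ^ 2 * ∑ ψ ∈ univ.filter (fun ψ : H => χ₀ * (ψ : DirichletCharacter ℂ q) ≠ 1),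
      ‖DirichletCharacter.LFunction (χ₀ * (ψ : DirichletCharacter ℂ q)) (1 / 2)‖ ^ 2 *
        ‖Mfn z W R0 Hc (χ₀ * (ψ : DirichletCharacter ℂ q))‖ ^ 2 -
      (Fintype.card H : ℝ) * Bq q W z R0 Hc a| ≤
      (Fintype.card H : ℝ) * ((262 * ϱ * C + 4) * tht q) * (2 * ∫ p, mj a p) := by
  set S := univ.filter (fun ψ : H => χ₀ * (ψ : DirichletCharacter ℂ q) ≠ 1) with hS
  set X : H → DirichletCharacter ℂ q := fun ψ => χ₀ * (ψ : DirichletCharacter ℂ q) with hX
  set V : H → ℝ := fun ψ => ‖Mfn z W R0 Hc (X ψ)‖ ^ 2 with hV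
  obtain ⟨b1, b2, b3, b4, b5, b6⟩ := A.bigs
  have hC := A.sz.hC
  have hϱ0 := A.sz.hϱ0
  have hϱC : 1 ≤ ϱ * C := by nlinarith
  set B := (262 * ϱ * C + 4) * tht q with hB
  have hB0 : 0 ≤ B := by
    rw [hB]
    exact mul_nonneg (by linarith) b4.le
  have hH0 : (0 : ℝ) ≤ (Fintype.card H : ℝ) := Nat.cast_nonneg _
  set F : ℝ × ℝ → ℂ := fun p => ∑ ψ ∈ S, ((V ψ : ℝ) : ℂ) * HH (X ψ) a p with hF
  have hFint : Integrable F := integrable_finsetSum _ (fun ψ _ => (HH_int (X ψ) a).const_mul _)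
  have hGint : Integrable (fun p => (Fintype.card H : ℂ) * ((GM q W z R0 Hc a p : ℝ) : ℂ)) :=
    ((GM_int q W z R0 Hc a).ofReal).const_mul _
  have e1 : Real.Gamma (kap a) ^ 2 * ∑ ψ ∈ S, ‖DirichletCharacter.LFunction (X ψ) (1 / 2)‖ ^ 2 * V ψ =
      (∫ p : ℝ × ℝ, F p).re := by
    rw [hF, integral_finsetSum _ (fun ψ _ => (HH_int (X ψ) a).const_mul _), Complex.re_sum,
      Finset.mul_sum]
    apply Finset.sum_congr rfl
    intro ψ hψ
    rw [hS, mem_filter] at hψ
    rw [integral_const_mul, Complex.re_ofReal_mul, ← sq_eq hψ.2 ha (hpar ψ)]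
    ring
  have e3 : ∫ p : ℝ × ℝ, (Fintype.card H : ℂ) * ((GM q W z R0 Hc a p : ℝ) : ℂ) =
      (((Fintype.card H : ℝ) * Bq q W z R0 Hc a : ℝ) : ℂ) := by
    rw [integral_const_mul, integral_complex_ofReal]
    unfold Bq
    push_cast
    rfl
  have e4 : (∫ p : ℝ × ℝ, F p).re - (Fintype.card H : ℝ) * Bq q W z R0 Hc a =
      (∫ p : ℝ × ℝ, (F p - (Fintype.card H : ℂ) * ((GM q W z R0 Hc a p : ℝ) : ℂ))).re := by
    rw [integral_sub hFint hGint, e3, Complex.sub_re, Complex.ofReal_re]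
  have e2 : |(∫ p : ℝ × ℝ, (F p - (Fintype.card H : ℂ) * ((GM q W z R0 Hc a p : ℝ) : ℂ))).re| ≤
      ∫ p : ℝ × ℝ, (Fintype.card H : ℝ) * B * 2 * mj a p := by
    refine (Complex.abs_re_le_norm _).trans ?_
    refine norm_integral_le_of_norm_le ((mj_int a).const_mul _) (Filter.Eventually.of_forall fun p => ?_)
    set t := p.1 + p.2 with ht
    have f1 : F p - (Fintype.card H : ℂ) * ((GM q W z R0 Hc a p : ℝ) : ℂ) =
        ((wt a p.1 * wt a p.2 : ℝ) : ℂ) *
        ((∑ ψ ∈ S, DK (X ψ) (K1 q t) * ((V ψ : ℝ) : ℂ) -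
            (Fintype.card H : ℂ) * ((T1 W z R0 Hc (K1 q t) : ℝ) : ℂ)) +
          (∑ ψ ∈ S, DK (X ψ) (K2 q t) * ((V ψ : ℝ) : ℂ) -
            (Fintype.card H : ℂ) * ((T1 W z R0 Hc (K2 q t) : ℝ) : ℂ))) := by
      have g1 : F p = ((wt a p.1 * wt a p.2 : ℝ) : ℂ) *
        (∑ ψ ∈ S, DK (X ψ) (K1 q t) * ((V ψ : ℝ) : ℂ) + ∑ ψ ∈ S, DK (X ψ) (K2 q t) * ((V ψ : ℝ) : ℂ)) := by
        rw [hF]
        simp only
        rw [← Finset.sum_add_distrib, Finset.mul_sum]
        apply Finset.sum_congr rfl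
        intro ψ _
        rw [HH_eq]
        ring
      rw [g1]
      unfold GM
      push_cast
      ring
    rw [f1, norm_mul, Complex.norm_real, Real.norm_of_nonneg (mul_nonneg (wt_nonneg a _) (wt_nonneg a _))]
    have f2 : ∀ N : ℕ, (N : ℝ) ≤ NN q t → NN q t ≤ N + 1 →
        ‖∑ ψ ∈ S, DK (X ψ) N * ((V ψ : ℝ) : ℂ) - (Fintype.card H : ℂ) * ((T1 W z R0 Hc N : ℝ) : ℂ)‖ ≤
          (Fintype.card H : ℝ) * (B *
          (1 + Real.exp (13 / 2 * t) + 2 * Real.exp (-(1 / 8) * t))) := by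
      intro N hN1 hN2
      rcases Nat.eq_zero_or_pos N with h0 | h0
      · rw [h0, T1_zero]
        simp only [DK_zero, zero_mul, Finset.sum_const_zero, Complex.ofReal_zero, mul_zero, sub_zero,
          norm_zero]
        positivity
      · have g1 := S2_all_off A χ₀ N h0
        have g2 : ‖∑ ψ ∈ S, DK (X ψ) N * ((V ψ : ℝ) : ℂ) -
              (Fintype.card H : ℂ) * ((T1 W z R0 Hc N : ℝ) : ℂ)‖ ≤
            ‖∑ ψ : H, DK (X ψ) N * ((V ψ : ℝ) : ℂ) -
              (Fintype.card H : ℂ) * ((T1 W z R0 Hc N : ℝ) : ℂ)‖ +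
              ‖DK (1 : DirichletCharacter ℂ q) N‖ * ‖Mfn z W R0 Hc (1 : DirichletCharacter ℂ q)‖ ^ 2 := by
          have g3 : ∑ ψ ∈ S, DK (X ψ) N * ((V ψ : ℝ) : ℂ) -
              (Fintype.card H : ℂ) * ((T1 W z R0 Hc N : ℝ) : ℂ) =
              (∑ ψ : H, DK (X ψ) N * ((V ψ : ℝ) : ℂ) -
              (Fintype.card H : ℂ) * ((T1 W z R0 Hc N : ℝ) : ℂ)) -
              ∑ ψ ∈ univ.filter (fun ψ : H => ¬ (χ₀ * (ψ : DirichletCharacter ℂ q) ≠ 1)),
                DK (X ψ) N * ((V ψ : ℝ) : ℂ) := by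
            rw [← Finset.sum_filter_add_sum_filter_not univ
              (fun ψ : H => χ₀ * (ψ : DirichletCharacter ℂ q) ≠ 1)]
            ring
          rw [g3]
          refine (norm_sub_le _ _).trans (add_le_add_right ?_ _)
          refine (norm_sum_le _ _).trans ?_
          have g4 : ∀ ψ ∈ univ.filter (fun ψ : H => ¬ (χ₀ * (ψ : DirichletCharacter ℂ q) ≠ 1)),
              ‖DK (X ψ) N * ((V ψ : ℝ) : ℂ)‖ ≤ ‖DK (1 : DirichletCharacter ℂ q) N‖ *
                ‖Mfn z W R0 Hc (1 : DirichletCharacter ℂ q)‖ ^ 2 := by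
            intro ψ hψ
            rw [mem_filter, not_not] at hψ
            have g5 : X ψ = 1 := hψ.2
            rw [norm_mul, Complex.norm_real, hV]
            simp only
            rw [g5, Real.norm_of_nonneg (by positivity)]
          refine (Finset.sum_le_card_nsmul _ _ _ g4).trans ?_
          rw [nsmul_eq_mul]
          apply mul_le_of_le_one_left (by positivity)
          have g6 : (univ.filter (fun ψ : H => ¬ (χ₀ * (ψ : DirichletCharacter ℂ q) ≠ 1))).card ≤ 1 := by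
            rw [card_le_one]
            intro ψ hψ ψ' hψ'
            rw [mem_filter, not_not] at hψ hψ'
            apply Subtype.ext
            exact mul_left_cancel (hψ.2.trans hψ'.2.symm)
          exact_mod_cast g6
        refine g2.trans (g1.trans ?_)
        apply mul_le_mul_of_nonneg_left _ hH0
        exact mul_le_mul_of_nonneg_left (len_bound h0 hN1 hN2) hB0
    obtain ⟨k1, k2⟩ := K_le_NN (q := q) t
    obtain ⟨k3, k4⟩ := K_ge (q := q) t
    have f3 := f2 _ k1 k3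
    have f4 := f2 _ k2 k4
    calc wt a p.1 * wt a p.2 * _ ≤ wt a p.1 * wt a p.2 * ((Fintype.card H : ℝ) * (B *
          (1 + Real.exp (13 / 2 * t) + 2 * Real.exp (-(1 / 8) * t))) + (Fintype.card H : ℝ) * (B *
          (1 + Real.exp (13 / 2 * t) + 2 * Real.exp (-(1 / 8) * t)))) := by
          apply mul_le_mul_of_nonneg_left _ (mul_nonneg (wt_nonneg a _) (wt_nonneg a _))
          exact (norm_add_le _ _).trans (add_le_add f3 f4)
      _ = _ := by unfold mj; rw [← ht]; ring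
  rw [e1, e4]
  refine e2.trans (le_of_eq ?_)
  rw [integral_const_mul]
  ring

end

end Pool.Agent.V8H32.NW
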