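import Pool.Agent.V8H32.NV.Fst
import Pool.Agent.V8H32.NW.O4

/-! The asymptotic formula for the mollified first moment over a coset. -/

set_option autoImplicit false

namespace Pool.Agent.V8H32.NW
open Finset Pool.Agent.R311.RES Pool.Agent.V8H32.NV
open Pool.Agent.V8H32.Cos (pr cls tr tr_coset tr_shift tr_finset_sum vl vl_pos vl_lt vl_un un_vl
  sum_sign un_mul' un_one')
open scoped Classical

section
variable {q : ℕ} [Fact q.Prime]

theorem first_eq {z W R0 Hc L : ℕ} {ϱ C D κ η : ℝ} {H : Subgroup (DirichletCharacter ℂ q)}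
    (A : AllS q z W R0 Hc L ϱ C D κ η H) (χ₀ : DirichletCharacter ℂ q) :
    ‖∑ ψ ∈ univ.filter (fun ψ : H => χ₀ * (ψ : DirichletCharacter ℂ q) ≠ 1),
      DirichletCharacter.LFunction (χ₀ * (ψ : DirichletCharacter ℂ q)) (1 / 2) *
        Mfn z W R0 Hc (χ₀ * (ψ : DirichletCharacter ℂ q)) - (Fintype.card H : ℂ)‖ ≤
    (Fintype.card H : ℝ) * (5 * tht q) := by
  obtain ⟨b1, b2, b3, b4, b5, b6⟩ := A.bigs
  have hqone : 1 < q := Nat.Prime.one_lt Fact.out
  have hqR1 : (1 : ℝ) < q := by exact_mod_cast hqone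
  have hq0 : (0 : ℝ) < q := by linarith
  have hsz := A.sz
  obtain ⟨s1, _⟩ := hsz.small
  have hHc1 : 1 ≤ Hc := by exact_mod_cast s1
  have hL1 : 1 ≤ L := hHc1.trans A.hHL
  have hLR : (1 : ℝ) ≤ L := by exact_mod_cast hL1
  have hΛ1 := hsz.toSz.L1
  have hzR := hsz.zR
  have hHpos : (0 : ℝ) < (Fintype.card H : ℝ) := lt_of_lt_of_le (by positivity) A.hH
  have h4L : 4 * (L : ℝ) ≤ (q : ℝ) ^ (1 / 10 : ℝ) := by
    have e1 : (L : ℝ) ≤ (L : ℝ) ^ 4 := le_self_pow₀ hLR (by norm_num)
    linarith [A.hL4]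
  have hLq : L < q := by
    have e2 : (L : ℝ) < q := by
      calc (L : ℝ) ≤ (q : ℝ) ^ (1 / 10 : ℝ) := by linarith
        _ < (q : ℝ) ^ (1 : ℝ) := Real.rpow_lt_rpow_of_exponent_lt hqR1 (by norm_num)
        _ = q := Real.rpow_one _
    exact_mod_cast e2
  -- a small quantity
  have hsmall : (q : ℝ) ^ (-(1 / 15 : ℝ)) ≤ tht q := by
    refine le_trans ?_ b5
    have e1 : Real.log q ≤ (q : ℝ) ^ (1 / 15 : ℝ) := by
      calc Real.log q ≤ (q : ℝ) ^ (1 / 100 : ℝ) := by linarith
        _ ≤ _ := Real.rpow_le_rpow_of_exponent_le hqR1.le (by norm_num)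
    rw [Real.rpow_neg hq0.le, ← one_div]
    exact one_div_le_one_div_of_le (by linarith) e1
  have hsqrt : Real.sqrt q = (q : ℝ) ^ (1 / 2 : ℝ) := Real.sqrt_eq_rpow _
  have hLs : (L : ℝ) * (4 / Real.sqrt q) ≤ (q : ℝ) ^ (-(4 / 10 : ℝ)) := by
    rw [hsqrt]
    calc (L : ℝ) * (4 / (q : ℝ) ^ (1 / 2 : ℝ)) = 4 * L / (q : ℝ) ^ (1 / 2 : ℝ) := by ring
      _ ≤ (q : ℝ) ^ (1 / 10 : ℝ) / (q : ℝ) ^ (1 / 2 : ℝ) := div_le_div_of_nonneg_right h4L (by positivity)
      _ = _ := by rw [← Real.rpow_sub hq0]; norm_num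
  set I := IM W z (10 * R0) Hc with hI
  set c := cM' Hc with hc
  have hA1 : ∀ i ∈ I, 0 < AM i ∧ AM i < q := fun i hi => ⟨AM_pos hi, lt_of_le_of_lt (A.hLA i hi) hLq⟩
  have hc1 : ∀ i ∈ I, |c i| ≤ 1 := fun i hi => cM_abs' hi
  have hcardI : (I.card : ℝ) ≤ L := by exact_mod_cast A.hLc
  have happ : ∀ g : (ZMod q)ˣ, ‖FL I AM c g - ((nu I AM c (vl g) * (1 / Real.sqrt (vl g)) : ℝ) : ℂ)‖ ≤
      (q : ℝ) ^ (-(4 / 10 : ℝ)) := by
    intro g
    refine (FL_approx I AM c hA1 hc1 g).trans (le_trans ?_ hLs)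
    exact mul_le_mul_of_nonneg_right hcardI (by positivity)
  -- the sum over the whole coset
  have hall : ∑ ψ : H, DirichletCharacter.LFunction (χ₀ * (ψ : DirichletCharacter ℂ q)) (1 / 2) *
        Mfn z W R0 Hc (χ₀ * (ψ : DirichletCharacter ℂ q)) =
      (Fintype.card H : ℂ) * ∑ g : (ZMod q)ˣ, (if g ∈ ann H then FL I AM c g else 0) * χ₀ (g : ZMod q) := by
    have e1 : ∀ ψ : H, DirichletCharacter.LFunction (χ₀ * (ψ : DirichletCharacter ℂ q)) (1 / 2) *
        Mfn z W R0 Hc (χ₀ * (ψ : DirichletCharacter ℂ q)) =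
        tr (FL I AM c) (χ₀ * (ψ : DirichletCharacter ℂ q)) := by
      intro ψ
      exact LM_tr I AM c (fun i hi => cop_of_lt (hA1 i hi).1 (hA1 i hi).2) _
    rw [Finset.sum_congr rfl (fun ψ _ => e1 ψ), tr_coset]
    rfl
  -- the terms different from one
  set T := univ.filter (fun g : (ZMod q)ˣ => g ∈ ann H ∧ g ≠ 1) with hT
  have hsplit : ∑ g : (ZMod q)ˣ, (if g ∈ ann H then FL I AM c g else 0) * χ₀ (g : ZMod q) =
      FL I AM c (1 : (ZMod q)ˣ) + ∑ g ∈ T, FL I AM c g * χ₀ (g : ZMod q) := by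
    rw [← Finset.add_sum_erase univ _ (mem_univ (1 : (ZMod q)ˣ)), if_pos (one_mem _)]
    congr 1
    · simp
    · rw [hT, Finset.sum_filter]
      have e1 : univ.erase (1 : (ZMod q)ˣ) = univ.filter (fun g => g ≠ 1) := by
        ext g; simp
      rw [e1, Finset.sum_filter]
      apply Finset.sum_congr rfl
      intro g _
      by_cases h1 : g = 1
      · simp [h1]
      · by_cases h2 : g ∈ ann H
        · simp [h1, h2]
        · simp [h2]
  have hone : ‖FL I AM c (1 : (ZMod q)ˣ) - 1‖ ≤ (q : ℝ) ^ (-(4 / 10 : ℝ)) := by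
    have e1 := happ 1
    have e2 : vl (1 : (ZMod q)ˣ) = 1 := by
      have := vl_un (q := q) one_pos hqone
      rwa [un_one'] at this
    rw [e2, nu_one hsz] at e1
    simpa using e1
  have hD1 : 1 ≤ D := by
    have := A.hD 1 one_pos (by rw [Nat.cast_one]; exact Real.one_le_rpow hqR1.le (by norm_num))
    simpa using this
  have hTsum : ∑ g ∈ T, ‖FL I AM c g * χ₀ (g : ZMod q)‖ ≤ 3 * tht q := by
    have e1 : ∀ g ∈ T, ‖FL I AM c g * χ₀ (g : ZMod q)‖ ≤
        |nu I AM c (vl g)| * (1 / Real.sqrt (vl g)) + (q : ℝ) ^ (-(4 / 10 : ℝ)) := by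
      intro g _
      have f1 : ‖χ₀ (g : ZMod q)‖ = 1 := χ₀.unit_norm_eq_one _
      rw [norm_mul, f1, mul_one]
      calc ‖FL I AM c g‖ = ‖((nu I AM c (vl g) * (1 / Real.sqrt (vl g)) : ℝ) : ℂ) +
            (FL I AM c g - ((nu I AM c (vl g) * (1 / Real.sqrt (vl g)) : ℝ) : ℂ))‖ := by congr 1; ring
        _ ≤ ‖((nu I AM c (vl g) * (1 / Real.sqrt (vl g)) : ℝ) : ℂ)‖ + (q : ℝ) ^ (-(4 / 10 : ℝ)) :=
            (norm_add_le _ _).trans (add_le_add_right (happ g) _)
        _ = _ := by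
            rw [Complex.norm_real, Real.norm_eq_abs, abs_mul,
              abs_of_nonneg (a := 1 / Real.sqrt (vl g)) (by positivity)]
    refine (Finset.sum_le_sum e1).trans ?_
    rw [Finset.sum_add_distrib]
    have t2 : ∑ _g ∈ T, (q : ℝ) ^ (-(4 / 10 : ℝ)) ≤ tht q := by
      rw [Finset.sum_const, nsmul_eq_mul]
      have f1 : (T.card : ℝ) ≤ (q : ℝ) ^ (1 / 3 : ℝ) := by
        refine le_trans ?_ A.hK
        rw [Fintype.card_subtype]
        have : T.card ≤ (univ.filter (fun g : (ZMod q)ˣ => g ∈ ann H)).card := by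
          apply card_le_card
          intro g hg
          rw [hT, mem_filter] at hg
          rw [mem_filter]
          exact ⟨mem_univ _, hg.2.1⟩
        exact_mod_cast this
      calc (T.card : ℝ) * (q : ℝ) ^ (-(4 / 10 : ℝ)) ≤ (q : ℝ) ^ (1 / 3 : ℝ) * (q : ℝ) ^ (-(4 / 10 : ℝ)) :=
            mul_le_mul_of_nonneg_right f1 (by positivity)
        _ = (q : ℝ) ^ (-(1 / 15 : ℝ)) := by rw [← Real.rpow_add hq0]; norm_num
        _ ≤ _ := hsmall
    have t1 : ∑ g ∈ T, |nu I AM c (vl g)| * (1 / Real.sqrt (vl g)) ≤ tht q + tht q := by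
      set φ : ℕ × ℕ → ℝ := fun w => |nu I AM c w.1| * (1 / Real.sqrt ((w.1 : ℝ) * w.2)) with hφ
      have hinj : Set.InjOn (fun g : (ZMod q)ˣ => (vl g, 1)) (T : Set (ZMod q)ˣ) := by
        intro g _ g' _ h
        have h' : vl g = vl g' := (Prod.mk.inj h).1
        rw [← un_vl (q := q) g, ← un_vl (q := q) g', h']
      have f1 : ∑ g ∈ T, |nu I AM c (vl g)| * (1 / Real.sqrt (vl g)) =
          ∑ w ∈ T.image (fun g : (ZMod q)ˣ => (vl g, 1)), φ w := by
        rw [Finset.sum_image hinj]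
        apply Finset.sum_congr rfl
        intro g _
        rw [hφ]
        simp only [Nat.cast_one, mul_one]
      rw [f1]
      have hwm : ∀ w ∈ T.image (fun g : (ZMod q)ˣ => (vl g, 1)), w ∈ KR q (ann H) q ∧ w.2 = 1 ∧ 1 < w.1 ∧
          w.1 < q := by
        intro w hw
        rw [mem_image] at hw
        obtain ⟨g, hg, rfl⟩ := hw
        rw [hT, mem_filter] at hg
        have g1 := vl_pos g
        have g2 := vl_lt g
        have g3 : (vl g).Coprime q := cop_of_lt g1 g2
        have g4 : vl g ≠ 1 := by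
          intro h
          apply hg.2.2
          rw [← un_vl g, h, un_one']
        refine ⟨?_, rfl, by simp only; omega, g2⟩
        rw [mem_KR]
        refine ⟨⟨g1, g2.le⟩, ⟨le_rfl, by simp only; omega⟩, Nat.coprime_one_right _, g3,
          Nat.coprime_one_left _, ?_⟩
        simp only
        rw [cls_one_right, un_vl]
        exact hg.2.1
      rw [← Finset.sum_filter_add_sum_filter_not _ (fun w : ℕ × ℕ => w.1 * w.2 ≤ Hc)]
      apply add_le_add
      · have g1 : ∑ w ∈ (T.image (fun g : (ZMod q)ˣ => (vl g, 1))).filter (fun w => w.1 * w.2 ≤ Hc), φ w ≤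
            ∑ w ∈ (KR q (ann H) q).filter (fun w => w.1 * w.2 ≤ Hc ∧ 1 ≤ ro W w ∧ sm W w ≤ 1),
              4 ^ ro W w * (1 / Real.sqrt ((w.1 : ℝ) * w.2)) := by
          have g2 : ∀ w ∈ (T.image (fun g : (ZMod q)ˣ => (vl g, 1))).filter (fun w => w.1 * w.2 ≤ Hc),
              φ w ≤ (if 1 ≤ ro W w ∧ sm W w ≤ 1 then
                4 ^ ro W w * (1 / Real.sqrt ((w.1 : ℝ) * w.2)) else 0) := by
            intro w hw
            rw [mem_filter] at hw
            obtain ⟨_, k2, k3, _⟩ := hwm w hw.1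
            have k4 : w.1 ≤ Hc := by have := hw.2; rwa [k2, mul_one] at this
            have k5 := nu_low hsz k3 k4
            have k6 : w = (w.1, 1) := Prod.ext rfl k2
            rw [← k6] at k5
            rw [hφ]
            simp only
            split_ifs with k7
            · rw [if_pos k7] at k5
              exact mul_le_mul_of_nonneg_right k5 (by positivity)
            · rw [if_neg k7] at k5
              have : |nu I AM c w.1| = 0 := le_antisymm k5 (abs_nonneg _)
              rw [this, zero_mul]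
          refine (Finset.sum_le_sum g2).trans ?_
          rw [← Finset.sum_filter]
          apply Finset.sum_le_sum_of_subset_of_nonneg
          · intro w hw
            rw [mem_filter, mem_filter] at hw
            rw [mem_filter]
            exact ⟨(hwm w hw.1.1).1, hw.1.2, hw.2⟩
          · intro w _ _
            positivity
        refine g1.trans ((low_sum (ann H) q Hc z W hsz.toSz A.hK hsz.hup).trans (le_trans ?_ b5))
        apply one_div_le_one_div_of_le (by linarith)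
        refine le_trans ?_ A.sz3.hCH3
        have hCC := hsz.hC
        have k1 : 1 ≤ Real.log q ^ 4 := one_le_pow₀ (by linarith)
        have k2 : 1 ≤ 8 * C * Real.log q ^ 4 := one_le_mul_of_one_le_of_one_le (by linarith) k1
        exact le_mul_of_one_le_left (by linarith) k2
      · have g1 : ∑ w ∈ (T.image (fun g : (ZMod q)ˣ => (vl g, 1))).filter (fun w => ¬ w.1 * w.2 ≤ Hc), φ w ≤
            D * ∑ w ∈ (KR q (ann H) q).filter (fun w => (q : ℝ) ^ η ≤ (w.1 : ℝ) * w.2 ∧
              (w.1 : ℝ) * w.2 ≤ (q : ℝ) ^ (13 / 10 : ℝ)), 1 / Real.sqrt ((w.1 : ℝ) * w.2) := by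
          rw [Finset.mul_sum]
          have hq13 : (q : ℝ) ≤ (q : ℝ) ^ (13 / 10 : ℝ) := by
            nth_rw 1 [← Real.rpow_one (q : ℝ)]
            exact Real.rpow_le_rpow_of_exponent_le hqR1.le (by norm_num)
          refine le_trans (Finset.sum_le_sum (g := fun w => D * (1 / Real.sqrt ((w.1 : ℝ) * w.2))) ?_) ?_
          · intro w hw
            rw [mem_filter] at hw
            obtain ⟨_, k2, k3, k4⟩ := hwm w hw.1
            apply mul_le_mul_of_nonneg_right _ (by positivity)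
            refine (nu_abs I AM c hc1 (AM_inj W z (10 * R0) Hc) (by omega)).trans ?_
            apply A.hD _ (by omega)
            refine le_trans ?_ hq13
            exact_mod_cast k4.le
          · apply Finset.sum_le_sum_of_subset_of_nonneg
            · intro w hw
              rw [mem_filter] at hw
              obtain ⟨k1, k2, k3, k4⟩ := hwm w hw.1
              rw [mem_filter]
              refine ⟨k1, ?_, ?_⟩
              · refine A.hη.trans ?_
                have : Hc ≤ w.1 * w.2 := by have := hw.2; omega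
                exact_mod_cast this
              · rw [k2, Nat.cast_one, mul_one]
                refine le_trans ?_ hq13
                exact_mod_cast k4.le
            · intro w _ _
              positivity
        refine g1.trans ?_
        have g2 := A.hHigh q
        have g3 : D * (q : ℝ) ^ (-κ) ≤ 1 / Real.log q := by
          rw [Real.rpow_neg hq0.le, ← div_eq_mul_inv, div_le_div_iff₀ (by positivity) (by linarith), one_mul]
          have g4 := A.hDκ2
          have g5 : D ≤ D ^ 2 * (1 + 2 * Real.log q) := by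
            rw [sq, mul_assoc]
            apply le_mul_of_one_le_right (by linarith)
            exact one_le_mul_of_one_le_of_one_le hD1 (by linarith)
          exact (mul_le_mul_of_nonneg_right g5 (by linarith)).trans g4
        exact (mul_le_mul_of_nonneg_left g2 (by linarith)).trans (g3.trans b5)
    linarith
  -- assemble
  have htot : ‖∑ ψ : H, DirichletCharacter.LFunction (χ₀ * (ψ : DirichletCharacter ℂ q)) (1 / 2) *
        Mfn z W R0 Hc (χ₀ * (ψ : DirichletCharacter ℂ q)) - (Fintype.card H : ℂ)‖ ≤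
      (Fintype.card H : ℝ) * (4 * tht q) := by
    rw [hall, hsplit]
    have e1 : (Fintype.card H : ℂ) * (FL I AM c (1 : (ZMod q)ˣ) + ∑ g ∈ T, FL I AM c g * χ₀ (g : ZMod q)) -
        (Fintype.card H : ℂ) = (Fintype.card H : ℂ) * ((FL I AM c (1 : (ZMod q)ˣ) - 1) +
          ∑ g ∈ T, FL I AM c g * χ₀ (g : ZMod q)) := by ring
    rw [e1, norm_mul, Complex.norm_natCast]
    apply mul_le_mul_of_nonneg_left _ hHpos.le
    have e2 : ‖∑ g ∈ T, FL I AM c g * χ₀ (g : ZMod q)‖ ≤ 3 * tht q := (norm_sum_le _ _).trans hTsum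
    have e3 : (q : ℝ) ^ (-(4 / 10 : ℝ)) ≤ tht q := by
      calc (q : ℝ) ^ (-(4 / 10 : ℝ)) ≤ (q : ℝ) ^ (-(1 / 15 : ℝ)) :=
            Real.rpow_le_rpow_of_exponent_le hqR1.le (by norm_num)
        _ ≤ _ := hsmall
    calc _ ≤ ‖FL I AM c (1 : (ZMod q)ˣ) - 1‖ + ‖∑ g ∈ T, FL I AM c g * χ₀ (g : ZMod q)‖ := norm_add_le _ _
      _ ≤ tht q + 3 * tht q := add_le_add (hone.trans e3) e2
      _ = _ := by ring
  -- the trivial character
  have htriv : ‖∑ ψ ∈ univ.filter (fun ψ : H => ¬ (χ₀ * (ψ : DirichletCharacter ℂ q) ≠ 1)),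
      DirichletCharacter.LFunction (χ₀ * (ψ : DirichletCharacter ℂ q)) (1 / 2) *
        Mfn z W R0 Hc (χ₀ * (ψ : DirichletCharacter ℂ q))‖ ≤ (Fintype.card H : ℝ) * tht q := by
    refine (norm_sum_le _ _).trans ?_
    have e1 : ∀ ψ ∈ univ.filter (fun ψ : H => ¬ (χ₀ * (ψ : DirichletCharacter ℂ q) ≠ 1)),
        ‖DirichletCharacter.LFunction (χ₀ * (ψ : DirichletCharacter ℂ q)) (1 / 2) *
        Mfn z W R0 Hc (χ₀ * (ψ : DirichletCharacter ℂ q))‖ ≤ 4 * Real.sqrt q * L := by
      intro ψ hψ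
      rw [mem_filter, not_not] at hψ
      rw [hψ.2, norm_mul]
      exact mul_le_mul L_one ((Mof_norm I AM c hc1 1).trans hcardI) (norm_nonneg _) (by positivity)
    refine (Finset.sum_le_card_nsmul _ _ _ e1).trans ?_
    rw [nsmul_eq_mul]
    have e2 : ((univ.filter (fun ψ : H => ¬ (χ₀ * (ψ : DirichletCharacter ℂ q) ≠ 1))).card : ℝ) ≤ 1 := by
      have g6 : (univ.filter (fun ψ : H => ¬ (χ₀ * (ψ : DirichletCharacter ℂ q) ≠ 1))).card ≤ 1 := by
        rw [card_le_one]
        intro ψ hψ ψ' hψ'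
        rw [mem_filter, not_not] at hψ hψ'
        apply Subtype.ext
        exact mul_left_cancel (hψ.2.trans hψ'.2.symm)
      exact_mod_cast g6
    calc _ ≤ 1 * (4 * Real.sqrt q * L) := mul_le_mul_of_nonneg_right e2 (by positivity)
      _ = Real.sqrt q * (4 * L) := by ring
      _ ≤ (q : ℝ) ^ (1 / 2 : ℝ) * (q : ℝ) ^ (1 / 10 : ℝ) := by
          rw [hsqrt]; exact mul_le_mul_of_nonneg_left h4L (by positivity)
      _ = (q : ℝ) ^ (2 / 3 : ℝ) * (q : ℝ) ^ (-(1 / 15 : ℝ)) := by
          rw [← Real.rpow_add hq0, ← Real.rpow_add hq0]; norm_num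
      _ ≤ (Fintype.card H : ℝ) * tht q :=
          mul_le_mul A.hH hsmall (by positivity) hHpos.le
  have hfin : ∑ ψ ∈ univ.filter (fun ψ : H => χ₀ * (ψ : DirichletCharacter ℂ q) ≠ 1),
      DirichletCharacter.LFunction (χ₀ * (ψ : DirichletCharacter ℂ q)) (1 / 2) *
        Mfn z W R0 Hc (χ₀ * (ψ : DirichletCharacter ℂ q)) - (Fintype.card H : ℂ) =
      (∑ ψ : H, DirichletCharacter.LFunction (χ₀ * (ψ : DirichletCharacter ℂ q)) (1 / 2) *
        Mfn z W R0 Hc (χ₀ * (ψ : DirichletCharacter ℂ q)) - (Fintype.card H : ℂ)) -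
      ∑ ψ ∈ univ.filter (fun ψ : H => ¬ (χ₀ * (ψ : DirichletCharacter ℂ q) ≠ 1)),
      DirichletCharacter.LFunction (χ₀ * (ψ : DirichletCharacter ℂ q)) (1 / 2) *
        Mfn z W R0 Hc (χ₀ * (ψ : DirichletCharacter ℂ q)) := by
    rw [← Finset.sum_filter_add_sum_filter_not univ
      (fun ψ : H => χ₀ * (ψ : DirichletCharacter ℂ q) ≠ 1)]
    ring
  rw [hfin]
  calc _ ≤ (Fintype.card H : ℝ) * (4 * tht q) + (Fintype.card H : ℝ) * tht q :=
        (norm_sub_le _ _).trans (add_le_add htot htriv)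
    _ = _ := by ring

end

end Pool.Agent.V8H32.NW
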