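import Mathlib

/-! The combinatorial part: the integers prime to the order. -/

set_option autoImplicit false

namespace Pool.Agent.V8H32.NW
open Finset
open scoped Classical

/-- the residues considered: all (`m = 1`) or the odd ones (`m = 2`) -/
def Om (d m : ℕ) : Finset ℕ := (range d).filter (fun j => j % m = m - 1)

lemma Om_image {d m e : ℕ} (hm : m = 1 ∨ m = 2) (he : 0 < e) (hme : m * e ∣ d)
    (hc : Nat.Coprime e m) : (Om d m).filter (fun j => e ∣ j) =
      (range (d / (m * e))).image (fun i => e * (m * i + (m - 1))) := by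
  obtain ⟨k, hk⟩ := hme
  have hm0 : 0 < m := by omega
  have hdk : d / (m * e) = k := by
    rw [hk]; exact Nat.mul_div_cancel_left _ (Nat.mul_pos hm0 he)
  rw [hdk]
  ext j
  unfold Om
  rw [mem_filter, mem_filter, mem_range, mem_image]
  constructor
  · rintro ⟨⟨h1, h2⟩, t, rfl⟩
    have hmod : t % m = m - 1 := by
      rcases hm with rfl | rfl
      · omega
      · have he2 : e % 2 = 1 := by
          rw [Nat.coprime_two_right] at hc
          exact Nat.odd_iff.1 hc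
        rw [Nat.mul_mod, he2, one_mul, Nat.mod_mod] at h2
        exact h2
    refine ⟨t / m, ?_, ?_⟩
    · rw [mem_range]
      rw [Nat.div_lt_iff_lt_mul hm0]
      have h3 : e * t < e * (k * m) := by rw [hk] at h1; calc e * t < m * e * k := h1
        _ = e * (k * m) := by ring
      exact Nat.lt_of_mul_lt_mul_left h3
    · have := Nat.div_add_mod t m
      rw [← hmod, this]
  · rintro ⟨i, hi, rfl⟩
    rw [mem_range] at hi
    refine ⟨⟨?_, ?_⟩, Dvd.intro _ rfl⟩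
    · rw [hk]
      have h1 : m * i + (m - 1) < m * k := by
        have : m * (i + 1) ≤ m * k := Nat.mul_le_mul_left _ hi
        rw [mul_add, mul_one] at this
        omega
      calc e * (m * i + (m - 1)) < e * (m * k) := Nat.mul_lt_mul_of_pos_left h1 he
        _ = _ := by ring
    · rcases hm with rfl | rfl
      · omega
      · have he2 : e % 2 = 1 := by
          rw [Nat.coprime_two_right] at hc
          exact Nat.odd_iff.1 hc
        rw [Nat.mul_mod, he2, one_mul, Nat.mod_mod]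
        omega

lemma Om_sum {R : Type*} [AddCommMonoid R] {d m e : ℕ} (hm : m = 1 ∨ m = 2) (he : 0 < e)
    (hme : m * e ∣ d) (hc : Nat.Coprime e m) (F : ℕ → R) :
    ∑ j ∈ (Om d m).filter (fun j => e ∣ j), F j =
      ∑ i ∈ range (d / (m * e)), F (e * (m * i + (m - 1))) := by
  rw [Om_image hm he hme hc, Finset.sum_image]
  intro a _ b _ h
  simp only at h
  have h1 := Nat.eq_of_mul_eq_mul_left he h
  have hm0 : 0 < m := by omega
  exact Nat.eq_of_mul_eq_mul_left hm0 (by omega)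

/-- the small primes -/
noncomputable def PS (d m Y : ℕ) : Finset ℕ := d.primeFactors.filter (fun l => l ≤ Y ∧ ¬ l ∣ m)

lemma mem_PS {d m Y l : ℕ} : l ∈ PS d m Y ↔ (l.Prime ∧ l ∣ d ∧ d ≠ 0) ∧ l ≤ Y ∧ ¬ l ∣ m := by
  unfold PS
  rw [mem_filter, Nat.mem_primeFactors]

/-- sums over integers without small prime factors -/
lemma sieve {R : Type*} [CommRing R] (P : Finset ℕ) (hP : ∀ l ∈ P, l.Prime) (Ω : Finset ℕ) (F : ℕ → R) :
    ∑ j ∈ Ω.filter (fun j => ∀ l ∈ P, ¬ l ∣ j), F j =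
      ∑ S ∈ P.powerset, (-1) ^ S.card * ∑ j ∈ Ω.filter (fun j => (∏ l ∈ S, l) ∣ j), F j := by
  have h1 : ∀ S ∈ P.powerset, ∀ j : ℕ, (∏ l ∈ S, l) ∣ j ↔ S ⊆ P.filter (fun l => l ∣ j) := by
    intro S hS j
    rw [mem_powerset] at hS
    constructor
    · intro h l hl
      exact mem_filter.2 ⟨hS hl, (Finset.dvd_prod_of_mem _ hl).trans h⟩
    · intro h
      apply Finset.prod_primes_dvd
      · intro l hl; exact (hP l (hS hl)).prime
      · intro l hl; exact (mem_filter.1 (h hl)).2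
  have h2 : ∀ S ∈ P.powerset, (-1 : R) ^ S.card * ∑ j ∈ Ω.filter (fun j => (∏ l ∈ S, l) ∣ j), F j =
      ∑ j ∈ Ω, (if S ⊆ P.filter (fun l => l ∣ j) then (-1 : R) ^ S.card * F j else 0) := by
    intro S hS
    rw [Finset.mul_sum, Finset.sum_filter]
    apply Finset.sum_congr rfl
    intro j _
    simp only [h1 S hS j]
  rw [Finset.sum_congr rfl h2, Finset.sum_comm, Finset.sum_filter]
  apply Finset.sum_congr rfl
  intro j _
  rw [← Finset.sum_filter]
  have h3 : P.powerset.filter (fun S => S ⊆ P.filter (fun l => l ∣ j)) =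
      (P.filter (fun l => l ∣ j)).powerset := by
    ext S
    rw [mem_filter, mem_powerset, mem_powerset]
    constructor
    · exact fun h => h.2
    · exact fun h => ⟨h.trans (filter_subset _ _), h⟩
  rw [h3, ← Finset.sum_mul]
  have h4 : ∑ S ∈ (P.filter (fun l => l ∣ j)).powerset, (-1 : R) ^ S.card =
      if P.filter (fun l => l ∣ j) = ∅ then 1 else 0 := by
    have h5 := Finset.sum_powerset_neg_one_pow_card (x := P.filter (fun l => l ∣ j))
    have h6 := congrArg (Int.cast : ℤ → R) h5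
    push_cast at h6
    rw [h6]
  rw [h4]
  have h7 : (∀ l ∈ P, ¬ l ∣ j) ↔ P.filter (fun l => l ∣ j) = ∅ := by
    rw [Finset.filter_eq_empty_iff]
  by_cases h8 : ∀ l ∈ P, ¬ l ∣ j
  · rw [if_pos h8, if_pos (h7.1 h8), one_mul]
  · rw [if_neg h8, if_neg (fun h => h8 (h7.2 h)), zero_mul]

/-- the sieved set -/
noncomputable def OS (d m Y : ℕ) : Finset ℕ := (Om d m).filter (fun j => ∀ l ∈ PS d m Y, ¬ l ∣ j)

/-- the density -/
noncomputable def Ph (P : Finset ℕ) : ℝ := ∏ l ∈ P, (1 - 1 / (l : ℝ))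

lemma prod_signs (P : Finset ℕ) : ∑ S ∈ P.powerset, (-1 : ℝ) ^ S.card * (1 / ((∏ l ∈ S, l : ℕ) : ℝ)) =
    Ph P := by
  have h1 : Ph P = ∏ l ∈ P, (-(1 / (l : ℝ)) + 1) := by
    unfold Ph
    exact Finset.prod_congr rfl (fun l _ => by ring)
  rw [h1, Finset.prod_add_one]
  apply Finset.sum_congr rfl
  intro S _
  rw [Finset.prod_neg, Nat.cast_prod]
  congr 1
  simp [Finset.prod_inv_distrib]

lemma prod_abs (P : Finset ℕ) : ∑ S ∈ P.powerset, (1 / ((∏ l ∈ S, l : ℕ) : ℝ)) =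
    ∏ l ∈ P, (1 / (l : ℝ) + 1) := by
  rw [Finset.prod_add_one]
  apply Finset.sum_congr rfl
  intro S _
  rw [Nat.cast_prod]
  simp [Finset.prod_inv_distrib]

lemma Ph_pos {P : Finset ℕ} (hP : ∀ l ∈ P, l.Prime) : 0 < Ph P ∧ Ph P ≤ 1 := by
  have h : ∀ l ∈ P, (0 : ℝ) < 1 - 1 / (l : ℝ) ∧ (1 : ℝ) - 1 / (l : ℝ) ≤ 1 := by
    intro l hl
    have h2 : (2 : ℝ) ≤ l := by exact_mod_cast (hP l hl).two_le
    have h3 : 1 / (l : ℝ) ≤ 1 / 2 := one_div_le_one_div_of_le (by norm_num) h2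
    have h4 : 0 ≤ 1 / (l : ℝ) := by positivity
    constructor <;> linarith
  unfold Ph
  exact ⟨Finset.prod_pos fun l hl => (h l hl).1, Finset.prod_le_one (fun l hl => (h l hl).1.le)
    (fun l hl => (h l hl).2)⟩

lemma prod_abs_le {P : Finset ℕ} (hP : ∀ l ∈ P, l.Prime) :
    ∑ S ∈ P.powerset, (1 / ((∏ l ∈ S, l : ℕ) : ℝ)) ≤ 1 / Ph P := by
  rw [prod_abs, le_div_iff₀ (Ph_pos hP).1]
  unfold Ph
  rw [← Finset.prod_mul_distrib]
  apply Finset.prod_le_one
  · intro l hl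
    have h2 : (2 : ℝ) ≤ l := by exact_mod_cast (hP l hl).two_le
    have h3 : 1 / (l : ℝ) ≤ 1 / 2 := one_div_le_one_div_of_le (by norm_num) h2
    have h4 : 0 ≤ 1 / (l : ℝ) := by positivity
    apply mul_nonneg <;> linarith
  · intro l hl
    have h4 : 0 ≤ 1 / (l : ℝ) := by positivity
    nlinarith

lemma pr_facts {d m Y : ℕ} (hd : 0 < d) (hmd : m ∣ d) (hm : m = 1 ∨ m = 2) {S : Finset ℕ}
    (hS : S ⊆ PS d m Y) : 0 < ∏ l ∈ S, l ∧ m * (∏ l ∈ S, l) ∣ d ∧ Nat.Coprime (∏ l ∈ S, l) m ∧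
      ∏ l ∈ S, l ≤ 4 ^ Y := by
  have hp : ∀ l ∈ S, l.Prime := fun l hl => (mem_PS.1 (hS hl)).1.1
  have h0 : 0 < ∏ l ∈ S, l := Finset.prod_pos fun l hl => (hp l hl).pos
  have hc : Nat.Coprime (∏ l ∈ S, l) m := by
    apply Nat.Coprime.prod_left
    intro l hl
    exact (Nat.Prime.coprime_iff_not_dvd (hp l hl)).2 (mem_PS.1 (hS hl)).2.2
  have hdv : (∏ l ∈ S, l) ∣ d := by
    apply Finset.prod_primes_dvd
    · intro l hl; exact (hp l hl).prime
    · intro l hl; exact (mem_PS.1 (hS hl)).1.2.1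
  refine ⟨h0, Nat.Coprime.mul_dvd_of_dvd_of_dvd hc.symm hmd hdv, hc, ?_⟩
  refine le_trans ?_ (primorial_le_four_pow Y)
  unfold primorial
  apply Nat.le_of_dvd (Finset.prod_pos fun p hp => (mem_filter.1 hp).2.pos)
  apply Finset.prod_dvd_prod_of_subset
  intro l hl
  rw [mem_filter, Finset.mem_range]
  exact ⟨Nat.lt_succ_of_le (mem_PS.1 (hS hl)).2.1, hp l hl⟩

lemma OS_card {d m Y : ℕ} (hd : 0 < d) (hmd : m ∣ d) (hm : m = 1 ∨ m = 2) :
    ((OS d m Y).card : ℝ) = (d : ℝ) / m * Ph (PS d m Y) := by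
  have hP : ∀ l ∈ PS d m Y, l.Prime := fun l hl => (mem_PS.1 hl).1.1
  have h1 := sieve (R := ℝ) (PS d m Y) hP (Om d m) (fun _ => 1)
  have h2 : ∑ j ∈ (Om d m).filter (fun j => ∀ l ∈ PS d m Y, ¬ l ∣ j), (1 : ℝ) = ((OS d m Y).card : ℝ) := by
    rw [Finset.sum_const, nsmul_eq_mul, mul_one]; rfl
  rw [← h2, h1, ← prod_signs, Finset.mul_sum]
  apply Finset.sum_congr rfl
  intro S hS
  rw [mem_powerset] at hS
  obtain ⟨a1, a2, a3, _⟩ := pr_facts hd hmd hm hS
  rw [Om_sum hm a1 a2 a3, Finset.sum_const, card_range, nsmul_eq_mul, mul_one, Nat.cast_div a2]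
  · push_cast
    ring
  · have hm0 : 0 < m := by omega
    have : m * (∏ l ∈ S, l) ≠ 0 := (Nat.mul_pos hm0 a1).ne'
    exact_mod_cast this

/-- the primes larger than `Y` -/
noncomputable def PL (d Y : ℕ) : Finset ℕ := d.primeFactors.filter (fun l => Y < l)

lemma OS_large {d m Y l₀ : ℕ} (hd : 0 < d) (hmd : m ∣ d) (hm : m = 1 ∨ m = 2) (hY : 2 ≤ Y)
    (hl : l₀ ∈ PL d Y) :
    (((OS d m Y).filter (fun j => l₀ ∣ j)).card : ℝ) = (d : ℝ) / m * Ph (PS d m Y) * (1 / l₀) := by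
  have hP : ∀ l ∈ PS d m Y, l.Prime := fun l hl => (mem_PS.1 hl).1.1
  unfold PL at hl
  rw [mem_filter, Nat.mem_primeFactors] at hl
  obtain ⟨⟨hl1, hl2, _⟩, hl3⟩ := hl
  have h1 := sieve (R := ℝ) (PS d m Y) hP ((Om d m).filter (fun j => l₀ ∣ j)) (fun _ => 1)
  have h2 : ∑ j ∈ ((Om d m).filter (fun j => l₀ ∣ j)).filter (fun j => ∀ l ∈ PS d m Y, ¬ l ∣ j), (1 : ℝ) =
      (((OS d m Y).filter (fun j => l₀ ∣ j)).card : ℝ) := by
    rw [Finset.sum_const, nsmul_eq_mul, mul_one]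
    unfold OS
    rw [Finset.filter_comm]
  rw [← h2, h1, ← prod_signs, Finset.mul_sum, Finset.sum_mul]
  apply Finset.sum_congr rfl
  intro S hS
  rw [mem_powerset] at hS
  obtain ⟨a1, a2, a3, _⟩ := pr_facts hd hmd hm hS
  have hlS : Nat.Coprime l₀ (∏ l ∈ S, l) := by
    apply Nat.Coprime.prod_right
    intro l hl
    have h3 := mem_PS.1 (hS hl)
    rw [Nat.coprime_primes hl1 h3.1.1]
    omega
  have hlm : Nat.Coprime l₀ m := by
    rw [Nat.Prime.coprime_iff_not_dvd hl1]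
    intro h
    have := Nat.le_of_dvd (by omega) h
    omega
  have e1 : ((Om d m).filter (fun j => l₀ ∣ j)).filter (fun j => (∏ l ∈ S, l) ∣ j) =
      (Om d m).filter (fun j => (l₀ * ∏ l ∈ S, l) ∣ j) := by
    ext j
    rw [mem_filter, mem_filter, mem_filter]
    constructor
    · rintro ⟨⟨b1, b2⟩, b3⟩
      exact ⟨b1, Nat.Coprime.mul_dvd_of_dvd_of_dvd hlS b2 b3⟩
    · rintro ⟨b1, b2⟩
      exact ⟨⟨b1, (dvd_mul_right _ _).trans b2⟩, (dvd_mul_left _ _).trans b2⟩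
  have a4 : m * (l₀ * ∏ l ∈ S, l) ∣ d := by
    have : m * (l₀ * ∏ l ∈ S, l) = l₀ * (m * ∏ l ∈ S, l) := by ring
    rw [this]
    exact Nat.Coprime.mul_dvd_of_dvd_of_dvd (Nat.Coprime.mul_right hlm hlS) hl2 a2
  have a5 : Nat.Coprime (l₀ * ∏ l ∈ S, l) m := Nat.Coprime.mul_left hlm a3
  rw [e1, Om_sum hm (Nat.mul_pos hl1.pos a1) a4 a5, Finset.sum_const, card_range, nsmul_eq_mul, mul_one,
    Nat.cast_div a4]
  · push_cast
    ring
  · have hm0 : 0 < m := by omega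
    have : m * (l₀ * ∏ l ∈ S, l) ≠ 0 := (Nat.mul_pos hm0 (Nat.mul_pos hl1.pos a1)).ne'
    exact_mod_cast this

/-- the residues prime to `d` -/
noncomputable def CP (d : ℕ) : Finset ℕ := (range d).filter (fun j => Nat.Coprime j d)

lemma CP_sub {d m Y : ℕ} (hmd : m ∣ d) (hm : m = 1 ∨ m = 2) : CP d ⊆ OS d m Y := by
  intro j hj
  unfold CP at hj
  rw [mem_filter, mem_range] at hj
  unfold OS Om
  rw [mem_filter, mem_filter, mem_range]
  refine ⟨⟨hj.1, ?_⟩, ?_⟩
  · rcases hm with rfl | rfl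
    · omega
    · have h1 : ¬ 2 ∣ j := by
        intro h
        have := Nat.dvd_gcd h hmd
        rw [hj.2] at this
        omega
      omega
  · intro l hl h
    have h2 := mem_PS.1 hl
    have := Nat.dvd_gcd h h2.1.2.1
    rw [hj.2] at this
    exact h2.1.1.one_lt.ne' (Nat.dvd_one.1 this)

lemma OS_diff {d m Y : ℕ} (hd : 0 < d) (hmd : m ∣ d) (hm : m = 1 ∨ m = 2) (hY : 2 ≤ Y) :
    (((OS d m Y) \ CP d).card : ℝ) ≤ (d : ℝ) / m * Ph (PS d m Y) * ∑ l ∈ PL d Y, 1 / (l : ℝ) := by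
  have h1 : (OS d m Y) \ CP d ⊆ (PL d Y).biUnion (fun l => (OS d m Y).filter (fun j => l ∣ j)) := by
    intro j hj
    rw [mem_sdiff] at hj
    obtain ⟨h1, h2⟩ := hj
    have h3 := h1
    unfold OS Om at h3
    rw [mem_filter, mem_filter, mem_range] at h3
    obtain ⟨⟨h4, h5⟩, h6⟩ := h3
    have h7 : ¬ Nat.Coprime j d := by
      intro h
      exact h2 (mem_filter.2 ⟨mem_range.2 h4, h⟩)
    obtain ⟨l, hl, hl1, hl2⟩ := Nat.Prime.not_coprime_iff_dvd.1 h7
    have h8 : ¬ l ∣ m := by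
      intro h
      rcases hm with rfl | rfl
      · exact hl.one_lt.ne' (Nat.dvd_one.1 h)
      · have : l = 2 := (Nat.prime_dvd_prime_iff_eq hl Nat.prime_two).1 h
        subst this
        omega
    rw [mem_biUnion]
    refine ⟨l, ?_, mem_filter.2 ⟨h1, hl1⟩⟩
    unfold PL
    rw [mem_filter, Nat.mem_primeFactors]
    refine ⟨⟨hl, hl2, hd.ne'⟩, ?_⟩
    by_contra hcon
    exact h6 l (mem_PS.2 ⟨⟨hl, hl2, hd.ne'⟩, by omega, h8⟩) hl1
  calc (((OS d m Y) \ CP d).card : ℝ) ≤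
      (((PL d Y).biUnion (fun l => (OS d m Y).filter (fun j => l ∣ j))).card : ℝ) := by
        exact_mod_cast card_le_card h1
    _ ≤ ((∑ l ∈ PL d Y, ((OS d m Y).filter (fun j => l ∣ j)).card : ℕ) : ℝ) := by
        exact_mod_cast card_biUnion_le
    _ = ∑ l ∈ PL d Y, (d : ℝ) / m * Ph (PS d m Y) * (1 / l) := by
        push_cast
        exact Finset.sum_congr rfl (fun l hl => OS_large hd hmd hm hY hl)
    _ = _ := by rw [Finset.mul_sum]

/-- the number of large primes -/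
lemma PL_sum {d Y : ℕ} (hd : 0 < d) (hY : 2 ≤ Y) :
    ∑ l ∈ PL d Y, 1 / (l : ℝ) ≤ Real.log d / (Y * Real.log Y) := by
  have hY0 : (0 : ℝ) < Y := by exact_mod_cast (by omega : 0 < Y)
  have hlY : 0 < Real.log Y := Real.log_pos (by exact_mod_cast (by omega : 1 < Y))
  have h1 : ∀ l ∈ PL d Y, 1 / (l : ℝ) ≤ 1 / Y := by
    intro l hl
    unfold PL at hl
    rw [mem_filter] at hl
    exact one_div_le_one_div_of_le hY0 (by exact_mod_cast hl.2.le)
  have h2 : ((PL d Y).card : ℝ) * Real.log Y ≤ Real.log d := by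
    have h3 : Y ^ (PL d Y).card ≤ d := by
      calc Y ^ (PL d Y).card = ∏ _l ∈ PL d Y, Y := by rw [Finset.prod_const]
        _ ≤ ∏ l ∈ PL d Y, l := Finset.prod_le_prod' (fun l hl => by
            unfold PL at hl
            exact (mem_filter.1 hl).2.le)
        _ ≤ d := by
            apply Nat.le_of_dvd hd
            refine (Finset.prod_dvd_prod_of_subset _ d.primeFactors _ ?_).trans (Nat.prod_primeFactors_dvd d)
            exact filter_subset _ _
    rw [← Real.log_pow]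
    apply Real.log_le_log (by positivity)
    exact_mod_cast h3
  refine (Finset.sum_le_card_nsmul _ _ _ h1).trans ?_
  rw [nsmul_eq_mul, mul_one_div, div_le_div_iff₀ hY0 (mul_pos hY0 hlY)]
  calc ((PL d Y).card : ℝ) * (Y * Real.log Y) = (((PL d Y).card : ℝ) * Real.log Y) * Y := by ring
    _ ≤ _ := mul_le_mul_of_nonneg_right h2 hY0.le

end Pool.Agent.V8H32.NW
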