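import Pool.Agent.V8H32.NW.O5
import Pool.Agent.V8H32.NW.O6
import Pool.Agent.V8H32.NW.O7
import Pool.Agent.V8H32.NV.Fin1
import Pool.Agent.V8H32.Cos.Fin1

/-! The moments over a Galois orbit of characters. -/

set_option autoImplicit false

namespace Pool.Agent.V8H32.NW
open Finset Pool.Agent.R311.RES MeasureTheory Pool.Agent.V8H32.NV
open Pool.Agent.V8H32.Cos (ev)
open scoped Classical

variable {q : ℕ} [Fact q.Prime]

lemma card_zp {χ : DirichletCharacter ℂ q} {k : ℕ} (hk : k ≠ 0) (hd : k ∣ orderOf χ) :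
    Fintype.card (Subgroup.zpowers (χ ^ k)) = orderOf χ / k := by
  rw [Fintype.card_zpowers, orderOf_pow_of_dvd hk hd]

lemma coset_range {R : Type*} [AddCommMonoid R] (χ : DirichletCharacter ℂ q) {m e : ℕ}
    (hme0 : m * e ≠ 0) (hme : m * e ∣ orderOf χ) (f : DirichletCharacter ℂ q → R) :
    ∑ i ∈ range (orderOf χ / (m * e)), f (χ ^ (e * (m * i + (m - 1)))) =
      ∑ ψ : Subgroup.zpowers (χ ^ (m * e)), f (χ ^ (e * (m - 1)) * (ψ : DirichletCharacter ℂ q)) := by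
  have ho : orderOf (χ ^ (m * e)) = orderOf χ / (m * e) := orderOf_pow_of_dvd hme0 hme
  rw [← ho]
  have hfin : IsOfFinOrder (χ ^ (m * e)) := isOfFinOrder_of_finite _
  rw [← Fin.sum_univ_eq_sum_range (fun i => f (χ ^ (e * (m * i + (m - 1))))) (orderOf (χ ^ (m * e)))]
  apply Fintype.sum_equiv (finEquivZPowers hfin)
  intro i
  congr 1
  rw [finEquivZPowers_apply]
  change χ ^ (e * (m * (i : ℕ) + (m - 1))) = χ ^ (e * (m - 1)) * (χ ^ (m * e)) ^ (i : ℕ)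
  rw [← pow_mul, ← pow_add]
  congr 1
  ring

/-- the product of the L-value and the mollifier -/
noncomputable def gf (z W R0 Hc : ℕ) (ξ : DirichletCharacter ℂ q) : ℂ :=
  if ξ ≠ 1 then DirichletCharacter.LFunction ξ (1 / 2) * Mfn z W R0 Hc ξ else 0

lemma sum_gf {z W R0 Hc : ℕ} (H : Subgroup (DirichletCharacter ℂ q)) (χ₀ : DirichletCharacter ℂ q) :
    ∑ ψ : H, gf z W R0 Hc (χ₀ * (ψ : DirichletCharacter ℂ q)) =
      ∑ ψ ∈ univ.filter (fun ψ : H => χ₀ * (ψ : DirichletCharacter ℂ q) ≠ 1),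
      DirichletCharacter.LFunction (χ₀ * (ψ : DirichletCharacter ℂ q)) (1 / 2) *
        Mfn z W R0 Hc (χ₀ * (ψ : DirichletCharacter ℂ q)) := by
  rw [Finset.sum_filter]
  rfl

lemma sum_gf2 {z W R0 Hc : ℕ} (H : Subgroup (DirichletCharacter ℂ q)) (χ₀ : DirichletCharacter ℂ q) :
    ∑ ψ : H, ‖gf z W R0 Hc (χ₀ * (ψ : DirichletCharacter ℂ q))‖ ^ 2 =
      ∑ ψ ∈ univ.filter (fun ψ : H => χ₀ * (ψ : DirichletCharacter ℂ q) ≠ 1),
      ‖DirichletCharacter.LFunction (χ₀ * (ψ : DirichletCharacter ℂ q)) (1 / 2)‖ ^ 2 *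
        ‖Mfn z W R0 Hc (χ₀ * (ψ : DirichletCharacter ℂ q))‖ ^ 2 := by
  rw [Finset.sum_filter]
  apply Finset.sum_congr rfl
  intro ψ _
  unfold gf
  split_ifs with h
  · rw [norm_mul, mul_pow]
  · rw [norm_zero]; ring

lemma ev_apply (χ : DirichletCharacter ℂ q) : ev q χ = χ (-1) := rfl

lemma parity {χ χ₀ : DirichletCharacter ℂ q} {m e a : ℕ} (hm : m = 1 ∨ m = 2) (hc : Nat.Coprime e m)
    (h1 : m = 1 → χ (-1) = 1) (h2 : m = 2 → χ (-1) = -1) (h0 : χ₀ (-1) * χ (-1) ^ (m - 1) = (-1) ^ a)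
    (ψ : Subgroup.zpowers (χ ^ (m * e))) :
    (χ₀ * χ ^ (e * (m - 1)) * (ψ : DirichletCharacter ℂ q)) (-1) = (-1) ^ a := by
  have e1 : ev q (ψ : DirichletCharacter ℂ q) = 1 := by
    have hk : χ ^ (m * e) ∈ (ev q).ker := by
      rw [MonoidHom.mem_ker, map_pow, ev_apply]
      rcases hm with rfl | rfl
      · rw [h1 rfl, one_pow]
      · rw [h2 rfl, pow_mul]; norm_num
    exact MonoidHom.mem_ker.1 ((Subgroup.zpowers_le.2 hk) ψ.2)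
  rw [← ev_apply, map_mul, map_mul, e1, mul_one, map_pow, ev_apply, ev_apply, ← h0]
  congr 1
  rcases hm with rfl | rfl
  · simp
  · have he2 : Odd e := (Nat.coprime_two_right.1 hc)
    rw [h2 rfl, Nat.add_one_sub_one, mul_one, pow_one, he2.neg_one_pow]

section
variable {z W R0 Hc L Y m a : ℕ} {ϱ C D κ η : ℝ} {χ χ₀ : DirichletCharacter ℂ q}

/-- the hypotheses for an orbit -/
structure Orb (q z W₀ R0 Hc L Y m a : ℕ) [Fact q.Prime] (ϱ C D κ η : ℝ) (χ χ₀ : DirichletCharacter ℂ q) :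
    Prop where
  hm : m = 1 ∨ m = 2
  hmd : m ∣ orderOf χ
  h1 : m = 1 → χ (-1) = 1
  h2 : m = 2 → χ (-1) = -1
  ha : a ≤ 1
  h0 : χ₀ (-1) * χ (-1) ^ (m - 1) = (-1) ^ a
  hY : 2 ≤ Y
  hA : ∀ S : Finset ℕ, S ⊆ PS (orderOf χ) m Y → AllS q z W₀ R0 Hc L ϱ C D κ η
    (Subgroup.zpowers (χ ^ (m * ∏ l ∈ S, l)))

lemma Orb.d0 (O : Orb q z W R0 Hc L Y m a ϱ C D κ η χ χ₀) : 0 < orderOf χ := orderOf_pos _

lemma Orb.sieve_sum (O : Orb q z W R0 Hc L Y m a ϱ C D κ η χ χ₀) {R : Type*} [CommRing R]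
    (f : DirichletCharacter ℂ q → R) :
    ∑ j ∈ OS (orderOf χ) m Y, f (χ₀ * χ ^ j) =
      ∑ S ∈ (PS (orderOf χ) m Y).powerset, (-1) ^ S.card *
        ∑ ψ : Subgroup.zpowers (χ ^ (m * ∏ l ∈ S, l)),
          f (χ₀ * χ ^ ((∏ l ∈ S, l) * (m - 1)) * (ψ : DirichletCharacter ℂ q)) := by
  have hP : ∀ l ∈ PS (orderOf χ) m Y, l.Prime := fun l hl => (mem_PS.1 hl).1.1
  have h1 := sieve (R := R) (PS (orderOf χ) m Y) hP (Om (orderOf χ) m) (fun j => f (χ₀ * χ ^ j))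
  unfold OS
  rw [h1]
  apply Finset.sum_congr rfl
  intro S hS
  rw [mem_powerset] at hS
  obtain ⟨a1, a2, a3, _⟩ := pr_facts O.d0 O.hmd O.hm hS
  have hm0 : 0 < m := by rcases O.hm with h | h <;> omega
  rw [Om_sum O.hm a1 a2 a3, coset_range χ (Nat.mul_pos hm0 a1).ne' a2 (fun ξ => f (χ₀ * ξ))]
  congr 1
  apply Finset.sum_congr rfl
  intro ψ _
  rw [mul_assoc]

lemma Orb.cardS (O : Orb q z W R0 Hc L Y m a ϱ C D κ η χ χ₀) {S : Finset ℕ}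
    (hS : S ⊆ PS (orderOf χ) m Y) :
    (Fintype.card (Subgroup.zpowers (χ ^ (m * ∏ l ∈ S, l))) : ℝ) =
      (orderOf χ : ℝ) / m * (1 / ((∏ l ∈ S, l : ℕ) : ℝ)) := by
  obtain ⟨a1, a2, a3, _⟩ := pr_facts O.d0 O.hmd O.hm hS
  have hm0 : 0 < m := by rcases O.hm with h | h <;> omega
  rw [card_zp (Nat.mul_pos hm0 a1).ne' a2, Nat.cast_div a2]
  · push_cast
    ring
  · have : m * (∏ l ∈ S, l) ≠ 0 := (Nat.mul_pos hm0 a1).ne'
    exact_mod_cast this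

/-- the first moment over the orbit -/
theorem Orb.FM (O : Orb q z W R0 Hc L Y m a ϱ C D κ η χ χ₀) :
    ‖∑ j ∈ OS (orderOf χ) m Y, gf z W R0 Hc (χ₀ * χ ^ j) -
      (((orderOf χ : ℝ) / m * Ph (PS (orderOf χ) m Y) : ℝ) : ℂ)‖ ≤
      (orderOf χ : ℝ) / m * (5 * tht q * (1 / Ph (PS (orderOf χ) m Y))) := by
  set P := PS (orderOf χ) m Y with hPdef
  set h0 : ℝ := (orderOf χ : ℝ) / m with hh0
  have hh00 : 0 ≤ h0 := by positivity
  have hP : ∀ l ∈ P, l.Prime := fun l hl => (mem_PS.1 hl).1.1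
  have e1 : ((h0 * Ph P : ℝ) : ℂ) = ∑ S ∈ P.powerset, (-1 : ℂ) ^ S.card *
      ((h0 * (1 / ((∏ l ∈ S, l : ℕ) : ℝ)) : ℝ) : ℂ) := by
    rw [← prod_signs, Finset.mul_sum, Complex.ofReal_sum]
    apply Finset.sum_congr rfl
    intro S _
    push_cast
    ring
  rw [O.sieve_sum, e1, ← Finset.sum_sub_distrib]
  refine (norm_sum_le _ _).trans ?_
  have e2 : ∀ S ∈ P.powerset, ‖(-1 : ℂ) ^ S.card * ∑ ψ : Subgroup.zpowers (χ ^ (m * ∏ l ∈ S, l)),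
      gf z W R0 Hc (χ₀ * χ ^ ((∏ l ∈ S, l) * (m - 1)) * (ψ : DirichletCharacter ℂ q)) -
      (-1 : ℂ) ^ S.card * ((h0 * (1 / ((∏ l ∈ S, l : ℕ) : ℝ)) : ℝ) : ℂ)‖ ≤
      h0 * (5 * tht q) * (1 / ((∏ l ∈ S, l : ℕ) : ℝ)) := by
    intro S hS
    rw [mem_powerset] at hS
    rw [← mul_sub, norm_mul, norm_pow, norm_neg, norm_one, one_pow, one_mul, sum_gf, ← O.cardS hS]
    have h3 := first_eq (O.hA S hS) (χ₀ * χ ^ ((∏ l ∈ S, l) * (m - 1)))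
    rw [Complex.ofReal_natCast]
    refine h3.trans (le_of_eq ?_)
    rw [O.cardS hS]
    ring
  refine (Finset.sum_le_sum e2).trans ?_
  rw [← Finset.mul_sum]
  have h5 : 0 ≤ h0 * (5 * tht q) := mul_nonneg hh00 (by have := tht_pos q; linarith)
  calc h0 * (5 * tht q) * ∑ S ∈ P.powerset, (1 / ((∏ l ∈ S, l : ℕ) : ℝ)) ≤
      h0 * (5 * tht q) * (1 / Ph P) := mul_le_mul_of_nonneg_left (prod_abs_le hP) h5
    _ = _ := by ring

/-- the second moment over the orbit -/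
theorem Orb.SM (O : Orb q z W R0 Hc L Y m a ϱ C D κ η χ χ₀) :
    Real.Gamma (kap a) ^ 2 * ∑ j ∈ OS (orderOf χ) m Y, ‖gf z W R0 Hc (χ₀ * χ ^ j)‖ ^ 2 ≤
      (orderOf χ : ℝ) / m * Ph (PS (orderOf χ) m Y) * Bq q W z R0 Hc a +
      (orderOf χ : ℝ) / m * (((262 * ϱ * C + 4) * tht q) * (2 * ∫ p, mj a p) *
        (1 / Ph (PS (orderOf χ) m Y))) := by
  set P := PS (orderOf χ) m Y with hPdef
  set h0 : ℝ := (orderOf χ : ℝ) / m with hh0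
  have hh00 : 0 ≤ h0 := by positivity
  set θ := ((262 * ϱ * C + 4) * tht q) * (2 * ∫ p, mj a p) with hθ
  have hA0 := O.hA ∅ (empty_subset _)
  have hC := hA0.sz.hC
  have hϱ0 := hA0.sz.hϱ0
  have hϱC : 1 ≤ ϱ * C := by nlinarith
  have hmj := mj_nonneg a
  have hθ0 : 0 ≤ θ := by
    rw [hθ]
    apply mul_nonneg (mul_nonneg (by linarith) (tht_pos q).le)
    linarith
  have hP : ∀ l ∈ P, l.Prime := fun l hl => (mem_PS.1 hl).1.1
  rw [O.sieve_sum (fun ξ => ‖gf z W R0 Hc ξ‖ ^ 2), Finset.mul_sum]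
  have e1 : h0 * Ph P * Bq q W z R0 Hc a = ∑ S ∈ P.powerset, (-1 : ℝ) ^ S.card *
      (h0 * (1 / ((∏ l ∈ S, l : ℕ) : ℝ)) * Bq q W z R0 Hc a) := by
    rw [← prod_signs, Finset.mul_sum, Finset.sum_mul]
    apply Finset.sum_congr rfl
    intro S _
    ring
  have e2 : ∀ S ∈ P.powerset, Real.Gamma (kap a) ^ 2 * ((-1 : ℝ) ^ S.card *
      ∑ ψ : Subgroup.zpowers (χ ^ (m * ∏ l ∈ S, l)),
        ‖gf z W R0 Hc (χ₀ * χ ^ ((∏ l ∈ S, l) * (m - 1)) * (ψ : DirichletCharacter ℂ q))‖ ^ 2) ≤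
      (-1 : ℝ) ^ S.card * (h0 * (1 / ((∏ l ∈ S, l : ℕ) : ℝ)) * Bq q W z R0 Hc a) +
        h0 * θ * (1 / ((∏ l ∈ S, l : ℕ) : ℝ)) := by
    intro S hS
    rw [mem_powerset] at hS
    obtain ⟨a1, a2, a3, _⟩ := pr_facts O.d0 O.hmd O.hm hS
    rw [sum_gf2, ← O.cardS hS]
    have h3 := S2_eq (O.hA S hS) (χ₀ * χ ^ ((∏ l ∈ S, l) * (m - 1))) O.ha
      (parity O.hm a3 O.h1 O.h2 O.h0)
    have h4 : (Fintype.card (Subgroup.zpowers (χ ^ (m * ∏ l ∈ S, l))) : ℝ) *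
        ((262 * ϱ * C + 4) * tht q) * (2 * ∫ p, mj a p) = h0 * θ * (1 / ((∏ l ∈ S, l : ℕ) : ℝ)) := by
      rw [O.cardS hS, hθ]
      ring
    rw [h4] at h3
    have h5 := abs_le.1 h3
    rcases neg_one_pow_eq_or ℝ S.card with h6 | h6
    · rw [h6]
      linarith [h5.2]
    · rw [h6]
      linarith [h5.1]
  refine (Finset.sum_le_sum e2).trans ?_
  rw [Finset.sum_add_distrib, ← e1, ← Finset.mul_sum]
  apply add_le_add_right
  calc h0 * θ * ∑ S ∈ P.powerset, (1 / ((∏ l ∈ S, l : ℕ) : ℝ)) ≤ h0 * θ * (1 / Ph P) :=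
        mul_le_mul_of_nonneg_left (prod_abs_le hP) (mul_nonneg hh00 hθ0)
    _ = _ := by ring

/-- the upper bound for the main term -/
lemma Orb.Bq_le (O : Orb q z W R0 Hc L Y m a ϱ C D κ η χ χ₀) :
    Bq q W z R0 Hc a ≤ (320 * ϱ * C + 2) * (2 * ∫ p, mj a p) +
      ((262 * ϱ * C + 4) * tht q) * (2 * ∫ p, mj a p) := by
  have hA0 := O.hA ∅ (empty_subset _)
  obtain ⟨a1, a2, a3, _⟩ := pr_facts O.d0 O.hmd O.hm (empty_subset (PS (orderOf χ) m Y))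
  have h3 := S2_eq hA0 (χ₀ * χ ^ ((∏ l ∈ (∅ : Finset ℕ), l) * (m - 1))) O.ha
      (parity O.hm a3 O.h1 O.h2 O.h0)
  have h4 := S2_int hA0.toAllH (χ₀ * χ ^ ((∏ l ∈ (∅ : Finset ℕ), l) * (m - 1))) O.ha
      (parity O.hm a3 O.h1 O.h2 O.h0)
  set c := (Fintype.card (Subgroup.zpowers (χ ^ (m * ∏ l ∈ (∅ : Finset ℕ), l))) : ℝ) with hc
  have hc0 : 0 < c := Nat.cast_pos.2 Fintype.card_pos
  have h5 := (abs_le.1 h3).1
  have h6 : c * Bq q W z R0 Hc a ≤ c * ((320 * ϱ * C + 2) * (2 * ∫ p, mj a p) +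
      ((262 * ϱ * C + 4) * tht q) * (2 * ∫ p, mj a p)) := by
    rw [mul_add]
    linarith
  exact le_of_mul_le_mul_left h6 hc0

end

end Pool.Agent.V8H32.NW
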