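import Pool.Agent.V8H32.NW.O8

/-! A positive proportion in an orbit. -/

set_option autoImplicit false

namespace Pool.Agent.V8H32.NW
open Finset Pool.Agent.R311.RES MeasureTheory Pool.Agent.V8H32.NV
open scoped Classical

variable {q : ℕ} [Fact q.Prime]
variable {z W R0 Hc L Y m a : ℕ} {ϱ C D κ η : ℝ} {χ χ₀ : DirichletCharacter ℂ q}

lemma CP_card (d : ℕ) : (CP d).card = Nat.totient d := by
  rw [Nat.totient_eq_card_coprime]
  unfold CP
  congr 1
  ext j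
  rw [mem_filter, mem_filter, Nat.coprime_comm]

theorem Orb.main (O : Orb q z W R0 Hc L Y m a ϱ C D κ η χ χ₀) {τ : ℝ} (hτ0 : 0 < τ)
    (hτ : τ * L ≤ 1 / 4) {B1 : ℝ}
    (hB1 : B1 = (320 * ϱ * C + 2) * (2 * ∫ p, mj a p) + 1)
    (hφ1 : 5 * tht q * (1 / Ph (PS (orderOf χ) m Y)) ≤ 1 / 16 * Ph (PS (orderOf χ) m Y))
    (hφ2 : ((262 * ϱ * C + 4) * tht q) * (2 * ∫ p, mj a p) ≤ 1 / 2)
    (hφ3 : ((262 * ϱ * C + 4) * tht q) * (2 * ∫ p, mj a p) * (1 / Ph (PS (orderOf χ) m Y)) ≤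
      1 / 2 * Ph (PS (orderOf χ) m Y))
    (hσ : 256 * B1 * ∑ l ∈ PL (orderOf χ) Y, 1 / (l : ℝ) ≤ Real.Gamma (kap a) ^ 2) :
    (Nat.totient (orderOf χ) : ℝ) * Real.Gamma (kap a) ^ 2 ≤ 4 * B1 *
      (((CP (orderOf χ)).filter (fun j => τ ≤
        ‖DirichletCharacter.LFunction (χ₀ * χ ^ j) (1 / 2)‖)).card : ℝ) := by
  have hA0 := O.hA ∅ (empty_subset _)
  have hC := hA0.sz.hC
  have hϱ0 := hA0.sz.hϱ0
  have hϱC : 1 ≤ ϱ * C := by nlinarith
  have hmj := mj_nonneg a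
  have hFM := O.FM
  have hSM := O.SM
  have hBq := O.Bq_le
  set d := orderOf χ with hd
  have hd0 : 0 < d := O.d0
  set P := PS d m Y with hPdef
  have hP : ∀ l ∈ P, l.Prime := fun l hl => (mem_PS.1 hl).1.1
  obtain ⟨hφ0, hφle⟩ := Ph_pos hP
  set φ := Ph P with hφ
  set h0 : ℝ := (d : ℝ) / m with hh0
  have hm0 : 0 < m := by rcases O.hm with h | h <;> omega
  have hh00 : 0 < h0 := by
    have : (0 : ℝ) < d := by exact_mod_cast hd0
    have : (0 : ℝ) < m := by exact_mod_cast hm0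
    positivity
  set h := h0 * φ with hh
  have hhpos : 0 < h := mul_pos hh00 hφ0
  set G := Real.Gamma (kap a) ^ 2 with hG
  have hG0 : 0 < G := by have := gam_pos a; positivity
  set θ := ((262 * ϱ * C + 4) * tht q) * (2 * ∫ p, mj a p) with hθ
  have hB10 : 1 ≤ B1 := by
    rw [hB1]
    have : 0 ≤ (320 * ϱ * C + 2) * (2 * ∫ p, mj a p) := mul_nonneg (by linarith) (by linarith)
    linarith
  set b : ℕ → ℝ := fun j => ‖gf z W R0 Hc (χ₀ * χ ^ j)‖ with hb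
  have hb0 : ∀ j, 0 ≤ b j := fun j => norm_nonneg _
  have hOSc : ((OS d m Y).card : ℝ) = h := OS_card hd0 O.hmd O.hm
  have hsub : CP d ⊆ OS d m Y := CP_sub O.hmd O.hm
  -- first moment
  have f1 : 15 / 16 * h ≤ ∑ j ∈ OS d m Y, b j := by
    have e1 : ‖∑ j ∈ OS d m Y, gf z W R0 Hc (χ₀ * χ ^ j) - ((h : ℝ) : ℂ)‖ ≤ 1 / 16 * h := by
      refine hFM.trans ?_
      calc h0 * (5 * tht q * (1 / φ)) ≤ h0 * (1 / 16 * φ) := mul_le_mul_of_nonneg_left hφ1 hh00.le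
        _ = _ := by rw [hh]; ring
    have e2 : ‖((h : ℝ) : ℂ)‖ = h := by rw [Complex.norm_real, Real.norm_of_nonneg hhpos.le]
    have e3 := norm_sub_norm_le (((h : ℝ) : ℂ)) (∑ j ∈ OS d m Y, gf z W R0 Hc (χ₀ * χ ^ j))
    rw [norm_sub_rev, e2] at e3
    have e4 : ‖∑ j ∈ OS d m Y, gf z W R0 Hc (χ₀ * χ ^ j)‖ ≤ ∑ j ∈ OS d m Y, b j := norm_sum_le _ _
    linarith
  -- second moment
  have f2 : G * ∑ j ∈ OS d m Y, b j ^ 2 ≤ h * B1 := by
    refine hSM.trans ?_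
    have e1 : h * Bq q W z R0 Hc a ≤ h * ((320 * ϱ * C + 2) * (2 * ∫ p, mj a p) + 1 / 2) :=
      mul_le_mul_of_nonneg_left (by linarith) hhpos.le
    have e2 : h0 * (θ * (1 / φ)) ≤ h0 * (1 / 2 * φ) := mul_le_mul_of_nonneg_left hφ3 hh00.le
    calc h0 * φ * Bq q W z R0 Hc a + h0 * (θ * (1 / φ)) ≤
        h * ((320 * ϱ * C + 2) * (2 * ∫ p, mj a p) + 1 / 2) + h0 * (1 / 2 * φ) := add_le_add e1 e2
      _ = h * B1 := by rw [hB1, hh]; ring
  have hcs : ∀ T : Finset ℕ, T ⊆ OS d m Y → G * (∑ j ∈ T, b j) ^ 2 ≤ (T.card : ℝ) * (h * B1) := by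
    intro T hT
    have e1 : (∑ j ∈ T, b j) ^ 2 ≤ (T.card : ℝ) * ∑ j ∈ T, b j ^ 2 := sq_sum_le_card_mul_sum_sq
    have e2 : ∑ j ∈ T, b j ^ 2 ≤ ∑ j ∈ OS d m Y, b j ^ 2 :=
      Finset.sum_le_sum_of_subset_of_nonneg hT (fun _ _ _ => by positivity)
    calc G * (∑ j ∈ T, b j) ^ 2 ≤ G * ((T.card : ℝ) * ∑ j ∈ OS d m Y, b j ^ 2) := by
          apply mul_le_mul_of_nonneg_left _ hG0.le
          exact e1.trans (mul_le_mul_of_nonneg_left e2 (Nat.cast_nonneg _))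
      _ = (T.card : ℝ) * (G * ∑ j ∈ OS d m Y, b j ^ 2) := by ring
      _ ≤ _ := mul_le_mul_of_nonneg_left f2 (Nat.cast_nonneg _)
  -- the characters with large common factors
  have f3 : ∑ j ∈ OS d m Y \ CP d, b j ≤ 1 / 16 * h := by
    have e1 := hcs (OS d m Y \ CP d) sdiff_subset
    have e2 := OS_diff hd0 O.hmd O.hm O.hY
    have e3 : G * (∑ j ∈ OS d m Y \ CP d, b j) ^ 2 ≤ G * (1 / 16 * h) ^ 2 := by
      refine e1.trans ?_
      calc (((OS d m Y) \ CP d).card : ℝ) * (h * B1) ≤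
          (h * ∑ l ∈ PL d Y, 1 / (l : ℝ)) * (h * B1) := by
            apply mul_le_mul_of_nonneg_right e2
            exact mul_nonneg hhpos.le (by linarith)
        _ = h ^ 2 / 256 * (256 * B1 * ∑ l ∈ PL d Y, 1 / (l : ℝ)) := by ring
        _ ≤ h ^ 2 / 256 * G := mul_le_mul_of_nonneg_left hσ (by positivity)
        _ = _ := by ring
    have e4 := le_of_mul_le_mul_left e3 hG0
    exact le_of_pow_le_pow_left₀ (by norm_num) (by positivity) e4
  have f4 : ∑ j ∈ OS d m Y \ CP d, b j + ∑ j ∈ CP d, b j = ∑ j ∈ OS d m Y, b j :=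
    Finset.sum_sdiff hsub
  have f5 : 7 / 8 * h ≤ ∑ j ∈ CP d, b j := by linarith
  have hCPle : ((CP d).card : ℝ) ≤ h := by
    rw [← hOSc]
    exact_mod_cast card_le_card hsub
  -- small values
  set T := (CP d).filter (fun j => τ ≤ ‖DirichletCharacter.LFunction (χ₀ * χ ^ j) (1 / 2)‖) with hT
  have hcardI : ((IM W z (10 * R0) Hc).card : ℝ) ≤ L := by exact_mod_cast hA0.hLc
  have f6 : ∑ j ∈ (CP d).filter (fun j => ¬ τ ≤ ‖DirichletCharacter.LFunction (χ₀ * χ ^ j) (1 / 2)‖), b j ≤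
      1 / 4 * h := by
    have e1 : ∀ j ∈ (CP d).filter (fun j => ¬ τ ≤ ‖DirichletCharacter.LFunction (χ₀ * χ ^ j) (1 / 2)‖),
        b j ≤ 1 / 4 := by
      intro j hj
      rw [mem_filter, not_le] at hj
      rw [hb]
      simp only
      unfold gf
      split_ifs with h
      · rw [norm_mul]
        refine le_trans ?_ hτ
        apply mul_le_mul hj.2.le _ (norm_nonneg _) hτ0.le
        exact (Mof_norm _ AM (cM' Hc) (fun i hi => cM_abs' hi) _).trans hcardI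
      · rw [norm_zero]; norm_num
    refine (Finset.sum_le_card_nsmul _ _ _ e1).trans ?_
    rw [nsmul_eq_mul]
    have e2 : (((CP d).filter (fun j => ¬ τ ≤
        ‖DirichletCharacter.LFunction (χ₀ * χ ^ j) (1 / 2)‖)).card : ℝ) ≤ (CP d).card := by
      exact_mod_cast card_le_card (filter_subset _ _)
    linarith
  have f7 := Finset.sum_filter_add_sum_filter_not (CP d)
    (fun j => τ ≤ ‖DirichletCharacter.LFunction (χ₀ * χ ^ j) (1 / 2)‖) b
  rw [← hT] at f7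
  have f8 : 1 / 2 * h ≤ ∑ j ∈ T, b j := by linarith
  have f9 := hcs T ((filter_subset _ _).trans hsub)
  have f10 : h * (G * h) ≤ h * (4 * B1 * (T.card : ℝ)) := by
    have e1 : G * (1 / 2 * h) ^ 2 ≤ G * (∑ j ∈ T, b j) ^ 2 := by
      apply mul_le_mul_of_nonneg_left _ hG0.le
      exact pow_le_pow_left₀ (by positivity) f8 2
    have e2 := e1.trans f9
    nlinarith
  have f11 := le_of_mul_le_mul_left f10 hhpos
  calc (Nat.totient d : ℝ) * G ≤ h * G := by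
        apply mul_le_mul_of_nonneg_right _ hG0.le
        rw [← CP_card]
        exact hCPle
    _ = G * h := mul_comm _ _
    _ ≤ _ := f11

end Pool.Agent.V8H32.NW
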