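import Pool.Agent.V8H32.NW.O9
import Pool.Agent.V8H32.NW.P1
import Pool.Agent.Erdos456.Mertens

/-! The theorem for the characters of a given order. -/

set_option autoImplicit false

namespace Pool.Agent.V8H32.NW
open Finset Pool.Agent.R311.RES MeasureTheory Filter Pool.Agent.V8H32.NV
open scoped Classical

lemma exp_le_one_sub {x : ℝ} (h0 : 0 ≤ x) (h : x ≤ 1 / 2) : Real.exp (-(2 * x)) ≤ 1 - x := by
  have h1 : 2 * x + 1 ≤ Real.exp (2 * x) := Real.add_one_le_exp _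
  rw [Real.exp_neg, ← one_div, div_le_iff₀ (Real.exp_pos _)]
  have h2 : 1 ≤ (1 - x) * (2 * x + 1) := by nlinarith
  calc 1 ≤ (1 - x) * (2 * x + 1) := h2
    _ ≤ _ := mul_le_mul_of_nonneg_left h1 (by linarith)

/-- the lower bound for the density (Mertens) -/
lemma Ph_lower : ∃ K : ℝ, 1 ≤ K ∧ ∀ d m Y : ℕ, 3 ≤ Y →
    1 / Ph (PS d m Y) ≤ K * (Real.log Y) ^ 2 := by
  obtain ⟨C, hC⟩ := Pool.Agent.Erdos456.Mert.mertens_inv
  have hC0 : 0 ≤ C := (abs_nonneg _).trans (hC 3 le_rfl)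
  refine ⟨Real.exp (2 * C), Real.one_le_exp (by linarith), fun d m Y hY => ?_⟩
  have hP : ∀ l ∈ PS d m Y, l.Prime := fun l hl => (mem_PS.1 hl).1.1
  have hlY : 1 < Real.log Y := by
    rw [← Real.log_exp 1]
    apply Real.log_lt_log (Real.exp_pos _)
    have h1 := Real.exp_one_lt_d9
    have h2 : (3 : ℝ) ≤ Y := by exact_mod_cast hY
    linarith
  have h1 : Real.exp (-(2 * ∑ l ∈ PS d m Y, 1 / (l : ℝ))) ≤ Ph (PS d m Y) := by
    unfold Ph
    rw [Finset.mul_sum, ← Finset.sum_neg_distrib, Real.exp_sum]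
    apply Finset.prod_le_prod
    · intro l _; exact (Real.exp_pos _).le
    · intro l hl
      have h2 : (2 : ℝ) ≤ l := by exact_mod_cast (hP l hl).two_le
      exact exp_le_one_sub (by positivity) (one_div_le_one_div_of_le (by norm_num) h2)
  have h2 : ∑ l ∈ PS d m Y, 1 / (l : ℝ) ≤ Real.log (Real.log Y) + C := by
    have h3 : ∑ l ∈ PS d m Y, 1 / (l : ℝ) ≤ ∑ p ∈ (Finset.Icc 1 Y).filter Nat.Prime, (1 : ℝ) / p := by
      apply Finset.sum_le_sum_of_subset_of_nonneg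
      · intro l hl
        have h4 := mem_PS.1 hl
        rw [mem_filter, Finset.mem_Icc]
        exact ⟨⟨h4.1.1.pos, h4.2.1⟩, h4.1.1⟩
      · intro l _ _; positivity
    have h4 := (abs_le.1 (hC Y hY)).2
    linarith
  rw [div_le_iff₀ (Ph_pos hP).1]
  have h5 : 1 = (Real.exp (2 * C) * Real.log Y ^ 2) * Real.exp (-(2 * (Real.log (Real.log Y) + C))) := by
    have h6 : Real.log Y ^ 2 = Real.exp (2 * Real.log (Real.log Y)) := by
      rw [show (2 : ℝ) * Real.log (Real.log Y) = ((2 : ℕ) : ℝ) * Real.log (Real.log Y) by norm_num,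
        Real.exp_nat_mul, Real.exp_log (by linarith)]
    rw [h6, ← Real.exp_add, ← Real.exp_add]
    rw [eq_comm, Real.exp_eq_one_iff]
    ring
  calc (1 : ℝ) = (Real.exp (2 * C) * Real.log Y ^ 2) * Real.exp (-(2 * (Real.log (Real.log Y) + C))) := h5
    _ ≤ (Real.exp (2 * C) * Real.log Y ^ 2) * Ph (PS d m Y) := by
        apply mul_le_mul_of_nonneg_left _ (by positivity)
        refine le_trans ?_ h1
        apply Real.exp_le_exp.2
        linarith

/-- the constants -/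
noncomputable def B1c (ϱ C : ℝ) (a : ℕ) : ℝ := (320 * ϱ * C + 2) * (2 * ∫ p, mj a p) + 1

noncomputable def cw (ϱ C : ℝ) (a : ℕ) : ℝ := Real.Gamma (kap a) ^ 2 / (4 * B1c ϱ C a)

lemma B1c_one {ϱ C : ℝ} (hϱ : 1 ≤ ϱ) (hC : 1 ≤ C) (a : ℕ) : 1 ≤ B1c ϱ C a := by
  unfold B1c
  have h2 := mj_nonneg a
  have h3 : 1 ≤ ϱ * C := by nlinarith
  have h4 : 0 ≤ (320 * ϱ * C + 2) * (2 * ∫ p, mj a p) := mul_nonneg (by linarith) (by linarith)
  linarith

lemma cw_pos {ϱ C : ℝ} (hϱ : 1 ≤ ϱ) (hC : 1 ≤ C) (a : ℕ) : 0 < cw ϱ C a := by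
  unfold cw
  have h1 := gam_pos a
  have h2 := B1c_one hϱ hC a
  positivity

/-- the orbit theorem, in terms of powers of a generator -/
theorem main_pow (δ ε : ℝ) (hδ : 0 < δ) (hε : 0 < ε) : ∃ c : ℝ, 0 < c ∧ ∃ q₀ : ℕ,
    ∀ (q : ℕ) [Fact q.Prime], q₀ ≤ q → ∀ χ χ₀ : DirichletCharacter ℂ q,
    (q : ℝ) ^ (2 / 3 + δ) ≤ (orderOf χ : ℝ) →
    c * (Nat.totient (orderOf χ) : ℝ) ≤ (((CP (orderOf χ)).filter (fun j => (q : ℝ) ^ (-ε) ≤
      ‖DirichletCharacter.LFunction (χ₀ * χ ^ j) (1 / 2)‖)).card : ℝ) := by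
  obtain ⟨ϱ, C, κ, η, hϱ, hC, q1, h1⟩ := exists_parS (δ / 2) ε (by positivity) hε
  obtain ⟨K, hK, hPh⟩ := Ph_lower
  have hϱC : 1 ≤ ϱ * C := by nlinarith
  set c := min (cw ϱ C 0) (cw ϱ C 1) with hc
  have hc0 : 0 < c := lt_min (cw_pos hϱ hC 0) (cw_pos hϱ hC 1)
  set δ₁ : ℝ := min δ 1 / 8 with hδ₁
  have hm0 : 0 < min δ 1 := lt_min hδ one_pos
  have hδ10 : 0 < δ₁ := by rw [hδ₁]; positivity
  have hδ1δ : 8 * δ₁ ≤ δ := by rw [hδ₁]; have := min_le_left δ 1; linarith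
  have hδ11 : 8 * δ₁ ≤ 1 := by rw [hδ₁]; have := min_le_right δ 1; linarith
  have hlog : Tendsto (fun q : ℕ => Real.log (q : ℝ)) atTop atTop :=
    Real.tendsto_log_atTop.comp tendsto_natCast_atTop_atTop
  have hloglog : Tendsto (fun q : ℕ => Real.log (Real.log (q : ℝ))) atTop atTop :=
    Real.tendsto_log_atTop.comp hlog
  have hYt : Tendsto (fun q : ℕ => ((⌊δ₁ * Real.log q⌋₊ : ℕ) : ℝ)) atTop atTop :=
    tendsto_natCast_atTop_atTop.comp (tendsto_nat_floor_atTop.comp (hlog.const_mul_atTop hδ10))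
  have hlYt : Tendsto (fun q : ℕ => Real.log ((⌊δ₁ * Real.log q⌋₊ : ℕ) : ℝ)) atTop atTop :=
    Real.tendsto_log_atTop.comp hYt
  have E1 := hYt.eventually_ge_atTop 3
  have E2 := hlog.eventually (ev_exp (2 : ℝ) (δ / 4) (by positivity) 0)
  have E3 := hlog.eventually_ge_atTop (max 1 (2 / δ₁))
  have E4 : ∀ a : ℕ, ∀ᶠ q : ℕ in atTop, 80 * K ^ 2 * (Real.log (Real.log q)) ^ 4 ≤
      Real.exp (1 / 20 * Real.log (Real.log q)) ∧
      (2 * ((262 * ϱ * C + 4) * (2 * ∫ p, mj a p)) * K ^ 2) * (Real.log (Real.log q)) ^ 4 ≤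
      Real.exp (1 / 20 * Real.log (Real.log q)) ∧
      512 * B1c ϱ C a / (δ₁ * Real.Gamma (kap a) ^ 2) ≤ Real.log ((⌊δ₁ * Real.log q⌋₊ : ℕ) : ℝ) := by
    intro a
    exact (hloglog.eventually (ev_exp (80 * K ^ 2) (1 / 20) (by positivity) 4)).and
      ((hloglog.eventually (ev_exp (2 * ((262 * ϱ * C + 4) * (2 * ∫ p, mj a p)) * K ^ 2) (1 / 20)
        (by positivity) 4)).and (hlYt.eventually_ge_atTop _))
  obtain ⟨q2, hq2⟩ := eventually_atTop.1 (E1.and (E2.and (E3.and ((E4 0).and (E4 1)))))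
  refine ⟨c, hc0, max q1 q2, fun q _ hq χ χ₀ hd => ?_⟩
  obtain ⟨e1, e2, e3, e40, e41⟩ := hq2 q ((le_max_right _ _).trans hq)
  have hqpos : 0 < q := Nat.Prime.pos Fact.out
  have hqR : (0 : ℝ) < q := by exact_mod_cast hqpos
  have hqR1 : (1 : ℝ) ≤ q := by exact_mod_cast hqpos
  set Λ := Real.log q with hΛ
  have hΛ1 : 1 ≤ Λ := (le_max_left _ _).trans e3
  have hΛ2 : 2 ≤ δ₁ * Λ := by
    have := (le_max_right _ _).trans e3
    rw [div_le_iff₀ hδ10] at this
    linarith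
  set Y := ⌊δ₁ * Λ⌋₊ with hY
  have hY3 : 3 ≤ Y := by exact_mod_cast e1
  have hYle : (Y : ℝ) ≤ δ₁ * Λ := Nat.floor_le (by positivity)
  have hYge : δ₁ * Λ / 2 ≤ Y := by
    have := Nat.lt_floor_add_one (δ₁ * Λ)
    rw [← hY] at this
    linarith
  have hYΛ : (Y : ℝ) ≤ Λ := by
    refine hYle.trans ?_
    have : δ₁ * Λ ≤ 1 * Λ := mul_le_mul_of_nonneg_right (by linarith) (by linarith)
    linarith
  have hY0 : (0 : ℝ) < Y := by linarith
  have hlY : 0 < Real.log Y := Real.log_pos (by linarith)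
  have hlYΛ : Real.log Y ≤ Real.log Λ := Real.log_le_log hY0 hYΛ
  obtain ⟨z, W, R0, Hc, L, D, hL, hAll⟩ := h1 q ((le_max_left _ _).trans hq)
  set d := orderOf χ with hdd
  have hd0 : 0 < d := orderOf_pos _
  have hχd : χ ^ d = 1 := pow_orderOf_eq_one χ
  -- the bound for the primorial
  have h4Y : (2 : ℝ) * (4 : ℝ) ^ Y ≤ (q : ℝ) ^ (δ / 2) := by
    have hl4 : Real.log 4 ≤ 2 := by
      rw [show (4 : ℝ) = 2 ^ 2 by norm_num, Real.log_pow]
      have := Real.log_two_lt_d9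
      push_cast
      linarith
    have f1 : (4 : ℝ) ^ Y = Real.exp (Y * Real.log 4) := by
      rw [Real.exp_nat_mul, Real.exp_log (by norm_num)]
    have f2 : (2 : ℝ) ≤ Real.exp (δ / 4 * Λ) := by simpa using e2
    rw [f1, rpow_exp hqpos, ← hΛ]
    calc 2 * Real.exp (Y * Real.log 4) ≤ Real.exp (δ / 4 * Λ) * Real.exp (δ / 4 * Λ) := by
          apply mul_le_mul f2 _ (Real.exp_pos _).le (Real.exp_pos _).le
          apply Real.exp_le_exp.2
          have f3 : (Y : ℝ) * Real.log 4 ≤ (δ₁ * Λ) * 2 :=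
            mul_le_mul hYle hl4 (Real.log_nonneg (by norm_num)) (by positivity)
          have f4 : 8 * δ₁ * Λ ≤ δ * Λ := mul_le_mul_of_nonneg_right hδ1δ (by linarith)
          linarith
      _ = _ := by rw [← Real.exp_add]; ring_nf
  -- the subgroups
  have hA : ∀ m : ℕ, (m = 1 ∨ m = 2) → m ∣ d → ∀ S : Finset ℕ, S ⊆ PS d m Y →
      AllS q z W R0 Hc L ϱ C D κ η (Subgroup.zpowers (χ ^ (m * ∏ l ∈ S, l))) := by
    intro m hm hmd S hS
    obtain ⟨a1, a2, a3, a4⟩ := pr_facts hd0 hmd hm hS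
    have hm0 : 0 < m := by omega
    have hm2 : m ≤ 2 := by omega
    set e := m * ∏ l ∈ S, l with he
    have he0 : 0 < e := Nat.mul_pos hm0 a1
    have heR : (0 : ℝ) < e := by exact_mod_cast he0
    have hele : (e : ℝ) ≤ (q : ℝ) ^ (δ / 2) := by
      refine le_trans ?_ h4Y
      have : e ≤ 2 * 4 ^ Y := Nat.mul_le_mul hm2 a4
      exact_mod_cast this
    set H := Subgroup.zpowers (χ ^ e) with hH
    have hcard : (Fintype.card H : ℝ) * e = d := by
      have f1 : Fintype.card H = d / e := card_zp he0.ne' a2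
      rw [f1]
      exact_mod_cast Nat.div_mul_cancel a2
    have hHge : (q : ℝ) ^ (2 / 3 + δ / 2) ≤ (Fintype.card H : ℝ) := by
      have f1 : (q : ℝ) ^ (2 / 3 + δ / 2) * (q : ℝ) ^ (δ / 2) ≤ (Fintype.card H : ℝ) * (q : ℝ) ^ (δ / 2) := by
        rw [← Real.rpow_add hqR, show 2 / 3 + δ / 2 + δ / 2 = 2 / 3 + δ by ring]
        refine hd.trans ?_
        rw [← hcard]
        exact mul_le_mul_of_nonneg_left hele (Nat.cast_nonneg _)
      exact le_of_mul_le_mul_right f1 (by positivity)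
    have hH23 : (q : ℝ) ^ (2 / 3 : ℝ) ≤ (Fintype.card H : ℝ) :=
      (Real.rpow_le_rpow_of_exponent_le hqR1 (by linarith)).trans hHge
    have hann : (Fintype.card (ann H) : ℝ) ≤ (q : ℝ) ^ (1 / 3 - δ / 2) := by
      have f1 := card_mul H
      have f2 : (Fintype.card H : ℝ) * (Fintype.card (ann H) : ℝ) ≤ (q : ℝ) ^ (2 / 3 + δ / 2) *
          (q : ℝ) ^ (1 / 3 - δ / 2) := by
        rw [← Real.rpow_add hqR, f1]
        norm_num
      have f3 : (q : ℝ) ^ (2 / 3 + δ / 2) * (Fintype.card (ann H) : ℝ) ≤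
          (q : ℝ) ^ (2 / 3 + δ / 2) * (q : ℝ) ^ (1 / 3 - δ / 2) :=
        (mul_le_mul_of_nonneg_right hHge (Nat.cast_nonneg _)).trans f2
      exact le_of_mul_le_mul_left f3 (by positivity)
    exact hAll H hann hH23
  -- the analytic conditions
  have key : ∀ m a : ℕ, (m = 1 ∨ m = 2) → m ∣ d → (m = 1 → χ (-1) = 1) → (m = 2 → χ (-1) = -1) →
      a ≤ 1 → χ₀ (-1) * χ (-1) ^ (m - 1) = (-1) ^ a →
      c * (Nat.totient d : ℝ) ≤ (((CP d).filter (fun j => (q : ℝ) ^ (-ε) ≤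
      ‖DirichletCharacter.LFunction (χ₀ * χ ^ j) (1 / 2)‖)).card : ℝ) := by
    intro m a hm hmd hχ1 hχ2 ha h0
    have O : Orb q z W R0 Hc L Y m a ϱ C D κ η χ χ₀ :=
      { hm := hm, hmd := hmd, h1 := hχ1, h2 := hχ2, ha := ha, h0 := h0, hY := by omega,
        hA := hA m hm hmd }
    obtain ⟨g1, g2, g3⟩ : 80 * K ^ 2 * (Real.log Λ) ^ 4 ≤ Real.exp (1 / 20 * Real.log Λ) ∧
      (2 * ((262 * ϱ * C + 4) * (2 * ∫ p, mj a p)) * K ^ 2) * (Real.log Λ) ^ 4 ≤
      Real.exp (1 / 20 * Real.log Λ) ∧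
      512 * B1c ϱ C a / (δ₁ * Real.Gamma (kap a) ^ 2) ≤ Real.log (Y : ℝ) := by
      interval_cases a
      · exact e40
      · exact e41
    have hP : ∀ l ∈ PS d m Y, l.Prime := fun l hl => (mem_PS.1 hl).1.1
    obtain ⟨hφ0, hφle⟩ := Ph_pos hP
    have hmj := mj_nonneg a
    have hG0 := gam_pos a
    have hB10 := B1c_one hϱ hC a
    set φ := Ph (PS d m Y) with hφ
    set i := 1 / φ with hi
    have hiφ : i * φ = 1 := by rw [hi]; field_simp
    have hi0 : 0 < i := by rw [hi]; positivity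
    have hi1 : i ≤ K * (Real.log Λ) ^ 2 := by
      refine (hPh d m Y hY3).trans ?_
      apply mul_le_mul_of_nonneg_left _ (by linarith)
      exact pow_le_pow_left₀ hlY.le hlYΛ 2
    have hi2 : i ^ 2 ≤ K ^ 2 * (Real.log Λ) ^ 4 := by
      calc i ^ 2 ≤ (K * (Real.log Λ) ^ 2) ^ 2 := pow_le_pow_left₀ hi0.le hi1 2
        _ = _ := by ring
    have ht : tht q * Real.exp (1 / 20 * Real.log Λ) = 1 := by
      unfold tht
      rw [← Real.exp_add, Real.exp_eq_one_iff, ← hΛ]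
      ring
    have ht0 := tht_pos q
    have hφ1 : 5 * tht q * (1 / φ) ≤ 1 / 16 * φ := by
      rw [← hi]
      have f1 : 80 * i ^ 2 ≤ Real.exp (1 / 20 * Real.log Λ) := by
        refine le_trans ?_ g1
        linarith
      have f2 : tht q * (80 * i ^ 2) ≤ 1 := by
        rw [← ht]
        exact mul_le_mul_of_nonneg_left f1 ht0.le
      have f3 : 16 * (5 * tht q * i) ≤ φ := by
        calc 16 * (5 * tht q * i) = (tht q * (80 * i ^ 2)) * φ * (i * φ)⁻¹ * 1 := by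
              rw [hiφ]
              have : tht q * (80 * i ^ 2) * φ = 80 * tht q * i * (i * φ) := by ring
              rw [this, hiφ]; ring
          _ = (tht q * (80 * i ^ 2)) * φ := by rw [hiφ]; ring
          _ ≤ 1 * φ := mul_le_mul_of_nonneg_right f2 hφ0.le
          _ = φ := one_mul _
      linarith
    set θ₀ := (262 * ϱ * C + 4) * (2 * ∫ p, mj a p) with hθ₀
    have hθ0 : 0 ≤ θ₀ := mul_nonneg (by linarith) (by linarith)
    have hφ3 : ((262 * ϱ * C + 4) * tht q) * (2 * ∫ p, mj a p) * (1 / φ) ≤ 1 / 2 * φ := by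
      rw [← hi]
      have f1 : 2 * θ₀ * i ^ 2 ≤ Real.exp (1 / 20 * Real.log Λ) := by
        refine le_trans ?_ g2
        calc 2 * θ₀ * i ^ 2 ≤ 2 * θ₀ * (K ^ 2 * (Real.log Λ) ^ 4) :=
              mul_le_mul_of_nonneg_left hi2 (by linarith)
          _ = _ := by ring
      have f2 : tht q * (2 * θ₀ * i ^ 2) ≤ 1 := by
        rw [← ht]
        exact mul_le_mul_of_nonneg_left f1 ht0.le
      have f3 : 2 * (θ₀ * tht q * i) ≤ φ := by
        calc 2 * (θ₀ * tht q * i) = 2 * (θ₀ * tht q * i) * (i * φ) := by rw [hiφ, mul_one]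
          _ = (tht q * (2 * θ₀ * i ^ 2)) * φ := by ring
          _ ≤ 1 * φ := mul_le_mul_of_nonneg_right f2 hφ0.le
          _ = φ := one_mul _
      have f4 : ((262 * ϱ * C + 4) * tht q) * (2 * ∫ p, mj a p) * i = θ₀ * tht q * i := by
        rw [hθ₀]; ring
      rw [f4]
      linarith
    have hi11 : 1 ≤ i := by
      rw [hi, le_div_iff₀ hφ0]; linarith
    have hφ2 : ((262 * ϱ * C + 4) * tht q) * (2 * ∫ p, mj a p) ≤ 1 / 2 := by
      have f0 : 0 ≤ ((262 * ϱ * C + 4) * tht q) * (2 * ∫ p, mj a p) := by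
        apply mul_nonneg (mul_nonneg (by linarith) ht0.le) (by linarith)
      calc ((262 * ϱ * C + 4) * tht q) * (2 * ∫ p, mj a p) ≤
          ((262 * ϱ * C + 4) * tht q) * (2 * ∫ p, mj a p) * (1 / φ) :=
            le_mul_of_one_le_right f0 hi11
        _ ≤ 1 / 2 * φ := hφ3
        _ ≤ 1 / 2 := by linarith
    have hσ : 256 * B1c ϱ C a * ∑ l ∈ PL d Y, 1 / (l : ℝ) ≤ Real.Gamma (kap a) ^ 2 := by
      have f1 := PL_sum hd0 (by omega : 2 ≤ Y)
      have hdq : Real.log d ≤ Λ := by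
        apply Real.log_le_log (by exact_mod_cast hd0)
        have f2 : d ∣ q - 1 := by
          have f3 : d ∣ Fintype.card (DirichletCharacter ℂ q) := orderOf_dvd_card
          have f4 : Fintype.card (DirichletCharacter ℂ q) = q - 1 := by
            rw [← Nat.card_eq_fintype_card, DirichletCharacter.card_eq_totient_of_hasEnoughRootsOfUnity,
              Nat.totient_prime Fact.out]
          rw [f4] at f3
          exact f3
        have f5 : d ≤ q - 1 := Nat.le_of_dvd (by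
          have := (Fact.out : q.Prime).two_le
          omega) f2
        exact_mod_cast f5.trans (Nat.sub_le _ _)
      have f2 : ∑ l ∈ PL d Y, 1 / (l : ℝ) ≤ 2 / (δ₁ * Real.log Y) := by
        refine f1.trans ?_
        rw [div_le_div_iff₀ (mul_pos hY0 hlY) (mul_pos hδ10 hlY)]
        calc Real.log d * (δ₁ * Real.log Y) ≤ Λ * (δ₁ * Real.log Y) :=
              mul_le_mul_of_nonneg_right hdq (by positivity)
          _ = 2 * ((δ₁ * Λ / 2) * Real.log Y) := by ring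
          _ ≤ 2 * (Y * Real.log Y) := by
              apply mul_le_mul_of_nonneg_left _ (by norm_num)
              exact mul_le_mul_of_nonneg_right hYge hlY.le
      have f3 : 256 * B1c ϱ C a * ∑ l ∈ PL d Y, 1 / (l : ℝ) ≤ 256 * B1c ϱ C a * (2 / (δ₁ * Real.log Y)) :=
        mul_le_mul_of_nonneg_left f2 (by linarith)
      refine f3.trans ?_
      rw [div_le_iff₀ (by positivity)] at g3
      rw [← mul_div_assoc, div_le_iff₀ (by positivity)]
      linarith
    have hmain := O.main (τ := (q : ℝ) ^ (-ε)) (by positivity) hL (B1 := B1c ϱ C a) rfl hφ1 hφ2 hφ3 hσ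
    have hca : c ≤ cw ϱ C a := by
      rw [hc]
      interval_cases a
      · exact min_le_left _ _
      · exact min_le_right _ _
    calc c * (Nat.totient d : ℝ) ≤ cw ϱ C a * (Nat.totient d : ℝ) :=
          mul_le_mul_of_nonneg_right hca (Nat.cast_nonneg _)
      _ ≤ _ := by
          unfold cw
          rw [div_mul_eq_mul_div, div_le_iff₀ (by linarith)]
          linarith
  -- parities
  have hpar : ∀ ξ : DirichletCharacter ℂ q, ∃ a : ℕ, a ≤ 1 ∧ ξ (-1) = (-1) ^ a := by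
    intro ξ
    rcases DirichletCharacter.even_or_odd ξ with h | h
    · exact ⟨0, by norm_num, by rw [pow_zero]; exact h⟩
    · exact ⟨1, le_rfl, by rw [pow_one]; exact h⟩
  rcases DirichletCharacter.even_or_odd χ with h | h
  · have hχ : χ (-1) = 1 := h
    obtain ⟨a, ha, ha'⟩ := hpar χ₀
    exact key 1 a (Or.inl rfl) (one_dvd _) (fun _ => hχ) (fun h => by omega) ha (by
      rw [Nat.sub_self, pow_zero, mul_one, ha'])
  · have hχ : χ (-1) = -1 := h
    have h2d : 2 ∣ d := by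
      have f1 : (χ ^ d) (-1) = 1 := by rw [hχd]; exact MulChar.one_apply (by simp)
      rw [MulChar.pow_apply' χ hd0.ne'] at f1
      by_contra hcon
      have hodd : Odd d := Nat.not_even_iff_odd.1 (fun h => hcon (even_iff_two_dvd.1 h))
      rw [hχ, hodd.neg_one_pow] at f1
      norm_num at f1
    obtain ⟨a, ha, ha'⟩ := hpar (χ₀ * χ)
    exact key 2 a (Or.inr rfl) h2d (fun h => by omega) (fun _ => hχ) ha (by
      rw [MulChar.mul_apply] at ha'
      rw [Nat.add_one_sub_one, pow_one, ha'])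

end Pool.Agent.V8H32.NW
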